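import Mathlib

/-!
# The Bessel function `√y · ∫ exp(-2π y cosh u + ν u) du`
-/

set_option autoImplicit false

open MeasureTheory Filter Topology Real
open scoped ENNReal

noncomputable section

namespace Pool.Agent.Q18.Bessel

/-- the basic real integrand -/
def gb (k : ℕ) (c r u : ℝ) : ℝ := cosh u ^ k * exp (-(c * cosh u) + r * u)

theorem cosh_ge (u : ℝ) : 1 + u ^ 2 / 2 ≤ cosh u := by
  have h1 : Real.cosh u = 1 + 2 * Real.sinh (u / 2) ^ 2 := by
    have := Real.cosh_two_mul (u / 2)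
    rw [mul_div_cancel₀ _ (two_ne_zero)] at this
    rw [this, Real.cosh_sq]; ring
  have h2 : (u / 2) ^ 2 ≤ Real.sinh (u / 2) ^ 2 := by
    rw [sq_le_sq, Real.abs_sinh]
    exact Real.self_le_sinh_iff.2 (abs_nonneg _)
  nlinarith

theorem integrable_gb0 {c : ℝ} (hc : 0 < c) (r : ℝ) : Integrable (gb 0 c r) := by
  have h := (integrable_exp_neg_mul_sq (b := c / 4) (by positivity)).const_mul (exp (r ^ 2 / c))
  refine h.mono' ?_ (Eventually.of_forall fun u => ?_)
  · unfold gb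
    exact (by fun_prop : Continuous fun u => cosh u ^ 0 * exp (-(c * cosh u) + r * u)).aestronglyMeasurable
  · rw [gb, pow_zero, one_mul, Real.norm_eq_abs, abs_exp, ← exp_add]
    apply exp_le_exp.2
    have h1 := cosh_ge u
    have h2 : r * u ≤ c / 4 * u ^ 2 + r ^ 2 / c := by
      have : 0 ≤ (c / 2 * u - r) ^ 2 / c := by positivity
      have e : (c / 2 * u - r) ^ 2 / c = c / 4 * u ^ 2 - r * u + r ^ 2 / c := by
        field_simp; ring
      linarith
    nlinarith

theorem pow_le_exp (k : ℕ) {ε : ℝ} (hε : 0 < ε) : ∃ C, 0 ≤ C ∧ ∀ t : ℝ, 0 ≤ t → t ^ k ≤ C * exp (ε * t) := by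
  refine ⟨(k.factorial : ℝ) / ε ^ k, by positivity, fun t ht => ?_⟩
  have h := Real.pow_div_factorial_le_exp (ε * t) (by positivity) k
  rw [div_le_iff₀ (by positivity), mul_pow] at h
  rw [div_mul_eq_mul_div, le_div_iff₀ (by positivity)]
  linarith

theorem integrable_gb (k : ℕ) {c : ℝ} (hc : 0 < c) (r : ℝ) : Integrable (gb k c r) := by
  obtain ⟨C, hC0, hC⟩ := pow_le_exp k (half_pos hc)
  refine ((integrable_gb0 (half_pos hc) r).const_mul C).mono' ?_ (Eventually.of_forall fun u => ?_)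
  · unfold gb
    exact (by fun_prop : Continuous fun u => cosh u ^ k * exp (-(c * cosh u) + r * u)).aestronglyMeasurable
  · have h0 := cosh_pos u
    rw [gb, gb, Real.norm_eq_abs, abs_of_nonneg (by positivity), pow_zero, one_mul]
    have h1 := hC (cosh u) h0.le
    calc cosh u ^ k * exp (-(c * cosh u) + r * u) ≤
        (C * exp (c / 2 * cosh u)) * exp (-(c * cosh u) + r * u) := by gcongr
      _ = C * (exp (c / 2 * cosh u) * exp (-(c * cosh u) + r * u)) := by ring
      _ = C * exp (-(c / 2 * cosh u) + r * u) := by rw [← exp_add]; congr 2; ring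

/-- the complex integrand -/
def E (ν : ℂ) (k : ℕ) (y u : ℝ) : ℂ :=
  (cosh u : ℂ) ^ k * Complex.exp (-(2 * π * y * cosh u) + ν * u)

theorem norm_E (ν : ℂ) (k : ℕ) (y u : ℝ) : ‖E ν k y u‖ = gb k (2 * π * y) ν.re u := by
  rw [E, norm_mul, norm_pow, Complex.norm_real, Complex.norm_exp, gb,
    Real.norm_eq_abs, abs_of_pos (cosh_pos u)]
  congr 2
  have : ((2 * π * y * cosh u : ℝ) : ℂ) = 2 * π * y * cosh u := by push_cast; ring
  rw [← this, Complex.add_re, Complex.neg_re, Complex.ofReal_re]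
  simp

theorem continuous_E (ν : ℂ) (k : ℕ) (y : ℝ) : Continuous (E ν k y) := by
  unfold E
  fun_prop

theorem integrable_E (ν : ℂ) (k : ℕ) {y : ℝ} (hy : 0 < y) : Integrable (E ν k y) := by
  refine (integrable_gb k (c := 2 * π * y) (by positivity) ν.re).mono' ?_ (Eventually.of_forall fun u => ?_)
  · exact (continuous_E ν k y).aestronglyMeasurable
  · exact (norm_E ν k y u).le

/-- the moments -/
def Jk (ν : ℂ) (k : ℕ) (y : ℝ) : ℂ := ∫ u, E ν k y u

theorem hasDerivAt_E (ν : ℂ) (k : ℕ) (y u : ℝ) :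
    HasDerivAt (fun y => E ν k y u) (-(2 * π) * E ν (k + 1) y u) y := by
  have h1 : HasDerivAt (fun y : ℝ => (-(2 * π * y * cosh u) + ν * u : ℂ)) (-(2 * π * cosh u)) y := by
    have h2 : HasDerivAt (fun y : ℝ => (y : ℂ)) 1 y := Complex.ofRealCLM.hasDerivAt
    have := ((h2.const_mul (2 * π : ℂ)).mul_const (cosh u : ℂ)).neg.add_const (ν * u)
    exact this.congr_deriv (by ring)
  have := (h1.cexp).const_mul ((cosh u : ℂ) ^ k)
  refine this.congr_deriv ?_
  unfold E
  ring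

theorem hasDerivAt_Jk (ν : ℂ) (k : ℕ) {y : ℝ} (hy : 0 < y) :
    HasDerivAt (Jk ν k) (-(2 * π) * Jk ν (k + 1) y) y := by
  have hs : Set.Ioi (y / 2) ∈ 𝓝 y := Ioi_mem_nhds (by linarith)
  have h := hasDerivAt_integral_of_dominated_loc_of_deriv_le (μ := volume) (x₀ := y)
    (F := fun y u => E ν k y u) (F' := fun y u => -(2 * π) * E ν (k + 1) y u)
    (bound := fun u => 2 * π * gb (k + 1) (π * y) ν.re u) hs
    (Eventually.of_forall fun t => (continuous_E ν k t).aestronglyMeasurable)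
    (integrable_E ν k hy)
    (((continuous_E ν (k + 1) y).const_mul _).aestronglyMeasurable)
    (Eventually.of_forall fun u t ht => ?_)
    ((integrable_gb (k + 1) (by positivity) ν.re).const_mul _)
    (Eventually.of_forall fun u t ht => hasDerivAt_E ν k t u)
  · have e := h.2
    rw [integral_const_mul] at e
    exact e
  · have ht : y / 2 < t := ht
    rw [norm_mul, norm_E]
    have h1 : ‖(-(2 * π) : ℂ)‖ = 2 * π := by
      rw [norm_neg, norm_mul, Complex.norm_real, Real.norm_eq_abs, abs_of_pos pi_pos]; simp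
    rw [h1]
    refine mul_le_mul_of_nonneg_left ?_ (by positivity)
    unfold gb
    refine mul_le_mul_of_nonneg_left (exp_le_exp.2 ?_) (by positivity)
    have h2 : 0 < cosh u := cosh_pos u
    have h3 : π * y ≤ 2 * π * t := by nlinarith [pi_pos]
    nlinarith

/-- Bessel's equation -/
theorem bessel (ν : ℂ) {y : ℝ} (hy : 0 < y) :
    4 * π ^ 2 * y ^ 2 * Jk ν 2 y - 2 * π * y * Jk ν 1 y - (4 * π ^ 2 * y ^ 2 + ν ^ 2) * Jk ν 0 y = 0 := by
  have hd : ∀ u : ℝ, HasDerivAt (fun u : ℝ => ((-(2 * π * y) * sinh u - ν : ℂ)) * E ν 0 y u)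
      (4 * π ^ 2 * y ^ 2 * E ν 2 y u - 2 * π * y * E ν 1 y u -
        (4 * π ^ 2 * y ^ 2 + ν ^ 2) * E ν 0 y u) u := by
    intro u
    have hc : HasDerivAt (fun u : ℝ => (cosh u : ℂ)) (sinh u : ℂ) u :=
      (Real.hasDerivAt_cosh u).ofReal_comp
    have hs : HasDerivAt (fun u : ℝ => (sinh u : ℂ)) (cosh u : ℂ) u :=
      (Real.hasDerivAt_sinh u).ofReal_comp
    have hu : HasDerivAt (fun u : ℝ => (u : ℂ)) 1 u := Complex.ofRealCLM.hasDerivAt
    have he : HasDerivAt (fun u : ℝ => Complex.exp (-(2 * π * y * cosh u) + ν * u))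
        (Complex.exp (-(2 * π * y * cosh u) + ν * u) * (-(2 * π * y * sinh u) + ν * 1)) u :=
      (((hc.const_mul (2 * π * y : ℂ)).neg).add (hu.const_mul ν)).cexp
    have h1 : HasDerivAt (fun u : ℝ => (-(2 * π * y) * sinh u - ν : ℂ)) (-(2 * π * y) * cosh u) u :=
      (hs.const_mul (-(2 * π * y) : ℂ)).sub_const ν
    have h2 := h1.mul he
    have e : (fun u : ℝ => ((-(2 * π * y) * sinh u - ν : ℂ)) * E ν 0 y u) =
        (fun u : ℝ => (-(2 * π * y) * sinh u - ν : ℂ)) * fun u : ℝ =>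
          Complex.exp (-(2 * π * y * cosh u) + ν * u) := by
      ext v
      simp [E]
    rw [e]
    refine h2.congr_deriv ?_
    have hid : (cosh u : ℂ) ^ 2 = (sinh u : ℂ) ^ 2 + 1 := by exact_mod_cast Real.cosh_sq u
    unfold E
    generalize Complex.exp (-(2 * π * y * cosh u) + ν * u) = X
    linear_combination -(4 * π ^ 2 * y ^ 2 * X) * hid
  have i0 := integrable_E ν 0 hy
  have i1 := integrable_E ν 1 hy
  have i2 := integrable_E ν 2 hy
  have hf : Integrable (fun u : ℝ => ((-(2 * π * y) * sinh u - ν : ℂ)) * E ν 0 y u) := by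
    have hs : Integrable (fun u : ℝ => (sinh u : ℂ) * E ν 0 y u) := by
      refine i1.mono ?_ (Eventually.of_forall fun u => ?_)
      · refine (Continuous.mul ?_ (continuous_E ν 0 y)).aestronglyMeasurable
        fun_prop
      · rw [norm_mul, norm_E, norm_E]
        unfold gb
        rw [Complex.norm_real, Real.norm_eq_abs, pow_zero, one_mul, pow_one]
        refine mul_le_mul_of_nonneg_right ?_ (exp_pos _).le
        rw [abs_le]
        constructor
        · have := Real.cosh_add_sinh u; have := exp_pos u; linarith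
        · have := Real.cosh_sub_sinh u; have := exp_pos (-u); linarith
    have := (hs.const_mul (-(2 * π * y) : ℂ)).sub (i0.const_mul ν)
    refine this.congr (Eventually.of_forall fun u => ?_)
    simp only [Pi.sub_apply]
    ring
  have hf' : Integrable (fun u : ℝ => 4 * π ^ 2 * y ^ 2 * E ν 2 y u - 2 * π * y * E ν 1 y u -
        (4 * π ^ 2 * y ^ 2 + ν ^ 2) * E ν 0 y u) :=
    ((i2.const_mul (4 * π ^ 2 * y ^ 2 : ℂ)).sub (i1.const_mul (2 * π * y : ℂ))).sub
      (i0.const_mul (4 * π ^ 2 * y ^ 2 + ν ^ 2))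
  have h := integral_eq_zero_of_hasDerivAt_of_integrable hd hf' hf
  have e1 := integral_sub ((i2.const_mul (4 * π ^ 2 * y ^ 2 : ℂ)).sub (i1.const_mul (2 * π * y : ℂ)))
    (i0.const_mul (4 * π ^ 2 * y ^ 2 + ν ^ 2))
  have e2 := integral_sub (i2.const_mul (4 * π ^ 2 * y ^ 2 : ℂ)) (i1.const_mul (2 * π * y : ℂ))
  simp only [Pi.sub_apply] at e1
  rw [e1, e2, integral_const_mul, integral_const_mul, integral_const_mul] at h
  exact h

/-- decay -/
theorem Jk_decay (ν : ℂ) (k : ℕ) : ∃ C, 0 ≤ C ∧ ∀ y : ℝ, 1 ≤ y → ‖Jk ν k y‖ ≤ C * exp (-(π * y)) := by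
  refine ⟨∫ u, gb k π ν.re u, integral_nonneg fun u => ?_, fun y hy => ?_⟩
  · have := cosh_pos u
    unfold gb
    positivity
  · rw [mul_comm, ← integral_const_mul]
    refine (norm_integral_le_integral_norm _).trans ?_
    refine integral_mono_of_nonneg (Eventually.of_forall fun u => norm_nonneg _)
      ((integrable_gb k pi_pos ν.re).const_mul _) (Eventually.of_forall fun u => ?_)
    simp only
    rw [norm_E]
    unfold gb
    have h0 := cosh_pos u
    have h1 : 1 ≤ cosh u := one_le_cosh u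
    rw [mul_left_comm, ← exp_add]
    refine mul_le_mul_of_nonneg_left (exp_le_exp.2 ?_) (by positivity)
    have h2 : π * y * (cosh u - 1) ≥ 0 := mul_nonneg (by positivity) (by linarith)
    have h3 : π * (y - 1) * cosh u ≥ 0 := mul_nonneg (mul_nonneg pi_pos.le (by linarith)) h0.le
    nlinarith

/-! ### The function `B` and its differential equation -/

/-- `B_ν(y) = √y ∫ exp(-2π y cosh u + ν u) du` -/
def B (ν : ℂ) (y : ℝ) : ℂ := (√y : ℂ) * Jk ν 0 y

/-- its derivative -/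
def B1 (ν : ℂ) (y : ℝ) : ℂ := (1 / (2 * √y) : ℂ) * Jk ν 0 y + (√y : ℂ) * (-(2 * π) * Jk ν 1 y)

theorem hasDerivAt_B (ν : ℂ) {y : ℝ} (hy : 0 < y) : HasDerivAt (B ν) (B1 ν y) y := by
  have h1 : HasDerivAt (fun y : ℝ => (√y : ℂ)) ((1 / (2 * √y) : ℝ) : ℂ) y :=
    (Real.hasDerivAt_sqrt hy.ne').ofReal_comp
  have h2 := h1.mul (hasDerivAt_Jk ν 0 hy)
  refine h2.congr_deriv ?_
  unfold B1
  push_cast
  ring

theorem hasDerivAt_B1 (ν : ℂ) {y : ℝ} (hy : 0 < y) :
    HasDerivAt (B1 ν) ((4 * π ^ 2 + (ν ^ 2 - 1 / 4) / y ^ 2) * B ν y) y := by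
  have hs0 : 0 < √y := Real.sqrt_pos.2 hy
  have hs2 : √y ^ 2 = y := Real.sq_sqrt hy.le
  have h1 : HasDerivAt (fun y : ℝ => (√y : ℂ)) ((1 / (2 * √y) : ℝ) : ℂ) y :=
    (Real.hasDerivAt_sqrt hy.ne').ofReal_comp
  have hsC : (√y : ℂ) ≠ 0 := by exact_mod_cast hs0.ne'
  have h3 : HasDerivAt (fun y : ℝ => (1 / (2 * √y) : ℂ)) (-(1 / (4 * y * √y)) : ℂ) y := by
    have := (h1.const_mul (2 : ℂ)).fun_inv (by simpa using hsC)
    have e : (fun y : ℝ => (1 / (2 * √y) : ℂ)) = fun y : ℝ => ((2 : ℂ) * √y)⁻¹ := by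
      ext y; rw [one_div]
    rw [e]
    refine this.congr_deriv ?_
    have hyC : (y : ℂ) = (√y : ℂ) ^ 2 := by exact_mod_cast hs2.symm
    rw [hyC]
    push_cast
    field_simp
    ring
  have h4 := (h3.mul (hasDerivAt_Jk ν 0 hy)).add
    (h1.mul ((hasDerivAt_Jk ν 1 hy).const_mul (-(2 * π) : ℂ)))
  refine h4.congr_deriv ?_
  have hb := bessel ν hy
  have hyC : (y : ℂ) = (√y : ℂ) ^ 2 := by exact_mod_cast hs2.symm
  rw [B]
  simp only [Nat.reduceAdd, zero_add]
  push_cast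
  rw [hyC] at hb ⊢
  field_simp
  linear_combination 4 * hb

theorem B_decay (ν : ℂ) : ∃ C, 0 ≤ C ∧ ∀ y : ℝ, 1 ≤ y → ‖B ν y‖ ≤ C * exp (-(π / 2 * y)) ∧
    ‖B1 ν y‖ ≤ C * exp (-(π / 2 * y)) := by
  obtain ⟨C0, hC0, h0⟩ := Jk_decay ν 0
  obtain ⟨C1, hC1, h1⟩ := Jk_decay ν 1
  have key : ∀ y : ℝ, 1 ≤ y → √y * exp (-(π * y)) ≤ exp (-(π / 2 * y)) := by
    intro y hy
    have h2 : √y ≤ y := Real.sqrt_le_iff.2 ⟨by linarith, by nlinarith⟩
    have h3 : y ≤ exp (π / 2 * y) := by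
      have := Real.add_one_le_exp (π / 2 * y)
      nlinarith [Real.pi_gt_three]
    calc √y * exp (-(π * y)) ≤ exp (π / 2 * y) * exp (-(π * y)) := by gcongr; linarith
      _ = exp (-(π / 2 * y)) := by rw [← exp_add]; congr 1; ring
  refine ⟨C0 + C0 + 2 * π * C1, by positivity, fun y hy => ⟨?_, ?_⟩⟩
  · rw [B, norm_mul, Complex.norm_real, Real.norm_eq_abs, abs_of_nonneg (Real.sqrt_nonneg _)]
    calc √y * ‖Jk ν 0 y‖ ≤ √y * (C0 * exp (-(π * y))) := by gcongr; exact h0 y hy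
      _ = C0 * (√y * exp (-(π * y))) := by ring
      _ ≤ C0 * exp (-(π / 2 * y)) := by gcongr; exact key y hy
      _ ≤ _ := by
        refine mul_le_mul_of_nonneg_right ?_ (exp_pos _).le
        have : 0 ≤ 2 * π * C1 := by positivity
        linarith
  · rw [B1]
    refine (norm_add_le _ _).trans ?_
    have hs1 : 1 ≤ √y := by rw [Real.one_le_sqrt]; exact hy
    have e1 : ‖(1 / (2 * √y) : ℂ) * Jk ν 0 y‖ ≤ C0 * exp (-(π / 2 * y)) := by
      rw [norm_mul]
      have : ‖(1 / (2 * √y) : ℂ)‖ ≤ √y := by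
        rw [norm_div, norm_mul, Complex.norm_real, Real.norm_eq_abs, abs_of_nonneg (Real.sqrt_nonneg _),
          norm_one, div_le_iff₀ (by simp; linarith)]
        have : ‖(2 : ℂ)‖ = 2 := by simp
        rw [this]
        nlinarith
      calc _ ≤ √y * (C0 * exp (-(π * y))) := mul_le_mul this (h0 y hy) (norm_nonneg _) (by positivity)
        _ = C0 * (√y * exp (-(π * y))) := by ring
        _ ≤ _ := by gcongr; exact key y hy
    have e2 : ‖(√y : ℂ) * (-(2 * π) * Jk ν 1 y)‖ ≤ 2 * π * C1 * exp (-(π / 2 * y)) := by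
      have hpi : ‖(-(2 * π) : ℂ)‖ = 2 * π := by
        rw [norm_neg, norm_mul, Complex.norm_real, Real.norm_eq_abs, abs_of_pos pi_pos]; simp
      rw [norm_mul, norm_mul, hpi, Complex.norm_real, Real.norm_eq_abs, abs_of_nonneg (Real.sqrt_nonneg _)]
      calc √y * (2 * π * ‖Jk ν 1 y‖) ≤ √y * (2 * π * (C1 * exp (-(π * y)))) := by
            gcongr; exact h1 y hy
        _ = 2 * π * C1 * (√y * exp (-(π * y))) := by ring
        _ ≤ _ := by
          refine mul_le_mul_of_nonneg_left (key y hy) (by positivity)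
    have : (C0 + C0 + 2 * π * C1) * exp (-(π / 2 * y)) = C0 * exp (-(π / 2 * y)) +
      C0 * exp (-(π / 2 * y)) + 2 * π * C1 * exp (-(π / 2 * y)) := by ring
    rw [this]
    have h5 : 0 ≤ C0 * exp (-(π / 2 * y)) := by positivity
    linarith

/-- uniqueness for the differential equation with zero data -/
theorem ode_unique {Λ : ℂ} {u u1 : ℝ → ℂ} (h1 : ∀ y, 0 < y → HasDerivAt u (u1 y) y)
    (h2 : ∀ y, 0 < y → HasDerivAt u1 ((4 * π ^ 2 + Λ / y ^ 2) * u y) y) {y0 : ℝ} (hy0 : 0 < y0)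
    (e1 : u y0 = 0) (e2 : u1 y0 = 0) {y : ℝ} (hy : 0 < y) : u y = 0 := by
  set a := min y y0 / 2 with ha
  set b := max y y0 + 1 with hb
  have ha0 : 0 < a := by
    have : 0 < min y y0 := lt_min hy hy0
    positivity
  set L : ℝ := 4 * π ^ 2 + ‖Λ‖ / a ^ 2 + 1 with hL
  have hL0 : 0 ≤ L := by positivity
  set v : ℝ → ℂ × ℂ → ℂ × ℂ := fun t w => (w.2, (4 * π ^ 2 + Λ / t ^ 2) * w.1) with hv
  have hlip : ∀ t ∈ Set.Ioo a b, LipschitzOnWith ⟨L, hL0⟩ (v t) Set.univ := by
    intro t ht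
    rw [lipschitzOnWith_univ]
    refine LipschitzWith.of_dist_le_mul fun w w' => ?_
    rw [Prod.dist_eq]
    have ht0 : 0 < t := ha0.trans ht.1
    have hq : ‖(4 * π ^ 2 + Λ / t ^ 2 : ℂ)‖ ≤ L := by
      refine (norm_add_le _ _).trans ?_
      have k1 : ‖(4 * π ^ 2 : ℂ)‖ = 4 * π ^ 2 := by
        rw [norm_mul, norm_pow, Complex.norm_real, Real.norm_eq_abs, abs_of_pos pi_pos]; simp
      have k2 : ‖(Λ / t ^ 2 : ℂ)‖ ≤ ‖Λ‖ / a ^ 2 := by
        rw [norm_div, norm_pow, Complex.norm_real, Real.norm_eq_abs, abs_of_pos ht0]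
        have := ht.1
        gcongr
      rw [k1]; linarith
    have d1 : dist w.2 w'.2 ≤ dist w w' := by rw [Prod.dist_eq]; exact le_max_right _ _
    have d2 : dist w.1 w'.1 ≤ dist w w' := by rw [Prod.dist_eq]; exact le_max_left _ _
    refine max_le ?_ ?_
    · show dist w.2 w'.2 ≤ L * dist w w'
      have hL1 : 1 ≤ L := by
        have : 0 ≤ 4 * π ^ 2 + ‖Λ‖ / a ^ 2 := by positivity
        linarith
      nlinarith [dist_nonneg (x := w) (y := w')]
    · show dist ((4 * π ^ 2 + Λ / t ^ 2) * w.1) ((4 * π ^ 2 + Λ / t ^ 2) * w'.1) ≤ L * dist w w'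
      rw [dist_eq_norm, ← mul_sub, norm_mul, ← dist_eq_norm]
      exact mul_le_mul hq d2 dist_nonneg hL0
  have hyI : y ∈ Set.Ioo a b := by
    constructor
    · have : min y y0 ≤ y := min_le_left _ _
      linarith
    · have : y ≤ max y y0 := le_max_left _ _
      linarith
  have hy0I : y0 ∈ Set.Ioo a b := by
    constructor
    · have : min y y0 ≤ y0 := min_le_right _ _
      linarith
    · have : y0 ≤ max y y0 := le_max_right _ _
      linarith
  have := ODE_solution_unique_of_mem_Ioo (v := v) (s := fun _ => Set.univ) (f := fun t => (u t, u1 t))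
    (g := fun _ => (0, 0)) hlip hy0I
    (fun t ht => ⟨(h1 t (ha0.trans ht.1)).prodMk (h2 t (ha0.trans ht.1)), Set.mem_univ _⟩)
    (fun t ht => ⟨by
      have : v t (0, 0) = 0 := by simp [hv]
      rw [this]
      exact hasDerivAt_const t _, Set.mem_univ _⟩)
    (by simp [e1, e2])
  exact congrArg Prod.fst (this hyI)

/-- Bounded solutions are multiples of `B`. -/
theorem bounded_solution {ν : ℂ} (hB : ∃ y0, 0 < y0 ∧ B ν y0 ≠ 0) {W W1 : ℝ → ℂ}
    (h1 : ∀ y, 0 < y → HasDerivAt W (W1 y) y)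
    (h2 : ∀ y, 0 < y → HasDerivAt W1 ((4 * π ^ 2 + (ν ^ 2 - 1 / 4) / y ^ 2) * W y) y)
    {M : ℝ} (hM : ∀ y, 0 < y → ‖W y‖ ≤ M) : ∃ c : ℂ, ∀ y, 0 < y → W y = c * B ν y := by
  obtain ⟨y0, hy0, hB0⟩ := hB
  set w : ℝ → ℂ := fun y => W y * B1 ν y - W1 y * B ν y with hw
  have hwd : ∀ y, 0 < y → HasDerivAt w 0 y := by
    intro y hy
    have := ((h1 y hy).mul (hasDerivAt_B1 ν hy)).sub ((h2 y hy).mul (hasDerivAt_B ν hy))
    refine this.congr_deriv ?_
    ring
  have hconst : ∀ y, 0 < y → w y = w y0 := by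
    intro y hy
    exact (convex_Ioi (0 : ℝ)).is_const_of_fderivWithin_eq_zero (𝕜 := ℝ)
      (fun t ht => (hwd t ht).differentiableAt.differentiableWithinAt)
      (fun t ht => by
        have h := (hwd t ht).hasFDerivAt.hasFDerivWithinAt (s := Set.Ioi 0)
        rw [h.fderivWithin (isOpen_Ioi.uniqueDiffWithinAt ht)]
        ext; simp) hy hy0
  -- bound for `W1`
  set q : ℝ := 4 * π ^ 2 + ‖(ν ^ 2 - 1 / 4 : ℂ)‖ with hq
  have hM0 : 0 ≤ M := (norm_nonneg _).trans (hM 1 one_pos)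
  have hW1 : ∀ y, 1 ≤ y → ‖W1 y‖ ≤ ‖W1 1‖ + q * M * (y - 1) := by
    intro y hy
    have hb : ‖W1 y - W1 1‖ ≤ q * M * ‖y - 1‖ := by
      refine (convex_Ici (1 : ℝ)).norm_image_sub_le_of_norm_hasDerivWithin_le
        (f' := fun y => (4 * π ^ 2 + (ν ^ 2 - 1 / 4) / y ^ 2) * W y)
        (fun t ht => (h2 t (lt_of_lt_of_le one_pos ht)).hasDerivWithinAt) (fun t ht => ?_)
        (Set.mem_Ici.2 le_rfl) hy
      have ht : (1 : ℝ) ≤ t := ht
      rw [norm_mul]
      refine mul_le_mul ?_ (hM t (by linarith)) (norm_nonneg _) (by positivity)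
      refine (norm_add_le _ _).trans (add_le_add ?_ ?_)
      · rw [norm_mul, norm_pow, Complex.norm_real, Real.norm_eq_abs, abs_of_pos pi_pos]; simp
      · rw [norm_div, norm_pow, Complex.norm_real, Real.norm_eq_abs, abs_of_nonneg (by linarith)]
        exact div_le_self (norm_nonneg _) (one_le_pow₀ ht)
    rw [Real.norm_of_nonneg (by linarith : 0 ≤ y - 1)] at hb
    have := norm_sub_norm_le (W1 y) (W1 1)
    linarith
  obtain ⟨C, hC0, hC⟩ := B_decay ν
  have hlim : Tendsto w atTop (𝓝 0) := by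
    have hbd : ∀ y, 1 ≤ y → ‖w y‖ ≤ (M * C + ‖W1 1‖ * C + q * M * C) * (y * exp (-(π / 2 * y))) := by
      intro y hy
      obtain ⟨b0, b1⟩ := hC y hy
      have hE : 0 < exp (-(π / 2 * y)) := exp_pos _
      rw [hw]
      refine (norm_sub_le _ _).trans ?_
      rw [norm_mul, norm_mul]
      have t1 : ‖W y‖ * ‖B1 ν y‖ ≤ M * (C * exp (-(π / 2 * y))) :=
        mul_le_mul (hM y (by linarith)) b1 (norm_nonneg _) hM0
      have t2 : ‖W1 y‖ * ‖B ν y‖ ≤ (‖W1 1‖ + q * M * (y - 1)) * (C * exp (-(π / 2 * y))) :=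
        mul_le_mul (hW1 y hy) b0 (norm_nonneg _) (by
          have : 0 ≤ q * M * (y - 1) := mul_nonneg (by positivity) (by linarith)
          positivity)
      have t3 : M * (C * exp (-(π / 2 * y))) ≤ M * C * (y * exp (-(π / 2 * y))) := by
        have : exp (-(π / 2 * y)) ≤ y * exp (-(π / 2 * y)) := by nlinarith
        calc M * (C * exp (-(π / 2 * y))) = M * C * exp (-(π / 2 * y)) := by ring
          _ ≤ _ := by gcongr
      have t4 : (‖W1 1‖ + q * M * (y - 1)) * (C * exp (-(π / 2 * y))) ≤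
          (‖W1 1‖ * C + q * M * C) * (y * exp (-(π / 2 * y))) := by
        have : (‖W1 1‖ + q * M * (y - 1)) ≤ (‖W1 1‖ + q * M) * y := by
          have e1 : 0 ≤ ‖W1 1‖ * (y - 1) := mul_nonneg (norm_nonneg _) (by linarith)
          have e2 : 0 ≤ q * M := by positivity
          nlinarith
        calc _ ≤ ((‖W1 1‖ + q * M) * y) * (C * exp (-(π / 2 * y))) := by gcongr
          _ = _ := by ring
      linarith
    have hl : Tendsto (fun y : ℝ => (M * C + ‖W1 1‖ * C + q * M * C) * (y * exp (-(π / 2 * y))))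
        atTop (𝓝 0) := by
      have h3 := Real.tendsto_pow_mul_exp_neg_atTop_nhds_zero 1
      have h4 : Tendsto (fun y : ℝ => π / 2 * y) atTop atTop :=
        tendsto_id.const_mul_atTop (by positivity)
      have h5 := (h3.comp h4).const_mul ((M * C + ‖W1 1‖ * C + q * M * C) * (2 / π))
      rw [mul_zero] at h5
      refine h5.congr fun y => ?_
      simp only [Function.comp, pow_one]
      have := pi_pos.ne'
      field_simp
    refine squeeze_zero_norm' ?_ hl
    filter_upwards [eventually_ge_atTop (1 : ℝ)] with y hy using hbd y hy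
  have hw0 : w y0 = 0 := by
    have : Tendsto w atTop (𝓝 (w y0)) := by
      refine tendsto_const_nhds.congr' ?_
      filter_upwards [eventually_gt_atTop (0 : ℝ)] with y hy using (hconst y hy).symm
    exact tendsto_nhds_unique this hlim
  set c := W y0 / B ν y0 with hc
  refine ⟨c, fun y hy => ?_⟩
  have hd1 : ∀ y, 0 < y → HasDerivAt (fun y => W y - c * B ν y) (W1 y - c * B1 ν y) y :=
    fun y hy => (h1 y hy).sub ((hasDerivAt_B ν hy).const_mul c)
  have hd2 : ∀ y : ℝ, 0 < y → HasDerivAt (fun y => W1 y - c * B1 ν y)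
      ((4 * π ^ 2 + (ν ^ 2 - 1 / 4) / y ^ 2) * (W y - c * B ν y)) y := by
    intro y hy
    refine ((h2 y hy).sub ((hasDerivAt_B1 ν hy).const_mul c)).congr_deriv ?_
    ring
  have z1 : W y0 - c * B ν y0 = 0 := by rw [hc]; field_simp; ring
  have z2 : W1 y0 - c * B1 ν y0 = 0 := by
    rw [hw] at hw0
    simp only at hw0
    rw [hc]
    field_simp
    linear_combination -hw0
  have := ode_unique hd1 hd2 hy0 z1 z2 hy
  linear_combination this

end Pool.Agent.Q18.Bessel
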