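import Pool.Agent.Q18.Bessel

/-!
# The Mellin transform of the Bessel function
-/

set_option autoImplicit false

open MeasureTheory Filter Topology Real Set
open scoped ENNReal

noncomputable section

namespace Pool.Agent.Q18.Bessel

/-- substitution `a = π y e^u` -/
theorem Jk_zero_eq (ν : ℂ) {y : ℝ} (hy : 0 < y) : Jk ν 0 y =
    ∫ a in Ioi (0 : ℝ), Complex.exp (-(a + π ^ 2 * y ^ 2 / a)) * (a : ℂ) ^ (ν - 1) *
      ((π * y : ℝ) : ℂ) ^ (-ν) := by
  have hpy : 0 < π * y := by positivity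
  set g : ℝ → ℂ := fun a => Complex.exp (-(a + π ^ 2 * y ^ 2 / a)) * (a : ℂ) ^ (ν - 1) *
      ((π * y : ℝ) : ℂ) ^ (-ν) with hg
  have himg : (fun u : ℝ => π * y * exp u) '' univ = Ioi 0 := by
    ext t
    simp only [image_univ, mem_range, mem_Ioi]
    constructor
    · rintro ⟨u, rfl⟩; positivity
    · intro ht
      refine ⟨log (t / (π * y)), ?_⟩
      rw [exp_log (by positivity)]
      field_simp
  have hinj : InjOn (fun u : ℝ => π * y * exp u) univ := by
    intro u _ v _ h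
    exact exp_injective (mul_left_cancel₀ hpy.ne' h)
  have hder : ∀ u ∈ (univ : Set ℝ), HasDerivWithinAt (fun u : ℝ => π * y * exp u)
      (π * y * exp u) univ u := fun u _ => ((Real.hasDerivAt_exp u).const_mul (π * y)).hasDerivWithinAt
  have h := integral_image_eq_integral_abs_deriv_smul MeasurableSet.univ hder hinj g
  rw [himg, setIntegral_univ] at h
  rw [h]
  unfold Jk
  congr 1
  ext u
  have hpos : 0 < π * y * exp u := by positivity
  rw [abs_of_pos hpos, hg]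
  simp only
  rw [E, pow_zero, one_mul, Complex.real_smul]
  have e1 : ((π * y * exp u : ℝ) : ℂ) ^ (ν - 1) = ((π * y : ℝ) : ℂ) ^ ν * Complex.exp (ν * u) /
      ((π * y * exp u : ℝ) : ℂ) := by
    rw [Complex.cpow_sub _ _ (by exact_mod_cast hpos.ne'), Complex.cpow_one]
    congr 1
    rw [Complex.ofReal_mul, Complex.mul_cpow_ofReal_nonneg hpy.le (exp_pos u).le]
    congr 1
    rw [Complex.cpow_def_of_ne_zero (by exact_mod_cast (exp_pos u).ne'), ← Complex.ofReal_log (exp_pos u).le,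
      log_exp, mul_comm]
  have e2 : (-(2 * π * y * cosh u) : ℂ) = -(((π * y * exp u : ℝ) : ℂ) + π ^ 2 * y ^ 2 /
      ((π * y * exp u : ℝ) : ℂ)) := by
    have h3 : -(2 * π * y * cosh u) = -(π * y * exp u + π ^ 2 * y ^ 2 / (π * y * exp u)) := by
      rw [cosh_eq, exp_neg]
      have := exp_pos u
      have := pi_pos
      field_simp
    exact_mod_cast h3
  have e3 : ((π * y : ℝ) : ℂ) ^ ν * ((π * y : ℝ) : ℂ) ^ (-ν) = 1 := by
    rw [← Complex.cpow_add _ _ (by exact_mod_cast hpy.ne')]; simp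
  have hne : ((π * y * exp u : ℝ) : ℂ) ≠ 0 := by exact_mod_cast hpos.ne'
  rw [Complex.exp_add, e2, e1]
  field_simp
  exact e3.symm

/-- inner Mellin transform -/
theorem inner_mellin {a : ℝ} (ha : 0 < a) (s : ℂ) :
    ∫ y in Ioi (0 : ℝ), (y : ℂ) ^ (s - 1) * Complex.exp (-(π ^ 2 * y ^ 2 / a)) =
      1 / 2 * ((π ^ 2 / a : ℝ) : ℂ) ^ (-(s / 2)) * Complex.GammaIntegral (s / 2) := by
  have hpa : 0 < π ^ 2 / a := by positivity
  have h1 := mellin_comp_rpow (fun t : ℝ => ((Real.exp (-((π ^ 2 / a) * t)) : ℝ) : ℂ)) s 2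
  have h2 := mellin_comp_mul_left (fun t : ℝ => ((Real.exp (-t) : ℝ) : ℂ)) (s / 2) hpa
  have h3 : Complex.GammaIntegral (s / 2) = mellin (fun x : ℝ => ((Real.exp (-x) : ℝ) : ℂ)) (s / 2) :=
    congrFun Complex.GammaIntegral_eq_mellin _
  have h4 : mellin (fun t : ℝ => (fun t : ℝ => ((Real.exp (-((π ^ 2 / a) * t)) : ℝ) : ℂ)) (t ^ (2 : ℝ))) s =
      ∫ y in Ioi (0 : ℝ), (y : ℂ) ^ (s - 1) * Complex.exp (-(π ^ 2 * y ^ 2 / a)) := by
    unfold mellin
    refine setIntegral_congr_fun measurableSet_Ioi fun y _ => ?_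
    simp only [smul_eq_mul]
    congr 1
    rw [Real.rpow_two]
    push_cast
    congr 1
    ring
  rw [← h4, h1]
  have h5 : ((2 : ℝ) : ℂ) = 2 := by norm_num
  rw [h5, h2, ← h3]
  simp only [abs_two, smul_eq_mul, Complex.real_smul]
  push_cast
  ring

theorem integrable_F {σ r : ℝ} (h1 : 0 < σ - r) (h2 : 0 < σ + r) :
    Integrable (fun p : ℝ × ℝ => p.2 ^ (σ - r - 1) * exp (-(π ^ 2 * p.2 ^ 2 / p.1)) *
      (exp (-p.1) * p.1 ^ (r - 1)))
      ((volume.restrict (Ioi 0)).prod (volume.restrict (Ioi 0))) := by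
  have hmeas : AEStronglyMeasurable (fun p : ℝ × ℝ => p.2 ^ (σ - r - 1) * exp (-(π ^ 2 * p.2 ^ 2 / p.1)) *
      (exp (-p.1) * p.1 ^ (r - 1))) ((volume.restrict (Ioi 0)).prod (volume.restrict (Ioi 0))) := by
    refine Measurable.aestronglyMeasurable ?_
    fun_prop
  have hint : ∀ a : ℝ, 0 < a → IntegrableOn (fun y : ℝ => y ^ (σ - r - 1) *
      exp (-(π ^ 2 * y ^ 2 / a))) (Ioi 0) := by
    intro a ha
    have := integrableOn_rpow_mul_exp_neg_mul_rpow (p := 2) (s := σ - r - 1) (b := π ^ 2 / a)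
      (by linarith) (by norm_num) (by positivity)
    refine this.congr_fun (fun y _ => ?_) measurableSet_Ioi
    simp only
    congr 2
    rw [Real.rpow_two]; ring
  have hval : ∀ a : ℝ, 0 < a → ∫ y in Ioi (0 : ℝ), y ^ (σ - r - 1) *
      exp (-(π ^ 2 * y ^ 2 / a)) = (π ^ 2 / a) ^ (-((σ - r) / 2)) * (1 / 2) * Gamma ((σ - r) / 2) := by
    intro a ha
    have := integral_rpow_mul_exp_neg_mul_rpow (p := 2) (q := σ - r - 1) (b := π ^ 2 / a)
      (by norm_num) (by linarith) (by positivity)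
    rw [show -(σ - r - 1 + 1) / 2 = -((σ - r) / 2) by ring, show (σ - r - 1 + 1) / 2 = (σ - r) / 2 by ring]
      at this
    rw [← this]
    refine setIntegral_congr_fun measurableSet_Ioi fun y _ => ?_
    congr 2
    rw [Real.rpow_two]; ring
  rw [integrable_prod_iff hmeas]
  constructor
  · rw [ae_restrict_iff' measurableSet_Ioi]
    refine Eventually.of_forall fun a ha => ?_
    exact (hint a ha).mul_const (exp (-a) * a ^ (r - 1))
  · have hn : ∀ a : ℝ, 0 < a → ∫ y in Ioi (0 : ℝ), ‖y ^ (σ - r - 1) * exp (-(π ^ 2 * y ^ 2 / a)) *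
        (exp (-a) * a ^ (r - 1))‖ = ((π ^ 2) ^ (-((σ - r) / 2)) * (1 / 2) * Gamma ((σ - r) / 2)) *
          (exp (-a) * a ^ ((σ + r) / 2 - 1)) := by
      intro a ha
      have e1 : ∫ y in Ioi (0 : ℝ), ‖y ^ (σ - r - 1) * exp (-(π ^ 2 * y ^ 2 / a)) *
        (exp (-a) * a ^ (r - 1))‖ = ∫ y in Ioi (0 : ℝ), y ^ (σ - r - 1) * exp (-(π ^ 2 * y ^ 2 / a)) *
        (exp (-a) * a ^ (r - 1)) := by
        refine setIntegral_congr_fun measurableSet_Ioi fun y hy => ?_
        have hy : (0 : ℝ) < y := hy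
        exact Real.norm_of_nonneg (by positivity)
      rw [e1, integral_mul_const, hval a ha, Real.div_rpow (by positivity) ha.le]
      have e2 : a ^ ((σ + r) / 2 - 1) = a ^ ((σ - r) / 2) * a ^ (r - 1) := by
        rw [← Real.rpow_add ha]; congr 1; ring
      rw [e2, Real.rpow_neg ha.le]
      have : a ^ ((σ - r) / 2) ≠ 0 := (Real.rpow_pos_of_pos ha _).ne'
      field_simp
    have hfin : IntegrableOn (fun a : ℝ => ((π ^ 2) ^ (-((σ - r) / 2)) * (1 / 2) * Gamma ((σ - r) / 2)) *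
          (exp (-a) * a ^ ((σ + r) / 2 - 1))) (Ioi 0) :=
      (Real.GammaIntegral_convergent (s := (σ + r) / 2) (by linarith)).const_mul _
    exact hfin.congr_fun (fun a ha => (hn a ha).symm) measurableSet_Ioi

/-- **The Mellin transform of the Bessel function** -/
theorem mellin_Jk (ν s : ℂ) (h1 : 0 < s.re - ν.re) (h2 : 0 < s.re + ν.re) :
    mellin (Jk ν 0) s = 1 / 2 * (π : ℂ) ^ (-s) * Complex.Gamma ((s + ν) / 2) *
      Complex.Gamma ((s - ν) / 2) := by
  have hpi : (π : ℂ) ≠ 0 := by exact_mod_cast pi_pos.ne'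
  unfold mellin
  have e1 : ∀ y ∈ Ioi (0 : ℝ), (y : ℂ) ^ (s - 1) • Jk ν 0 y = ∫ a in Ioi (0 : ℝ),
      (π : ℂ) ^ (-ν) * ((y : ℂ) ^ (s - ν - 1) * Complex.exp (-(π ^ 2 * y ^ 2 / a)) *
        (Complex.exp (-a) * (a : ℂ) ^ (ν - 1))) := by
    intro y hy
    have hy : (0 : ℝ) < y := hy
    rw [Jk_zero_eq ν hy, smul_eq_mul, ← integral_const_mul]
    refine setIntegral_congr_fun measurableSet_Ioi fun a _ => ?_
    rw [Complex.ofReal_mul, Complex.mul_cpow_ofReal_nonneg pi_pos.le hy.le, neg_add, Complex.exp_add]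
    have hyC : (y : ℂ) ≠ 0 := by exact_mod_cast hy.ne'
    have e : (y : ℂ) ^ (s - ν - 1) = (y : ℂ) ^ (s - 1) * (y : ℂ) ^ (-ν) := by
      rw [← Complex.cpow_add _ _ hyC]; congr 1; ring
    rw [e]
    ring
  rw [setIntegral_congr_fun measurableSet_Ioi e1]
  have hint : Integrable (Function.uncurry fun (y a : ℝ) => (π : ℂ) ^ (-ν) * ((y : ℂ) ^ (s - ν - 1) *
      Complex.exp (-(π ^ 2 * y ^ 2 / a)) * (Complex.exp (-a) * (a : ℂ) ^ (ν - 1))))
      ((volume.restrict (Ioi 0)).prod (volume.restrict (Ioi 0))) := by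
    have h3 := (integrable_F h1 h2).swap
    refine Integrable.const_mul ?_ ((π : ℂ) ^ (-ν))
    refine Integrable.mono h3 ?_ ?_
    · refine Measurable.aestronglyMeasurable ?_
      fun_prop
    · rw [Measure.prod_restrict, ae_restrict_iff' (measurableSet_Ioi.prod measurableSet_Ioi)]
      refine Eventually.of_forall fun p hp => ?_
      have hy : 0 < p.1 := hp.1
      have ha : 0 < p.2 := hp.2
      refine le_of_eq ?_
      simp only [Function.comp, Prod.fst_swap, Prod.snd_swap]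
      rw [norm_mul, norm_mul, norm_mul, Complex.norm_cpow_eq_rpow_re_of_pos hy,
        Complex.norm_cpow_eq_rpow_re_of_pos ha, Complex.norm_exp, Complex.norm_exp, norm_mul, norm_mul,
        norm_mul, Real.norm_eq_abs, Real.norm_eq_abs, Real.norm_eq_abs, Real.norm_eq_abs,
        abs_of_nonneg (by positivity : 0 ≤ p.1 ^ (s.re - ν.re - 1)),
        abs_of_nonneg (by positivity : 0 ≤ p.2 ^ (ν.re - 1)), abs_of_pos (exp_pos _),
        abs_of_pos (exp_pos _)]
      have e4 : (-(π ^ 2 * p.1 ^ 2 / p.2) : ℂ) = ((-(π ^ 2 * p.1 ^ 2 / p.2) : ℝ) : ℂ) := by push_cast; ring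
      have e5 : (-(p.2 : ℂ)) = ((-p.2 : ℝ) : ℂ) := by push_cast; ring
      rw [e4, e5, Complex.ofReal_re, Complex.ofReal_re]
      simp
  rw [integral_integral_swap hint]
  have e2 : ∀ a ∈ Ioi (0 : ℝ), ∫ y in Ioi (0 : ℝ), (π : ℂ) ^ (-ν) * ((y : ℂ) ^ (s - ν - 1) *
      Complex.exp (-(π ^ 2 * y ^ 2 / a)) * (Complex.exp (-a) * (a : ℂ) ^ (ν - 1))) =
      (1 / 2 * (π : ℂ) ^ (-s) * Complex.GammaIntegral ((s - ν) / 2)) *
        (Complex.exp (-a) * (a : ℂ) ^ ((s + ν) / 2 - 1)) := by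
    intro a ha
    have ha : (0 : ℝ) < a := ha
    have haC : (a : ℂ) ≠ 0 := by exact_mod_cast ha.ne'
    rw [integral_const_mul, integral_mul_const, inner_mellin ha]
    have e3 : ((π ^ 2 / a : ℝ) : ℂ) ^ (-((s - ν) / 2)) = (π : ℂ) ^ (-(s - ν)) *
        (a : ℂ) ^ ((s - ν) / 2) := by
      rw [div_eq_mul_inv, Complex.ofReal_mul, Complex.mul_cpow_ofReal_nonneg (by positivity) (by positivity),
        Complex.ofReal_inv, Complex.inv_cpow _ _ (by
          rw [Complex.arg_ofReal_of_nonneg ha.le]; exact pi_pos.ne), ← Complex.cpow_neg, neg_neg]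
      congr 1
      rw [pow_two, Complex.ofReal_mul, Complex.mul_cpow_ofReal_nonneg pi_pos.le pi_pos.le,
        ← Complex.cpow_add _ _ hpi]
      congr 1; ring
    have e4 : (a : ℂ) ^ ((s + ν) / 2 - 1) = (a : ℂ) ^ ((s - ν) / 2) * (a : ℂ) ^ (ν - 1) := by
      rw [← Complex.cpow_add _ _ haC]; congr 1; ring
    have e5 : (π : ℂ) ^ (-s) = (π : ℂ) ^ (-ν) * (π : ℂ) ^ (-(s - ν)) := by
      rw [← Complex.cpow_add _ _ hpi]; congr 1; ring
    rw [e3, e4, e5]
    ring
  rw [setIntegral_congr_fun measurableSet_Ioi e2, integral_const_mul]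
  have e3 : ∫ a in Ioi (0 : ℝ), Complex.exp (-a) * (a : ℂ) ^ ((s + ν) / 2 - 1) =
      Complex.GammaIntegral ((s + ν) / 2) := by
    unfold Complex.GammaIntegral
    refine setIntegral_congr_fun measurableSet_Ioi fun a _ => ?_
    simp
  have hre1 : 0 < ((s - ν) / 2).re := by
    rw [show (s - ν) / 2 = (((1 / 2 : ℝ) : ℂ)) * (s - ν) by push_cast; ring, Complex.re_ofReal_mul,
      Complex.sub_re]
    linarith
  have hre2 : 0 < ((s + ν) / 2).re := by
    rw [show (s + ν) / 2 = (((1 / 2 : ℝ) : ℂ)) * (s + ν) by push_cast; ring, Complex.re_ofReal_mul,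
      Complex.add_re]
    linarith
  rw [e3, Complex.Gamma_eq_integral hre1, Complex.Gamma_eq_integral hre2]
  ring

theorem mellin_B (ν s : ℂ) (h1 : 0 < s.re - ν.re) (h2 : 0 < s.re + ν.re) :
    mellin (B ν) (s - 1 / 2) = 1 / 2 * (π : ℂ) ^ (-s) * Complex.Gamma ((s + ν) / 2) *
      Complex.Gamma ((s - ν) / 2) := by
  rw [← mellin_Jk ν s h1 h2]
  have h := mellin_cpow_smul (Jk ν 0) (s - 1 / 2) (1 / 2)
  rw [sub_add_cancel] at h
  rw [← h]
  unfold mellin
  refine setIntegral_congr_fun measurableSet_Ioi fun y hy => ?_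
  have hy : (0 : ℝ) < y := hy
  simp only [B, smul_eq_mul]
  rw [Real.sqrt_eq_rpow, Complex.ofReal_cpow hy.le]
  push_cast
  rfl

theorem B_ne_zero (ν : ℂ) : ∃ y0, 0 < y0 ∧ B ν y0 ≠ 0 := by
  by_contra hcon
  push Not at hcon
  set s : ℂ := ((|ν.re| + 1 : ℝ) : ℂ) with hs
  have h1 : 0 < s.re - ν.re := by
    rw [hs, Complex.ofReal_re]; linarith [le_abs_self ν.re]
  have h2 : 0 < s.re + ν.re := by
    rw [hs, Complex.ofReal_re]; linarith [neg_abs_le ν.re]
  have h := mellin_B ν s h1 h2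
  have h0 : mellin (B ν) (s - 1 / 2) = 0 := by
    unfold mellin
    rw [← integral_zero ℝ ℂ (μ := volume.restrict (Ioi 0))]
    refine setIntegral_congr_fun measurableSet_Ioi fun y hy => ?_
    rw [hcon y hy, smul_zero]
  rw [h0] at h
  have hre1 : 0 < ((s - ν) / 2).re := by
    rw [show (s - ν) / 2 = (((1 / 2 : ℝ) : ℂ)) * (s - ν) by push_cast; ring, Complex.re_ofReal_mul,
      Complex.sub_re]
    linarith
  have hre2 : 0 < ((s + ν) / 2).re := by
    rw [show (s + ν) / 2 = (((1 / 2 : ℝ) : ℂ)) * (s + ν) by push_cast; ring, Complex.re_ofReal_mul,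
      Complex.add_re]
    linarith
  have g1 := Complex.Gamma_ne_zero_of_re_pos hre1
  have g2 := Complex.Gamma_ne_zero_of_re_pos hre2
  have g3 : (π : ℂ) ^ (-s) ≠ 0 := by
    rw [Complex.cpow_def_of_ne_zero (by exact_mod_cast pi_pos.ne')]
    exact Complex.exp_ne_zero _
  have : (1 / 2 * (π : ℂ) ^ (-s) * Complex.Gamma ((s + ν) / 2) * Complex.Gamma ((s - ν) / 2)) ≠ 0 :=
    mul_ne_zero (mul_ne_zero (mul_ne_zero (by norm_num) g3) g2) g1
  exact this h.symm

end Pool.Agent.Q18.Bessel
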