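import Mathlib

/-!
# Hecke multiplicative sequences and Euler products
-/

set_option autoImplicit false

open Filter Topology Real

noncomputable section

namespace Pool.Agent.Q18.Coeff

/-- sequences satisfying the `GL(2)` Hecke relations (level one, trivial character) -/
structure HeckeSeq (a : ℕ → ℂ) : Prop where
  zero : a 0 = 0
  one : a 1 = 1
  rel : ∀ p, p.Prime → ∀ n, 0 < n → a p * a n = a (p * n) + if p ∣ n then a (n / p) else 0

namespace HeckeSeq

variable {a : ℕ → ℂ} (h : HeckeSeq a)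

include h

theorem mul_coprime {m n : ℕ} (hmn : m.Coprime n) : a (m * n) = a m * a n := by
  rcases Nat.eq_zero_or_pos n with rfl | hn
  · rw [Nat.mul_zero, h.zero, mul_zero]
  induction m using Nat.strong_induction_on with
  | _ m ih =>
    rcases Nat.eq_zero_or_pos m with rfl | hm
    · rw [Nat.zero_mul, h.zero, zero_mul]
    rcases eq_or_ne m 1 with rfl | hm1
    · rw [one_mul, h.one, one_mul]
    obtain ⟨p, hp, k, rfl⟩ := Nat.exists_prime_and_dvd hm1
    have hk : 0 < k := Nat.pos_of_mul_pos_left hm |> fun _ => by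
      rcases Nat.eq_zero_or_pos k with rfl | h'
      · simp at hm
      · exact h'
    have hkn : k.Coprime n := Nat.Coprime.coprime_mul_left hmn
    have hpn : p.Coprime n := Nat.Coprime.coprime_mul_right hmn
    have hlt : k < p * k := by
      have := hp.two_le
      nlinarith
    have r1 := h.rel p hp (k * n) (Nat.mul_pos hk hn)
    have r2 := h.rel p hp k hk
    have e1 : a (k * n) = a k * a n := ih k hlt hkn
    have hdvd : p ∣ k * n ↔ p ∣ k := by
      constructor
      · intro hd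
        exact hpn.dvd_of_dvd_mul_right hd
      · intro hd
        exact hd.mul_right n
    rw [mul_assoc]
    by_cases hpk : p ∣ k
    · rw [if_pos (hdvd.2 hpk)] at r1
      rw [if_pos hpk] at r2
      obtain ⟨l, rfl⟩ := hpk
      have hl : l < p * (p * l) := by
        have := hp.two_le
        rcases Nat.eq_zero_or_pos l with rfl | h'
        · simp at hk
        · nlinarith [Nat.mul_pos hp.pos h']
      have e2 : a (l * n) = a l * a n := ih l hl (Nat.Coprime.coprime_mul_left hkn)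
      rw [mul_assoc, Nat.mul_div_cancel_left _ hp.pos] at r1
      rw [Nat.mul_div_cancel_left _ hp.pos] at r2
      rw [mul_assoc] at e1 ⊢
      linear_combination -r1 + a n * r2 + a p * e1 - e2
    · rw [if_neg (fun hd => hpk (hdvd.1 hd))] at r1
      rw [if_neg hpk] at r2
      linear_combination -r1 + a n * r2 + a p * e1

theorem prime_pow {p : ℕ} (hp : p.Prime) (e : ℕ) :
    a (p ^ (e + 2)) = a p * a (p ^ (e + 1)) - a (p ^ e) := by
  have := h.rel p hp (p ^ (e + 1)) (pow_pos hp.pos _)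
  rw [if_pos (dvd_pow_self p (by omega)), show p ^ (e + 1) / p = p ^ e by
    rw [pow_succ, Nat.mul_div_cancel _ hp.pos], ← pow_succ'] at this
  linear_combination -this

end HeckeSeq

theorem natCast_pow_cpow (p k : ℕ) (s : ℂ) : ((p ^ k : ℕ) : ℂ) ^ s = ((p : ℂ) ^ s) ^ k := by
  induction k with
  | zero => simp
  | succ k ih => rw [pow_succ, Nat.cast_mul, Complex.natCast_mul_natCast_cpow, ih, pow_succ]

/-- the twisted coefficient -/
def tw (a : ℕ → ℂ) {q : ℕ} (χ : DirichletCharacter ℂ q) (s : ℂ) (n : ℕ) : ℂ :=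
  a n * χ n * (n : ℂ) ^ (-s)

theorem tw_norm_le {a : ℕ → ℂ} {C : ℝ} (hC0 : 0 ≤ C) (hC : ∀ n, ‖a n‖ ≤ C * √n) {q : ℕ}
    (χ : DirichletCharacter ℂ q) (s : ℂ) (n : ℕ) (hn : n ≠ 0) :
    ‖tw a χ s n‖ ≤ C * (n : ℝ) ^ (1 / 2 - s.re) := by
  have hn0 : (0 : ℝ) < n := by exact_mod_cast Nat.pos_of_ne_zero hn
  unfold tw
  rw [norm_mul, norm_mul, Complex.norm_natCast_cpow_of_pos (Nat.pos_of_ne_zero hn)]
  have h1 : ‖a n‖ * ‖χ n‖ ≤ C * √n := by
    calc ‖a n‖ * ‖χ n‖ ≤ (C * √n) * 1 :=
          mul_le_mul (hC n) (χ.norm_le_one _) (norm_nonneg _) (by positivity)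
      _ = _ := mul_one _
  calc ‖a n‖ * ‖χ n‖ * (n : ℝ) ^ (-s).re ≤ C * √n * (n : ℝ) ^ (-s).re := by gcongr
    _ = _ := by
      rw [Real.sqrt_eq_rpow, mul_assoc, ← Real.rpow_add hn0, Complex.neg_re]
      rfl

theorem tw_summable {a : ℕ → ℂ} (h0 : a 0 = 0) {C : ℝ} (hC0 : 0 ≤ C) (hC : ∀ n, ‖a n‖ ≤ C * √n) {q : ℕ}
    (χ : DirichletCharacter ℂ q) {s : ℂ} (hs : 3 / 2 < s.re) : Summable fun n => ‖tw a χ s n‖ := by
  have h1 : Summable fun n : ℕ => C * (n : ℝ) ^ (1 / 2 - s.re) :=
    (Real.summable_nat_rpow.2 (by linarith)).mul_left C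
  refine Summable.of_nonneg_of_le (fun n => norm_nonneg _) (fun n => ?_) h1
  rcases eq_or_ne n 0 with rfl | hn
  · have : tw a χ s 0 = 0 := by unfold tw; rw [h0]; simp
    rw [this, norm_zero]
    positivity
  · exact tw_norm_le hC0 hC χ s n hn

theorem euler {a : ℕ → ℂ} (h : HeckeSeq a) {C : ℝ} (hC0 : 0 ≤ C) (hC : ∀ n, ‖a n‖ ≤ C * √n) {q : ℕ}
    (χ : DirichletCharacter ℂ q) {s : ℂ} (hs : 3 / 2 < s.re) :
    HasProd (fun p : Nat.Primes => (1 - a p * χ p * (p : ℂ) ^ (-s) + χ p ^ 2 * (p : ℂ) ^ (-(2 * s)))⁻¹)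
      (∑' n, tw a χ s n) := by
  have h1 : tw a χ s 1 = 1 := by unfold tw; simp [h.one]
  have h0 : tw a χ s 0 = 0 := by unfold tw; rw [h.zero]; simp
  have hmul : ∀ {m n : ℕ}, m.Coprime n → tw a χ s (m * n) = tw a χ s m * tw a χ s n := by
    intro m n hmn
    unfold tw
    rw [h.mul_coprime hmn, Nat.cast_mul, Nat.cast_mul, Complex.natCast_mul_natCast_cpow, map_mul]
    ring
  have hsum := tw_summable h.zero hC0 hC χ hs
  have hprod := EulerProduct.eulerProduct_hasProd h1 hmul hsum h0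
  convert hprod using 1
  ext p
  set A : ℂ := a p * χ p * (p : ℂ) ^ (-s) with hA
  set B : ℂ := χ p ^ 2 * (p : ℂ) ^ (-(2 * s)) with hB
  set u : ℕ → ℂ := fun e => tw a χ s ((p : ℕ) ^ e) with hu
  have hpp := p.2
  have husum : Summable u := by
    refine Summable.of_norm ?_
    exact hsum.comp_injective (Nat.pow_right_injective hpp.two_le)
  have hB' : B = (χ p * (p : ℂ) ^ (-s)) ^ 2 := by
    rw [hB, mul_pow]
    congr 1
    rw [pow_two, ← Complex.cpow_add _ _ (by exact_mod_cast hpp.ne_zero)]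
    congr 1; ring
  have hu0 : u 0 = 1 := by simp only [hu, pow_zero]; exact h1
  have hu1 : u 1 = A := by simp only [hu, pow_one]; rfl
  have hrec : ∀ e, u (e + 2) = A * u (e + 1) - B * u e := by
    intro e
    simp only [hu, tw]
    rw [h.prime_pow hpp, hB', hA]
    simp only [natCast_pow_cpow]
    simp only [Nat.cast_pow, map_pow]
    ring
  have e1 : ∑' e, u e = u 0 + (u 1 + ∑' e, u (e + 2)) := by
    rw [husum.tsum_eq_zero_add]
    congr 1
    exact ((summable_nat_add_iff 1).2 husum).tsum_eq_zero_add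
  have e2 : ∑' e, u (e + 2) = A * (∑' e, u e - 1) - B * ∑' e, u e := by
    have hs1 : Summable fun e => u (e + 1) := (summable_nat_add_iff 1).2 husum
    have e3 : ∑' e, u (e + 1) = ∑' e, u e - 1 := by
      rw [husum.tsum_eq_zero_add, hu0]; ring
    simp_rw [hrec]
    rw [(hs1.mul_left A).tsum_sub (husum.mul_left B), tsum_mul_left, tsum_mul_left, e3]
  have e4 : (1 - A + B) * ∑' e, u e = 1 := by
    rw [e2, hu0, hu1] at e1
    linear_combination e1
  exact (eq_inv_of_mul_eq_one_right e4).symm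

end Pool.Agent.Q18.Coeff
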