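import Mathlib

/-!
# Integral operators with bounded continuous kernel on a finite measure space are compact
-/

set_option autoImplicit false

open MeasureTheory Filter Topology
open scoped ENNReal InnerProductSpace ComplexConjugate

noncomputable section

namespace Pool.Agent.Q18.CompactKernel

variable {X : Type*} [MeasurableSpace X] {ν : Measure X}
variable {H : Type*} [NormedAddCommGroup H] [InnerProductSpace ℂ H]

theorem mem (F : Lp H 2 ν) (f : H) : MemLp (fun x => ⟪F x, f⟫_ℂ) 2 ν := (Lp.memLp F).inner_const f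

theorem Saux (F : Lp H 2 ν) (f : H) : ‖(mem F f).toLp (fun x => ⟪F x, f⟫_ℂ)‖ ≤ ‖F‖ * ‖f‖ := by
  rw [mul_comm]
  refine Lp.norm_le_mul_norm_of_ae_le_mul (g := F) ?_
  filter_upwards [MemLp.coeFn_toLp (mem F f)] with x hx
  rw [hx, mul_comm]
  exact norm_inner_le_norm _ _

/-- for `F ∈ L²(X; H)`, the operator `H → L²(X)`, `f ↦ (x ↦ ⟪F x, f⟫)` -/
def S (F : Lp H 2 ν) : H →L[ℂ] Lp ℂ 2 ν :=
  LinearMap.mkContinuous
    { toFun := fun f => (mem F f).toLp (fun x => ⟪F x, f⟫_ℂ)
      map_add' := fun f g => by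
        rw [← MemLp.toLp_add]
        exact (MemLp.toLp_eq_toLp_iff _ _).2 (Eventually.of_forall fun x => by simp)
      map_smul' := fun c f => by
        rw [RingHom.id_apply, ← MemLp.toLp_const_smul]
        exact (MemLp.toLp_eq_toLp_iff _ _).2 (Eventually.of_forall fun x => by simp) }
    ‖F‖ (fun f => Saux F f)

theorem S_apply (F : Lp H 2 ν) (f : H) : S F f =ᵐ[ν] fun x => ⟪F x, f⟫_ℂ :=
  MemLp.coeFn_toLp (mem F f)

theorem S_norm_le (F : Lp H 2 ν) : ‖S F‖ ≤ ‖F‖ := LinearMap.mkContinuous_norm_le _ (norm_nonneg _) _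

theorem S_add (F G : Lp H 2 ν) : S (F + G) = S F + S G := by
  ext1 f
  apply Lp.ext
  filter_upwards [S_apply (F + G) f, S_apply F f, S_apply G f, Lp.coeFn_add F G,
    Lp.coeFn_add (S F f) (S G f)] with x h1 h2 h3 h4 h5
  rw [_root_.add_apply, h1, h5, Pi.add_apply, h2, h3, h4, Pi.add_apply,
    inner_add_left]

theorem S_neg (F : Lp H 2 ν) : S (-F) = - S F := by
  ext1 f
  apply Lp.ext
  filter_upwards [S_apply (-F) f, S_apply F f, Lp.coeFn_neg F, Lp.coeFn_neg (S F f)]
    with x h1 h2 h4 h5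
  rw [_root_.neg_apply, h1, h5, Pi.neg_apply, h2, h4, Pi.neg_apply, inner_neg_left]

theorem S_continuous : Continuous (S : Lp H 2 ν → H →L[ℂ] Lp ℂ 2 ν) := by
  refine (LipschitzWith.of_dist_le_mul (K := 1) fun F G => ?_).continuous
  rw [dist_eq_norm, dist_eq_norm, NNReal.coe_one, one_mul, sub_eq_add_neg, ← S_neg, ← S_add,
    ← sub_eq_add_neg]
  exact S_norm_le _

theorem S_compact (F : Lp H 2 ν) : IsCompactOperator (S F) := by
  refine Lp.induction (by norm_num) (fun F => IsCompactOperator (S F)) ?_ ?_ ?_ F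
  · intro c s hs hμs
    -- rank one
    have : S ((Lp.simpleFunc.indicatorConst 2 hs hμs.ne c : Lp.simpleFunc H 2 ν) : Lp H 2 ν) =
        (ContinuousLinearMap.toSpanSingleton ℂ (indicatorConstLp 2 hs hμs.ne (1 : ℂ))).comp
          (innerSL ℂ c) := by
      ext1 f
      apply Lp.ext
      have h1 := S_apply ((Lp.simpleFunc.indicatorConst 2 hs hμs.ne c : Lp.simpleFunc H 2 ν) :
        Lp H 2 ν) f
      rw [Lp.simpleFunc.coe_indicatorConst] at h1 ⊢
      filter_upwards [h1, indicatorConstLp_coeFn (p := 2) (hs := hs) (hμs := hμs.ne) (c := c),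
        indicatorConstLp_coeFn (p := 2) (hs := hs) (hμs := hμs.ne) (c := (1 : ℂ)),
        Lp.coeFn_smul ⟪c, f⟫_ℂ (indicatorConstLp 2 hs hμs.ne (1 : ℂ))] with x h1 h2 h3 h4
      rw [h1, h2]
      simp only [ContinuousLinearMap.comp_apply, innerSL_apply_apply,
        ContinuousLinearMap.toSpanSingleton_apply]
      rw [h4, Pi.smul_apply, h3]
      by_cases hx : x ∈ s
      · simp [hx]
      · simp [hx]
    rw [this]
    have h2 : IsCompactOperator (innerSL ℂ c : H →L[ℂ] ℂ) :=
      isCompactOperator_of_locallyCompactSpace_dom (M₂ := ℂ) (innerSL ℂ c : H →L[ℂ] ℂ)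
    exact h2.clm_comp (ContinuousLinearMap.toSpanSingleton ℂ (indicatorConstLp 2 hs hμs.ne (1 : ℂ)))
  · intro f g hf hg _ h1 h2
    rw [S_add]
    exact h1.add h2
  · exact isClosed_setOfPred_isCompactOperator.preimage S_continuous

variable [TopologicalSpace X] [BorelSpace X] [SecondCountableTopology X] [IsFiniteMeasure ν]
  {K : X → X → ℝ} (hK : Continuous (Function.uncurry K)) {C : ℝ} (hC : ∀ x y, |K x y| ≤ C)

include hK hC in
omit [SecondCountableTopology X] in
theorem memLp_slice (x : X) : MemLp (fun y => (K x y : ℂ)) 2 ν := by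
  refine MemLp.of_bound (C := C) ?_ (Eventually.of_forall fun y => ?_)
  · exact (Complex.continuous_ofReal.comp (hK.comp (by fun_prop : Continuous fun y => (x, y)))).aestronglyMeasurable
  · simpa using hC x y

/-- the map `x ↦ K x ·` with values in `L²` -/
def slice (x : X) : Lp ℂ 2 ν := (memLp_slice hK hC x).toLp _

theorem slice_norm_sq (x x₀ : X) : ‖slice (ν := ν) hK hC x - slice hK hC x₀‖ ^ 2 =
    ∫ y, (K x y - K x₀ y) ^ 2 ∂ν := by
  rw [slice, slice, ← MemLp.toLp_sub]
  have := @inner_self_eq_norm_sq_to_K ℂ _ _ _ _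
    (((memLp_slice (ν := ν) hK hC x).sub (memLp_slice hK hC x₀)).toLp _)
  rw [L2.inner_def] at this
  have h2 : ∫ a, ⟪(((memLp_slice (ν := ν) hK hC x).sub (memLp_slice hK hC x₀)).toLp _) a,
      (((memLp_slice (ν := ν) hK hC x).sub (memLp_slice hK hC x₀)).toLp _) a⟫_ℂ ∂ν =
      ∫ y, (((K x y - K x₀ y) ^ 2 : ℝ) : ℂ) ∂ν := by
    refine integral_congr_ae ?_
    filter_upwards [MemLp.coeFn_toLp ((memLp_slice (ν := ν) hK hC x).sub (memLp_slice hK hC x₀))]
      with y hy
    rw [hy, inner_self_eq_norm_sq_to_K]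
    simp only [Pi.sub_apply]
    rw [← Complex.ofReal_sub, Complex.norm_real]
    norm_cast
    rw [Real.norm_eq_abs, sq_abs]
    rfl
  have h3 := h2.symm.trans this
  rw [integral_complex_ofReal] at h3
  have h4 : ((∫ y, (K x y - K x₀ y) ^ 2 ∂ν : ℝ) : ℂ) =
    ((‖(((memLp_slice (ν := ν) hK hC x).sub (memLp_slice hK hC x₀)).toLp _)‖ ^ 2 : ℝ) : ℂ) := by
    rw [h3]; push_cast; rfl
  exact (Complex.ofReal_injective h4).symm

theorem slice_continuous [FirstCountableTopology X] : Continuous (slice (ν := ν) hK hC) := by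
  rw [continuous_iff_continuousAt]
  intro x₀
  rw [ContinuousAt, tendsto_iff_norm_sub_tendsto_zero]
  have h1 : Tendsto (fun x => ∫ y, (K x y - K x₀ y) ^ 2 ∂ν) (𝓝 x₀) (𝓝 (∫ y, (0 : ℝ) ∂ν)) := by
    refine tendsto_integral_filter_of_dominated_convergence (fun _ => (2 * C) ^ 2) ?_ ?_ ?_ ?_
    · refine Eventually.of_forall fun x => ?_
      have : Continuous fun y => (K x y - K x₀ y) ^ 2 :=
        ((hK.comp (by fun_prop : Continuous fun y => (x, y))).sub
          (hK.comp (by fun_prop : Continuous fun y => (x₀, y)))).pow 2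
      exact this.aestronglyMeasurable
    · refine Eventually.of_forall fun x => Eventually.of_forall fun y => ?_
      rw [Real.norm_eq_abs, abs_pow]
      refine pow_le_pow_left₀ (abs_nonneg _) ?_ 2
      calc |K x y - K x₀ y| ≤ |K x y| + |K x₀ y| := abs_sub _ _
        _ ≤ 2 * C := by linarith [hC x y, hC x₀ y]
    · exact integrable_const _
    · refine Eventually.of_forall fun y => ?_
      have : Continuous fun x => (K x y - K x₀ y) ^ 2 :=
        ((hK.comp (by fun_prop : Continuous fun x => (x, y))).sub continuous_const).pow 2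
      have := this.tendsto x₀
      simpa using this
  rw [integral_zero] at h1
  have h2 := h1.sqrt
  rw [Real.sqrt_zero] at h2
  refine h2.congr fun x => ?_
  rw [← slice_norm_sq hK hC, Real.sqrt_sq (norm_nonneg _)]

theorem slice_norm_le (hC0 : 0 ≤ C) (x : X) :
    ‖slice (ν := ν) hK hC x‖ ≤ ((measureUnivNNReal ν : ℝ)) ^ (2⁻¹ : ℝ) * C := by
  have := Lp.norm_le_of_ae_bound (p := 2) (f := slice (ν := ν) hK hC x) hC0 (by
    filter_upwards [MemLp.coeFn_toLp (memLp_slice (ν := ν) hK hC x)] with y hy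
    rw [slice, hy]
    simpa using hC x y)
  simpa using this

/-- **Compactness of integral operators with bounded continuous symmetric real kernels.** -/
theorem exists_operator [FirstCountableTopology X] [Nonempty X] (hK : Continuous (Function.uncurry K))
    (hC : ∀ x y, |K x y| ≤ C) (hsym : ∀ x y, K x y = K y x) :
    ∃ T : Lp ℂ 2 ν →L[ℂ] Lp ℂ 2 ν, IsCompactOperator T ∧ T.IsSymmetric ∧
      ∀ f : Lp ℂ 2 ν, T f =ᵐ[ν] fun x => ∫ y, (K x y : ℂ) * f y ∂ν := by
  have hC0 : 0 ≤ C := (abs_nonneg _).trans (hC (Classical.arbitrary X) (Classical.arbitrary X))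
  have hmem : MemLp (slice (ν := ν) hK hC) 2 ν :=
    MemLp.of_bound (slice_continuous hK hC).aestronglyMeasurable
      (((measureUnivNNReal ν : ℝ)) ^ (2⁻¹ : ℝ) * C) (Eventually.of_forall fun x => slice_norm_le hK hC hC0 x)
  set F : Lp (Lp ℂ 2 ν) 2 ν := hmem.toLp _ with hF
  have hform : ∀ f : Lp ℂ 2 ν, S F f =ᵐ[ν] fun x => ∫ y, (K x y : ℂ) * f y ∂ν := by
    intro f
    filter_upwards [S_apply F f, MemLp.coeFn_toLp hmem] with x h1 h2
    rw [h1, hF, h2, L2.inner_def]
    refine integral_congr_ae ?_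
    filter_upwards [MemLp.coeFn_toLp (memLp_slice (ν := ν) hK hC x)] with y hy
    rw [slice, hy, RCLike.inner_apply, Complex.conj_ofReal, mul_comm]
  refine ⟨S F, S_compact F, ?_, hform⟩
  intro f g
  change ⟪S F f, g⟫_ℂ = ⟪f, S F g⟫_ℂ
  rw [L2.inner_def, L2.inner_def]
  have hf1 : Integrable f ν := (Lp.memLp f).integrable (by norm_num)
  have hg1 : Integrable g ν := (Lp.memLp g).integrable (by norm_num)
  have e1 : ∫ a, ⟪(S F f) a, g a⟫_ℂ ∂ν = ∫ x, ∫ y, (K x y : ℂ) * (conj (f y) * g x) ∂ν ∂ν := by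
    refine integral_congr_ae ?_
    filter_upwards [hform f] with x hx
    rw [hx, RCLike.inner_apply, ← integral_conj, ← integral_const_mul]
    refine integral_congr_ae (Eventually.of_forall fun y => ?_)
    simp only [map_mul, Complex.conj_ofReal]
    ring
  have e2 : ∫ a, ⟪f a, (S F g) a⟫_ℂ ∂ν = ∫ y, ∫ x, (K x y : ℂ) * (conj (f y) * g x) ∂ν ∂ν := by
    refine integral_congr_ae ?_
    filter_upwards [hform g] with y hy
    rw [hy, RCLike.inner_apply, mul_comm, ← integral_const_mul]
    refine integral_congr_ae (Eventually.of_forall fun x => ?_)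
    simp only [hsym y x]
    ring
  rw [e1, e2]
  apply integral_integral_swap
  have h1 : Integrable (fun z : X × X => g z.1 * conj (f z.2)) (ν.prod ν) :=
    hg1.mul_prod (f := fun x => g x) (g := fun y => conj (f y))
      ((LinearIsometryEquiv.integrable_comp_iff Complex.conjLIE).2 hf1)
  have h2 : Integrable (fun z : X × X => (K z.1 z.2 : ℂ) * (g z.1 * conj (f z.2))) (ν.prod ν) := by
    refine h1.bdd_mul (c := C) ?_ (Eventually.of_forall fun z => ?_)
    · exact (Complex.continuous_ofReal.comp hK).aestronglyMeasurable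
    · simpa using hC z.1 z.2
  refine h2.congr (Eventually.of_forall fun z => ?_)
  simp only [Function.uncurry]
  ring

end Pool.Agent.Q18.CompactKernel
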