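import Pool.Agent.Q18.MaassDefs

/-!
# Counting quadratic extensions
-/

set_option autoImplicit false

open Filter Topology

noncomputable section

namespace Pool.Agent.Q18

theorem QuadExt.inj {E E' : QuadExt} (h : (⟨E.absDisc, E.char⟩ : Σ q : ℕ, DirichletCharacter ℂ q) =
    ⟨E'.absDisc, E'.char⟩) : E = E' := by
  obtain ⟨d, hd, c, h1, h2, h3⟩ := E
  obtain ⟨d', hd', c', h1', h2', h3'⟩ := E'
  simp only [Sigma.mk.injEq] at h
  obtain ⟨rfl, h⟩ := h
  have := eq_of_heq h
  subst this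
  rfl

theorem finite_quadExt (x : ℝ) : {E : QuadExt | (E.absDisc : ℝ) < x}.Finite := by
  set S : Set (Σ q : ℕ, DirichletCharacter ℂ q) := ⋃ q ∈ {q : ℕ | 0 < q ∧ (q : ℝ) < x},
    Set.range (fun χ : DirichletCharacter ℂ q => (⟨q, χ⟩ : Σ q : ℕ, DirichletCharacter ℂ q)) with hS
  have hfin : S.Finite := by
    refine Set.Finite.biUnion ?_ fun q hq => ?_
    · refine (Set.finite_lt_nat ⌈x⌉₊).subset fun q hq => ?_
      exact Nat.lt_ceil.2 hq.2
    · have : NeZero q := ⟨hq.1.ne'⟩
      exact Set.finite_range _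
  refine Set.Finite.of_finite_image (f := fun E : QuadExt =>
    (⟨E.absDisc, E.char⟩ : Σ q : ℕ, DirichletCharacter ℂ q)) (hfin.subset ?_) fun E _ E' _ h => QuadExt.inj h
  rintro _ ⟨E, hE, rfl⟩
  simp only [hS, Set.mem_iUnion]
  exact ⟨E.absDisc, ⟨E.pos, hE⟩, ⟨E.char, rfl⟩⟩

/-- the quadratic field of prime discriminant -/
def primeExt (p : ℕ) (hp : p.Prime) (hp2 : p ≠ 2) : QuadExt := by
  have : Fact p.Prime := ⟨hp⟩
  have hchar : ringChar (ZMod p) ≠ 2 := by rwa [ZMod.ringChar_zmod_n]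
  have hinj : Function.Injective (Int.castRingHom ℂ) := by
    intro a b h
    rw [eq_intCast, eq_intCast] at h
    exact_mod_cast h
  have hne : (quadraticChar (ZMod p)).ringHomComp (Int.castRingHom ℂ) ≠ 1 := by
    intro h
    exact quadraticChar_ne_one hchar ((MulChar.ringHomComp_eq_one_iff hinj).1 h)
  have hne' : ((quadraticChar (ZMod p)).ringHomComp (Int.castRingHom ℂ) : DirichletCharacter ℂ p) ≠ 1 := hne
  refine ⟨p, hp.pos, ((quadraticChar (ZMod p)).ringHomComp (Int.castRingHom ℂ) : DirichletCharacter ℂ p), ?_, ?_, hne'⟩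
  · rw [DirichletCharacter.isPrimitive_def]
    rcases (Nat.dvd_prime hp).1 (DirichletCharacter.conductor_dvd_level
      ((quadraticChar (ZMod p)).ringHomComp (Int.castRingHom ℂ) : DirichletCharacter ℂ p)) with h | h
    · exact absurd (DirichletCharacter.eq_one_iff_conductor_eq_one.2 h) hne'
    · exact h
  · have h : (quadraticChar (ZMod p)) ^ 2 = 1 := (quadraticChar_isQuadratic (ZMod p)).sq_eq_one
    have h2 := MulChar.ringHomComp_pow (quadraticChar (ZMod p)) (Int.castRingHom ℂ) 2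
    rw [h, MulChar.ringHomComp_one] at h2
    exact h2

theorem tendsto_countAll : Tendsto countAll atTop atTop := by
  rw [tendsto_atTop]
  intro m
  have hinf : {p : ℕ | p.Prime ∧ p ≠ 2}.Infinite := by
    refine (Nat.infinite_setOfPred_prime.sdiff (Set.finite_singleton 2)).mono ?_
    intro p hp
    exact ⟨hp.1, hp.2⟩
  obtain ⟨t, ht, htc⟩ := hinf.exists_subset_card_eq m
  obtain ⟨N, hN⟩ := t.bddAbove
  filter_upwards [eventually_gt_atTop (N : ℝ)] with x hx
  have h1 : ((fun p : t => primeExt p.1 (ht p.2).1 (ht p.2).2) '' Set.univ).ncard = m := by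
    rw [Set.ncard_image_of_injective]
    · rw [Set.ncard_univ, Nat.card_eq_fintype_card, Fintype.card_coe, htc]
    · intro a b h
      have : (primeExt a.1 (ht a.2).1 (ht a.2).2).absDisc = (primeExt b.1 (ht b.2).1 (ht b.2).2).absDisc :=
        congrArg QuadExt.absDisc h
      exact Subtype.ext this
  rw [countAll, ← h1]
  refine Set.ncard_le_ncard ?_ (finite_quadExt x)
  rintro _ ⟨p, -, rfl⟩
  show ((primeExt p.1 (ht p.2).1 (ht p.2).2).absDisc : ℝ) < x
  have h2 : (primeExt p.1 (ht p.2).1 (ht p.2).2).absDisc = p.1 := rfl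
  rw [h2]
  have h3 : p.1 ≤ N := hN p.2
  have h4 : (p.1 : ℝ) ≤ N := by exact_mod_cast h3
  linarith

end Pool.Agent.Q18
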