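import Pool.Agent.Q18.Hyp

/-!
# Differentiation of integral operators of point-pair invariants
-/

set_option autoImplicit false

open MeasureTheory Filter Topology UpperHalfPlane
open scoped ENNReal MatrixGroups Pointwise ContDiff

noncomputable section

namespace Pool.Agent.Q18.Hyp

/-- the open upper half plane in `ℂ` -/
def U : Set ℂ := {z | 0 < z.im}

theorem isOpen_U : IsOpen U := isOpen_lt continuous_const Complex.continuous_im

/-- kernels with locally uniformly compact support -/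
structure NK (k : ℂ → ℍ → ℝ) : Prop where
  cont : ContinuousOn (Function.uncurry k) (U ×ˢ Set.univ)
  supp : ∀ z₀ ∈ U, ∃ r, 0 < r ∧ Metric.closedBall z₀ r ⊆ U ∧ ∃ L : Set ℍ, IsCompact L ∧
    ∀ z ∈ Metric.closedBall z₀ r, ∀ w, w ∉ L → k z w = 0

theorem NK.bound {k : ℂ → ℍ → ℝ} (hk : NK k) {z₀ : ℂ} (hz₀ : z₀ ∈ U) :
    ∃ r, 0 < r ∧ Metric.closedBall z₀ r ⊆ U ∧ ∃ L : Set ℍ, IsCompact L ∧ ∃ C, 0 ≤ C ∧
      ∀ z ∈ Metric.closedBall z₀ r, ∀ w, |k z w| ≤ L.indicator (fun _ => C) w := by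
  obtain ⟨r, hr, hrU, L, hL, hLk⟩ := hk.supp z₀ hz₀
  obtain ⟨C, hC⟩ := ((isCompact_closedBall z₀ r).prod hL).exists_bound_of_continuousOn
    (hk.cont.mono (Set.prod_mono hrU (Set.subset_univ _)))
  refine ⟨r, hr, hrU, L, hL, max C 0, le_max_right _ _, fun z hz w => ?_⟩
  by_cases hw : w ∈ L
  · rw [Set.indicator_of_mem hw]
    exact (hC (z, w) ⟨hz, hw⟩).trans (le_max_left _ _)
  · rw [Set.indicator_of_notMem hw, hLk z hz w hw, abs_zero]

theorem NK.continuous_right {k : ℂ → ℍ → ℝ} (hk : NK k) {z : ℂ} (hz : z ∈ U) :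
    Continuous (k z) :=
  hk.cont.comp_continuous (by fun_prop : Continuous fun w : ℍ => (z, w)) (fun w => ⟨hz, trivial⟩)

/-- the integral -/
def iop (k : ℂ → ℍ → ℝ) (φ : ℍ → ℂ) (z : ℂ) : ℂ := ∫ w, (k z w : ℂ) * φ w

variable {φ : ℍ → ℂ} (hφ : Measurable φ) {M : ℝ} (hM : ∀ w, ‖φ w‖ ≤ M)

include hφ hM in
theorem NK.integrable {k : ℂ → ℍ → ℝ} (hk : NK k) {z : ℂ} (hz : z ∈ U) :
    Integrable (fun w => (k z w : ℂ) * φ w) := by
  obtain ⟨r, hr, hrU, L, hL, C, hC0, hC⟩ := hk.bound hz
  refine Integrable.mono' (g := L.indicator fun _ => C * M) ?_ ?_ ?_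
  · rw [integrable_indicator_iff hL.measurableSet]
    exact integrableOn_const hL.measure_lt_top.ne
  · exact ((Complex.measurable_ofReal.comp (hk.continuous_right hz).measurable).mul
      hφ).aestronglyMeasurable
  · refine Eventually.of_forall fun w => ?_
    rw [norm_mul, Complex.norm_real]
    have := hC z (Metric.mem_closedBall_self hr.le) w
    by_cases hw : w ∈ L
    · rw [Set.indicator_of_mem hw] at this ⊢
      exact mul_le_mul this (hM w) (norm_nonneg _) hC0
    · rw [Set.indicator_of_notMem hw] at this ⊢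
      have h0 : |k z w| = 0 := le_antisymm this (abs_nonneg _)
      rw [Real.norm_eq_abs, h0, zero_mul]

include hφ hM in
theorem NK.hasDerivAt {k k' : ℂ → ℍ → ℝ} (hk : NK k) (hk' : NK k') {e : ℂ}
    (hd : ∀ z ∈ U, ∀ w, HasDerivAt (fun t : ℝ => k (z + t * e) w) (k' z w) 0) {z : ℂ}
    (hz : z ∈ U) : HasDerivAt (fun t : ℝ => iop k φ (z + t * e)) (iop k' φ z) 0 := by
  obtain ⟨r, hr, hrU, L, hL, C, hC0, hC⟩ := hk'.bound hz
  have hcont : Continuous fun t : ℝ => z + t * e := by fun_prop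
  set s : Set ℝ := (fun t : ℝ => z + t * e) ⁻¹' (Metric.ball z r) with hs
  have hs0 : s ∈ 𝓝 (0 : ℝ) := by
    refine hcont.continuousAt.preimage_mem_nhds ?_
    simpa using Metric.ball_mem_nhds z hr
  have hsU : ∀ t ∈ s, z + t * e ∈ U := fun t ht => hrU (Metric.ball_subset_closedBall ht)
  have := hasDerivAt_integral_of_dominated_loc_of_deriv_le (μ := (volume : Measure ℍ)) (𝕜 := ℝ)
    (F := fun (t : ℝ) w => (k (z + t * e) w : ℂ) * φ w)
    (F' := fun (t : ℝ) w => (k' (z + t * e) w : ℂ) * φ w) (x₀ := 0) (s := s)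
    (bound := L.indicator fun _ => C * M) hs0 ?_ ?_ ?_ ?_ ?_ ?_
  · have h2 := this.2
    simp only [Complex.ofReal_zero, zero_mul, add_zero] at h2
    exact h2
  · filter_upwards [hs0] with t ht
    exact (hk.integrable hφ hM (hsU t ht)).aestronglyMeasurable
  · simpa using hk.integrable hφ hM hz
  · simpa using (hk'.integrable hφ hM hz).aestronglyMeasurable
  · refine Eventually.of_forall fun w t ht => ?_
    rw [norm_mul, Complex.norm_real]
    have := hC (z + t * e) (Metric.ball_subset_closedBall ht) w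
    by_cases hw : w ∈ L
    · rw [Set.indicator_of_mem hw] at this ⊢
      exact mul_le_mul this (hM w) (norm_nonneg _) hC0
    · rw [Set.indicator_of_notMem hw] at this ⊢
      have h0 : |k' (z + t * e) w| = 0 := le_antisymm this (abs_nonneg _)
      rw [Real.norm_eq_abs, h0, zero_mul]
  · rw [integrable_indicator_iff hL.measurableSet]
    exact integrableOn_const hL.measure_lt_top.ne
  · refine Eventually.of_forall fun w t ht => ?_
    have h1 := hd (z + t * e) (hsU t ht) w
    have h2 : HasDerivAt (fun u : ℝ => k (z + u * e) w) (k' (z + t * e) w) t := by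
      have h4 : HasDerivAt (fun v : ℝ => k (z + t * e + v * e) w) (k' (z + t * e) w) (t - t) := by
        rw [sub_self]; exact h1
      have h5 := h4.comp_sub_const t t
      refine h5.congr_of_eventuallyEq (Eventually.of_forall fun u => ?_)
      simp only
      congr 1
      push_cast
      ring
    exact (h2.ofReal_comp).mul_const _

include hφ hM in
theorem NK.continuousOn {k : ℂ → ℍ → ℝ} (hk : NK k) : ContinuousOn (iop k φ) U := by
  intro z hz
  obtain ⟨r, hr, hrU, L, hL, C, hC0, hC⟩ := hk.bound hz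
  refine ContinuousAt.continuousWithinAt ?_
  refine continuousAt_of_dominated (bound := L.indicator fun _ => C * M) ?_ ?_ ?_ ?_
  · filter_upwards [isOpen_U.mem_nhds hz] with t ht
    exact (hk.integrable hφ hM ht).aestronglyMeasurable
  · filter_upwards [Metric.ball_mem_nhds z hr] with t ht
    refine Eventually.of_forall fun w => ?_
    rw [norm_mul, Complex.norm_real]
    have := hC t (Metric.ball_subset_closedBall ht) w
    by_cases hw : w ∈ L
    · rw [Set.indicator_of_mem hw] at this ⊢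
      exact mul_le_mul this (hM w) (norm_nonneg _) hC0
    · rw [Set.indicator_of_notMem hw] at this ⊢
      have h0 : |k t w| = 0 := le_antisymm this (abs_nonneg _)
      rw [Real.norm_eq_abs, h0, zero_mul]
  · rw [integrable_indicator_iff hL.measurableSet]
    exact integrableOn_const hL.measure_lt_top.ne
  · refine Eventually.of_forall fun w => ?_
    have h1 : ContinuousAt (fun t => k t w) z := by
      have h2 : ContinuousAt (Function.uncurry k) (z, w) :=
        hk.cont.continuousAt ((isOpen_U.prod isOpen_univ).mem_nhds ⟨hz, trivial⟩)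
      exact h2.comp (f := fun t : ℂ => (t, w)) (by fun_prop)
    exact (Complex.continuous_ofReal.continuousAt.comp h1).mul continuousAt_const

/-! ### The kernels built from a point-pair invariant -/

/-- `D` with a complex first argument -/
def Dc (z : ℂ) (w : ℍ) : ℝ := ((z.re - w.re) ^ 2 + (z.im - w.im) ^ 2) / (2 * z.im * w.im)

theorem Dc_coe (z w : ℍ) : Dc (z : ℂ) w = D z w := rfl

theorem Dc_ofComplex {z : ℂ} (hz : z ∈ U) (w : ℍ) : Dc z w = D (ofComplex z) w := by
  rw [ofComplex_apply_of_im_pos hz]; rfl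

theorem continuousOn_Dc : ContinuousOn (Function.uncurry Dc) (U ×ˢ Set.univ) := by
  have h1 : Continuous fun p : ℂ × ℍ => p.2.re := UpperHalfPlane.continuous_re.comp continuous_snd
  have h2 : Continuous fun p : ℂ × ℍ => p.2.im := UpperHalfPlane.continuous_im.comp continuous_snd
  have h3 : Continuous fun p : ℂ × ℍ => p.1.re := Complex.continuous_re.comp continuous_fst
  have h4 : Continuous fun p : ℂ × ℍ => p.1.im := Complex.continuous_im.comp continuous_fst
  unfold Function.uncurry Dc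
  refine ContinuousOn.div (by fun_prop) (by fun_prop) ?_
  rintro ⟨z, w⟩ ⟨hz, -⟩
  have : 0 < z.im := hz
  have := w.im_pos
  simp only; positivity

theorem NK_of {δ : ℝ} {κ : ℝ → ℝ} (hκ : IsKer δ κ) {g : ℂ → ℍ → ℝ}
    (hg : ContinuousOn (Function.uncurry g) (U ×ˢ Set.univ)) :
    NK fun z w => κ (Dc z w) * g z w := by
  refine ⟨?_, fun z₀ hz₀ => ?_⟩
  · exact (hκ.cont.comp_continuousOn continuousOn_Dc).mul hg
  · have him : 0 < z₀.im := hz₀
    have hsub : Metric.closedBall z₀ (z₀.im / 2) ⊆ U := by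
      intro z hz
      have h1 : |z.im - z₀.im| ≤ z₀.im / 2 := by
        rw [← Complex.sub_im]
        exact (Complex.abs_im_le_norm _).trans (by simpa [dist_eq_norm] using hz)
      have := (abs_le.1 h1).1
      change 0 < z.im
      linarith
    have hcomp : IsCompact (ofComplex '' Metric.closedBall z₀ (z₀.im / 2)) := by
      refine (isCompact_closedBall _ _).image_of_continuousOn ?_
      refine ofComplex.continuousOn.mono ?_
      intro z hz
      have := hsub hz
      simpa [ofComplex, U] using this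
    obtain ⟨R, hR⟩ := hcomp.isBounded.subset_closedBall (ofComplex z₀)
    refine ⟨z₀.im / 2, by positivity, hsub, Metric.closedBall (ofComplex z₀) (R + √(2 * δ)),
      isCompact_closedBall _ _, fun z hz w hw => ?_⟩
    have h1 : δ ≤ Dc z w := by
      by_contra hcon
      rw [not_le, Dc_ofComplex (hsub hz)] at hcon
      apply hw
      have h2 : w ∈ disc δ (ofComplex z) := hcon.le
      have h3 := disc_subset _ _ h2
      have h4 := hR ⟨z, hz, rfl⟩
      rw [Metric.mem_closedBall] at h3 h4 ⊢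
      calc dist w (ofComplex z₀) ≤ dist w (ofComplex z) + dist (ofComplex z) (ofComplex z₀) :=
            dist_triangle _ _ _
        _ ≤ R + √(2 * δ) := by linarith
    simp only [hκ.supp _ h1, zero_mul]

/-- first and second `x`- and `y`-derivatives of `Dc` -/
def Dx (z : ℂ) (w : ℍ) : ℝ := (z.re - w.re) / (z.im * w.im)
def Dxx (z : ℂ) (w : ℍ) : ℝ := 1 / (z.im * w.im)
def Dy (z : ℂ) (w : ℍ) : ℝ := (z.im ^ 2 - w.im ^ 2 - (z.re - w.re) ^ 2) / (2 * z.im ^ 2 * w.im)
def Dyy (z : ℂ) (w : ℍ) : ℝ := ((z.re - w.re) ^ 2 + w.im ^ 2) / (z.im ^ 3 * w.im)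

theorem continuousOn_aux {f g : ℂ × ℍ → ℝ} (hf : Continuous f) (hg : Continuous g)
    (h : ∀ z ∈ U, ∀ w, g (z, w) ≠ 0) : ContinuousOn (fun p => f p / g p) (U ×ˢ Set.univ) :=
  hf.continuousOn.div hg.continuousOn fun p hp => h p.1 hp.1 p.2

theorem cont4 : Continuous (fun p : ℂ × ℍ => p.2.re) ∧ Continuous (fun p : ℂ × ℍ => p.2.im) ∧
    Continuous (fun p : ℂ × ℍ => p.1.re) ∧ Continuous (fun p : ℂ × ℍ => p.1.im) :=
  ⟨UpperHalfPlane.continuous_re.comp continuous_snd,
    UpperHalfPlane.continuous_im.comp continuous_snd,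
    Complex.continuous_re.comp continuous_fst, Complex.continuous_im.comp continuous_fst⟩

theorem continuousOn_Dx : ContinuousOn (Function.uncurry Dx) (U ×ˢ Set.univ) := by
  obtain ⟨h1, h2, h3, h4⟩ := cont4
  refine continuousOn_aux (f := fun p => p.1.re - p.2.re) (g := fun p => p.1.im * p.2.im)
    (by fun_prop) (by fun_prop) fun z hz w => ?_
  have : 0 < z.im := hz
  have := w.im_pos
  simp only; positivity

theorem continuousOn_Dxx : ContinuousOn (Function.uncurry Dxx) (U ×ˢ Set.univ) := by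
  obtain ⟨h1, h2, h3, h4⟩ := cont4
  refine continuousOn_aux (f := fun p => 1) (g := fun p => p.1.im * p.2.im)
    (by fun_prop) (by fun_prop) fun z hz w => ?_
  have : 0 < z.im := hz
  have := w.im_pos
  simp only; positivity

theorem continuousOn_Dy : ContinuousOn (Function.uncurry Dy) (U ×ˢ Set.univ) := by
  obtain ⟨h1, h2, h3, h4⟩ := cont4
  refine continuousOn_aux (f := fun p => p.1.im ^ 2 - p.2.im ^ 2 - (p.1.re - p.2.re) ^ 2)
    (g := fun p => 2 * p.1.im ^ 2 * p.2.im)
    (by fun_prop) (by fun_prop) fun z hz w => ?_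
  have : 0 < z.im := hz
  have := w.im_pos
  simp only; positivity

theorem continuousOn_Dyy : ContinuousOn (Function.uncurry Dyy) (U ×ˢ Set.univ) := by
  obtain ⟨h1, h2, h3, h4⟩ := cont4
  refine continuousOn_aux (f := fun p => (p.1.re - p.2.re) ^ 2 + p.2.im ^ 2)
    (g := fun p => p.1.im ^ 3 * p.2.im)
    (by fun_prop) (by fun_prop) fun z hz w => ?_
  have : 0 < z.im := hz
  have := w.im_pos
  simp only; positivity

theorem hasDerivAt_Dc_x {z : ℂ} (hz : z ∈ U) (w : ℍ) :
    HasDerivAt (fun t : ℝ => Dc (z + t * 1) w) (Dx z w) 0 := by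
  have h0 : 0 < z.im := hz
  have hw := w.im_pos
  have h1 : HasDerivAt (fun t : ℝ => ((z.re + t - w.re) ^ 2 + (z.im - w.im) ^ 2) /
      (2 * z.im * w.im)) (Dx z w) 0 := by
    have h2 : HasDerivAt (fun t : ℝ => z.re + t - w.re) 1 0 := by
      simpa using ((hasDerivAt_id (0 : ℝ)).const_add z.re).sub_const w.re
    have h3 := ((h2.pow 2).add_const ((z.im - w.im) ^ 2)).div_const (2 * z.im * w.im)
    refine h3.congr_deriv ?_
    unfold Dx
    simp
    field_simp
  refine h1.congr_of_eventuallyEq (Eventually.of_forall fun t => ?_)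
  simp [Dc]

theorem hasDerivAt_Dx_x {z : ℂ} (w : ℍ) :
    HasDerivAt (fun t : ℝ => Dx (z + t * 1) w) (Dxx z w) 0 := by
  have h1 : HasDerivAt (fun t : ℝ => (z.re + t - w.re) / (z.im * w.im)) (Dxx z w) 0 := by
    have h2 : HasDerivAt (fun t : ℝ => z.re + t - w.re) 1 0 := by
      simpa using ((hasDerivAt_id (0 : ℝ)).const_add z.re).sub_const w.re
    exact h2.div_const _
  refine h1.congr_of_eventuallyEq (Eventually.of_forall fun t => ?_)
  simp [Dx]

theorem hasDerivAt_Dc_y {z : ℂ} (hz : z ∈ U) (w : ℍ) :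
    HasDerivAt (fun t : ℝ => Dc (z + t * Complex.I) w) (Dy z w) 0 := by
  have h0 : 0 < z.im := hz
  have hw := w.im_pos
  have h1 : HasDerivAt (fun t : ℝ => ((z.re - w.re) ^ 2 + (z.im + t - w.im) ^ 2) /
      (2 * (z.im + t) * w.im)) (Dy z w) 0 := by
    have h2 : HasDerivAt (fun t : ℝ => z.im + t - w.im) 1 0 := by
      simpa using ((hasDerivAt_id (0 : ℝ)).const_add z.im).sub_const w.im
    have h2' : HasDerivAt (fun t : ℝ => 2 * (z.im + t) * w.im) (2 * w.im) 0 := by
      have := (((hasDerivAt_id (0 : ℝ)).const_add z.im).const_mul 2).mul_const w.im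
      simpa using this
    have h3 := ((h2.pow 2).const_add ((z.re - w.re) ^ 2)).div h2' (by simp; constructor <;> positivity)
    refine h3.congr_deriv ?_
    unfold Dy
    simp
    field_simp
    ring
  refine h1.congr_of_eventuallyEq (Eventually.of_forall fun t => ?_)
  simp [Dc]

theorem hasDerivAt_Dy_y {z : ℂ} (hz : z ∈ U) (w : ℍ) :
    HasDerivAt (fun t : ℝ => Dy (z + t * Complex.I) w) (Dyy z w) 0 := by
  have h0 : 0 < z.im := hz
  have hw := w.im_pos
  have h1 : HasDerivAt (fun t : ℝ => ((z.im + t) ^ 2 - w.im ^ 2 - (z.re - w.re) ^ 2) /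
      (2 * (z.im + t) ^ 2 * w.im)) (Dyy z w) 0 := by
    have h2 : HasDerivAt (fun t : ℝ => z.im + t) 1 0 := by
      simpa using ((hasDerivAt_id (0 : ℝ)).const_add z.im)
    have h3 := (((h2.pow 2).sub_const (w.im ^ 2)).sub_const ((z.re - w.re) ^ 2)).div
      (((h2.pow 2).const_mul 2).mul_const w.im) (by simp; constructor <;> positivity)
    refine h3.congr_deriv ?_
    unfold Dyy
    simp
    field_simp
    ring
  refine h1.congr_of_eventuallyEq (Eventually.of_forall fun t => ?_)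
  simp [Dy]

/-- smooth kernels supported in `(-∞, δ]` -/
structure SKer (δ : ℝ) (κ : ℝ → ℝ) : Prop where
  smooth : ContDiff ℝ ∞ κ
  supp : ∀ t, δ ≤ t → κ t = 0

theorem SKer.isKer {δ : ℝ} {κ : ℝ → ℝ} (h : SKer δ κ) : IsKer δ κ := ⟨h.smooth.continuous, h.supp⟩

theorem SKer.deriv {δ : ℝ} {κ : ℝ → ℝ} (h : SKer δ κ) : SKer δ (deriv κ) := by
  have hs : ContDiff ℝ ∞ (_root_.deriv κ) := (contDiff_infty_iff_deriv.1 h.smooth).2
  refine ⟨hs, fun t ht => ?_⟩
  have h1 : ∀ t, δ < t → _root_.deriv κ t = 0 := by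
    intro t ht
    have : κ =ᶠ[𝓝 t] fun _ => 0 := by
      filter_upwards [lt_mem_nhds ht] with u hu using h.supp u hu.le
    rw [this.deriv_eq, deriv_const]
  rcases ht.lt_or_eq with h2 | h2
  · exact h1 t h2
  · subst h2
    have h3 : Tendsto (_root_.deriv κ) (𝓝[>] δ) (𝓝 (_root_.deriv κ δ)) :=
      hs.continuous.continuousAt.tendsto.mono_left nhdsWithin_le_nhds
    have h4 : Tendsto (_root_.deriv κ) (𝓝[>] δ) (𝓝 0) := by
      refine tendsto_const_nhds.congr' ?_
      filter_upwards [self_mem_nhdsWithin] with u hu using (h1 u hu).symm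
    exact tendsto_nhds_unique h3 h4

theorem SKer.hasDerivAt {δ : ℝ} {κ : ℝ → ℝ} (h : SKer δ κ) (t : ℝ) :
    HasDerivAt κ (_root_.deriv κ t) t :=
  (h.smooth.differentiable (by simp) t).hasDerivAt

/-- the kernel of the Laplacian applied to the operator with kernel `κ` -/
def sharp (κ : ℝ → ℝ) (t : ℝ) : ℝ :=
  t * (t + 2) * deriv (deriv κ) t + 2 * (t + 1) * deriv κ t

theorem SKer.sharp {δ : ℝ} {κ : ℝ → ℝ} (h : SKer δ κ) : SKer δ (sharp κ) := by
  refine ⟨?_, fun t ht => ?_⟩
  · unfold Hyp.sharp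
    have h1 := h.deriv.smooth
    have h2 := h.deriv.deriv.smooth
    fun_prop
  · unfold Hyp.sharp
    rw [h.deriv.supp t ht, h.deriv.deriv.supp t ht]; ring

section derivs

variable {δ : ℝ} {κ : ℝ → ℝ} (hκ : SKer δ κ)

include hκ

theorem nk0 : NK fun z w => κ (Dc z w) := by
  have := NK_of hκ.isKer (g := fun _ _ => 1) continuousOn_const
  simpa using this

theorem nkx : NK fun z w => deriv κ (Dc z w) * Dx z w := NK_of hκ.deriv.isKer continuousOn_Dx

theorem nky : NK fun z w => deriv κ (Dc z w) * Dy z w := NK_of hκ.deriv.isKer continuousOn_Dy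

omit hκ in
theorem NK.add {k k' : ℂ → ℍ → ℝ} (h : NK k) (h' : NK k') : NK fun z w => k z w + k' z w := by
  refine ⟨h.cont.add h'.cont, fun z₀ hz₀ => ?_⟩
  obtain ⟨r, hr, hrU, L, hL, hLk⟩ := h.supp z₀ hz₀
  obtain ⟨r', hr', hrU', L', hL', hLk'⟩ := h'.supp z₀ hz₀
  refine ⟨min r r', lt_min hr hr', (Metric.closedBall_subset_closedBall (min_le_left _ _)).trans hrU,
    L ∪ L', hL.union hL', fun z hz w hw => ?_⟩
  rw [hLk z (Metric.closedBall_subset_closedBall (min_le_left _ _) hz) w (fun h => hw (Or.inl h)),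
    hLk' z (Metric.closedBall_subset_closedBall (min_le_right _ _) hz) w (fun h => hw (Or.inr h)),
    add_zero]

theorem nkxx : NK fun z w => deriv (deriv κ) (Dc z w) * Dx z w ^ 2 + deriv κ (Dc z w) * Dxx z w :=
  NK.add (NK_of hκ.deriv.deriv.isKer (continuousOn_Dx.pow 2))
    (NK_of hκ.deriv.isKer continuousOn_Dxx)

theorem nkyy : NK fun z w => deriv (deriv κ) (Dc z w) * Dy z w ^ 2 + deriv κ (Dc z w) * Dyy z w :=
  NK.add (NK_of hκ.deriv.deriv.isKer (continuousOn_Dy.pow 2))
    (NK_of hκ.deriv.isKer continuousOn_Dyy)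

theorem hd_x (z : ℂ) (hz : z ∈ U) (w : ℍ) : HasDerivAt (fun t : ℝ => κ (Dc (z + t * 1) w))
    (deriv κ (Dc z w) * Dx z w) 0 := by
  have h1 := hasDerivAt_Dc_x hz w
  have h2 : HasDerivAt κ (deriv κ (Dc z w)) (Dc (z + ((0 : ℝ) : ℂ) * 1) w) := by
    simpa using hκ.hasDerivAt (Dc z w)
  exact h2.comp 0 h1

theorem hd_y (z : ℂ) (hz : z ∈ U) (w : ℍ) :
    HasDerivAt (fun t : ℝ => κ (Dc (z + t * Complex.I) w)) (deriv κ (Dc z w) * Dy z w) 0 := by
  have h1 := hasDerivAt_Dc_y hz w
  have h2 : HasDerivAt κ (deriv κ (Dc z w)) (Dc (z + ((0 : ℝ) : ℂ) * Complex.I) w) := by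
    simpa using hκ.hasDerivAt (Dc z w)
  exact h2.comp 0 h1

theorem hd_xx (z : ℂ) (hz : z ∈ U) (w : ℍ) :
    HasDerivAt (fun t : ℝ => deriv κ (Dc (z + t * 1) w) * Dx (z + t * 1) w)
    (deriv (deriv κ) (Dc z w) * Dx z w ^ 2 + deriv κ (Dc z w) * Dxx z w) 0 := by
  have h1 := hd_x hκ.deriv z hz w
  have h2 := h1.mul (hasDerivAt_Dx_x (z := z) w)
  refine h2.congr_deriv ?_
  simp; ring

theorem hd_yy (z : ℂ) (hz : z ∈ U) (w : ℍ) :
    HasDerivAt (fun t : ℝ => deriv κ (Dc (z + t * Complex.I) w) * Dy (z + t * Complex.I) w)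
    (deriv (deriv κ) (Dc z w) * Dy z w ^ 2 + deriv κ (Dc z w) * Dyy z w) 0 := by
  have h1 := hd_y hκ.deriv z hz w
  have h2 := h1.mul (hasDerivAt_Dy_y hz w)
  refine h2.congr_deriv ?_
  simp; ring

omit hκ in
theorem sharp_identity {z : ℂ} (hz : z ∈ U) (w : ℍ) :
    z.im ^ 2 * ((deriv (deriv κ) (Dc z w) * Dx z w ^ 2 + deriv κ (Dc z w) * Dxx z w) +
      (deriv (deriv κ) (Dc z w) * Dy z w ^ 2 + deriv κ (Dc z w) * Dyy z w)) =
      sharp κ (Dc z w) := by
  have h0 : 0 < z.im := hz
  have hw := w.im_pos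
  have e1 : z.im ^ 2 * (Dx z w ^ 2 + Dy z w ^ 2) = Dc z w * (Dc z w + 2) := by
    unfold Dx Dy Dc
    field_simp
    ring
  have e2 : z.im ^ 2 * (Dxx z w + Dyy z w) = 2 * (Dc z w + 1) := by
    unfold Dxx Dyy Dc
    field_simp
    ring
  unfold sharp
  rw [← e1, ← e2]
  ring

end derivs

/-- `C²` data for a function on the upper half plane with given hyperbolic Laplacian `G` -/
structure HasLap (F G : ℂ → ℂ) (Fx Fy Fxx Fyy : ℂ → ℂ) : Prop where
  cx : ContinuousOn Fx U
  cy : ContinuousOn Fy U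
  cxx : ContinuousOn Fxx U
  cyy : ContinuousOn Fyy U
  dx : ∀ z ∈ U, HasDerivAt (fun t : ℝ => F (z + t * 1)) (Fx z) 0
  dy : ∀ z ∈ U, HasDerivAt (fun t : ℝ => F (z + t * Complex.I)) (Fy z) 0
  dxx : ∀ z ∈ U, HasDerivAt (fun t : ℝ => Fx (z + t * 1)) (Fxx z) 0
  dyy : ∀ z ∈ U, HasDerivAt (fun t : ℝ => Fy (z + t * Complex.I)) (Fyy z) 0
  lap : ∀ z ∈ U, (z.im : ℂ) ^ 2 * (Fxx z + Fyy z) = G z

include hφ hM in
theorem op_hasLap {δ : ℝ} {κ : ℝ → ℝ} (hκ : SKer δ κ) :
    HasLap (iop (fun z w => κ (Dc z w)) φ) (iop (fun z w => sharp κ (Dc z w)) φ)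
      (iop (fun z w => deriv κ (Dc z w) * Dx z w) φ) (iop (fun z w => deriv κ (Dc z w) * Dy z w) φ)
      (iop (fun z w => deriv (deriv κ) (Dc z w) * Dx z w ^ 2 + deriv κ (Dc z w) * Dxx z w) φ)
      (iop (fun z w => deriv (deriv κ) (Dc z w) * Dy z w ^ 2 + deriv κ (Dc z w) * Dyy z w) φ) where
  cx := (nkx hκ).continuousOn hφ hM
  cy := (nky hκ).continuousOn hφ hM
  cxx := (nkxx hκ).continuousOn hφ hM
  cyy := (nkyy hκ).continuousOn hφ hM
  dx z hz := (nk0 hκ).hasDerivAt hφ hM (nkx hκ) (fun z hz w => hd_x hκ z hz w) hz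
  dy z hz := (nk0 hκ).hasDerivAt hφ hM (nky hκ) (fun z hz w => hd_y hκ z hz w) hz
  dxx z hz := (nkx hκ).hasDerivAt hφ hM (nkxx hκ) (fun z hz w => hd_xx hκ z hz w) hz
  dyy z hz := (nky hκ).hasDerivAt hφ hM (nkyy hκ) (fun z hz w => hd_yy hκ z hz w) hz
  lap z hz := by
    unfold iop
    rw [← integral_add ((nkxx hκ).integrable hφ hM hz) ((nkyy hκ).integrable hφ hM hz),
      ← integral_const_mul]
    congr 1
    ext w
    simp only
    rw [← sharp_identity (κ := κ) hz w]
    push_cast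
    ring

theorem iop_eq_op (κ : ℝ → ℝ) (φ : ℍ → ℂ) {z : ℂ} (hz : z ∈ U) :
    iop (fun z w => κ (Dc z w)) φ z = op κ φ (ofComplex z) := by
  unfold iop op
  simp only [Dc_ofComplex hz]

/-! ### Smoothness -/

/-- logarithmic coordinates -/
def eLog (w : ℍ) : ℂ := w.re + Real.log w.im * Complex.I

/-- the inverse of `eLog` -/
def eExp (g : ℂ) : ℍ := ⟨(g.re : ℂ) + ((Real.exp g.im : ℝ) : ℂ) * Complex.I, by
  rw [Complex.add_im, Complex.ofReal_im, Complex.im_ofReal_mul, zero_add, Complex.I_im, mul_one]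
  exact Real.exp_pos _⟩

theorem eExp_re (g : ℂ) : (eExp g).re = g.re := by
  change ((g.re : ℂ) + ((Real.exp g.im : ℝ) : ℂ) * Complex.I).re = _
  simp [-Complex.ofReal_exp]

theorem eExp_im (g : ℂ) : (eExp g).im = Real.exp g.im := by
  change ((g.re : ℂ) + ((Real.exp g.im : ℝ) : ℂ) * Complex.I).im = _
  simp [-Complex.ofReal_exp]

theorem eExp_eLog (w : ℍ) : eExp (eLog w) = w := by
  apply UpperHalfPlane.ext
  apply Complex.ext
  · change (eExp (eLog w)).re = w.re
    rw [eExp_re]; simp [eLog]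
  · change (eExp (eLog w)).im = w.im
    rw [eExp_im]; simp [eLog, Real.exp_log w.im_pos]

theorem continuous_eLog : Continuous eLog := by
  unfold eLog
  have h1 : Continuous fun w : ℍ => w.re := UpperHalfPlane.continuous_re
  have h2 : Continuous fun w : ℍ => Real.log w.im :=
    UpperHalfPlane.continuous_im.log fun w => w.im_ne_zero
  fun_prop

theorem continuous_eExp : Continuous eExp := by
  rw [UpperHalfPlane.isEmbedding_coe.continuous_iff]
  have : (UpperHalfPlane.coe ∘ eExp) = fun g : ℂ => ((g.re : ℂ) + ((Real.exp g.im : ℝ) : ℂ) * Complex.I : ℂ) := rfl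
  rw [this]
  fun_prop

include hφ hM in
theorem contDiffOn_iop {δ : ℝ} {κ : ℝ → ℝ} (hκ : SKer δ κ) :
    ContDiffOn ℝ ∞ (iop (fun z w => κ (Dc z w)) φ) U := by
  intro z₀ hz₀
  obtain ⟨r, hr, hrU, L, hL, hLk⟩ := (nk0 hκ).supp z₀ hz₀
  set μ' : Measure ℂ := Measure.map eLog (volume : Measure ℍ) with hμ'
  have : IsFiniteMeasureOnCompacts μ' := by
    refine ⟨fun K hK => ?_⟩
    rw [hμ', Measure.map_apply continuous_eLog.measurable hK.measurableSet]
    have h1 : eLog ⁻¹' K ⊆ eExp '' K := fun w hw => ⟨eLog w, hw, eExp_eLog w⟩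
    exact (measure_mono h1).trans_lt (hK.image continuous_eExp).measure_lt_top
  have hφe : Measurable fun g => φ (eExp g) := hφ.comp continuous_eExp.measurable
  have hloc : LocallyIntegrable (fun g => φ (eExp g)) μ' := by
    rw [locallyIntegrable_iff]
    intro K hK
    exact Measure.integrableOn_of_bounded (M := M) hK.measure_lt_top.ne
      hφe.aestronglyMeasurable (Eventually.of_forall fun g => hM _)
  have hconv : ContDiffOn ℝ ∞ (fun z : ℂ => convolution (fun g => φ (eExp g)) (fun x => κ (Dc z (eExp (-x))))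
      (ContinuousLinearMap.lsmul ℝ ℝ (E := ℂ)).flip μ' 0)
      (Metric.ball z₀ r) := by
    have hsm : ContDiffOn ℝ ∞ (↿fun (z x : ℂ) => κ (Dc z (eExp (-x))))
        (Metric.ball z₀ r ×ˢ Set.univ) := by
      have e1 : (↿fun (z x : ℂ) => κ (Dc z (eExp (-x)))) = fun p : ℂ × ℂ =>
          κ (((p.1.re + p.2.re) ^ 2 + (p.1.im - Real.exp (-p.2.im)) ^ 2) /
            (2 * p.1.im * Real.exp (-p.2.im))) := by
        ext p
        simp only [Function.HasUncurry.uncurry, id, Dc, eExp_re, eExp_im, Complex.neg_re,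
          Complex.neg_im, sub_neg_eq_add]
      rw [e1]
      have r1 : ContDiff ℝ ∞ fun p : ℂ × ℂ => p.1.re :=
        Complex.reCLM.contDiff.comp contDiff_fst
      have r2 : ContDiff ℝ ∞ fun p : ℂ × ℂ => p.2.re :=
        Complex.reCLM.contDiff.comp contDiff_snd
      have i1 : ContDiff ℝ ∞ fun p : ℂ × ℂ => p.1.im :=
        Complex.imCLM.contDiff.comp contDiff_fst
      have i2 : ContDiff ℝ ∞ fun p : ℂ × ℂ => p.2.im :=
        Complex.imCLM.contDiff.comp contDiff_snd
      refine hκ.smooth.comp_contDiffOn (ContDiffOn.div ?_ ?_ ?_)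
      · exact (((r1.add r2).pow 2).add ((i1.sub (i2.neg.exp)).pow 2)).contDiffOn
      · exact ((contDiff_const.mul i1).mul i2.neg.exp).contDiffOn
      · rintro ⟨z, x⟩ ⟨hz, -⟩
        have h0 : 0 < z.im := hrU (Metric.ball_subset_closedBall hz)
        simp only
        positivity
    refine contDiffOn_convolution_right_with_param_comp (n := ⊤) (s := Metric.ball z₀ r)
      (v := fun _ => (0 : ℂ)) (k := (fun w => - eLog w) '' L)
      ((ContinuousLinearMap.lsmul ℝ ℝ (E := ℂ)).flip) contDiffOn_const Metric.isOpen_ball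
      (hL.image continuous_eLog.neg) ?_ hloc hsm
    intro z x hz hx
    refine hLk z (Metric.ball_subset_closedBall hz) _ fun hcon => hx ⟨_, hcon, ?_⟩
    simp only
    have h5 : eLog (eExp (-x)) = -x := by
      unfold eLog
      rw [eExp_re, eExp_im, Real.log_exp]
      exact Complex.re_add_im (-x)
    rw [h5, neg_neg]
  have heq : ∀ z ∈ U, convolution (fun g => φ (eExp g)) (fun x => κ (Dc z (eExp (-x))))
      (ContinuousLinearMap.lsmul ℝ ℝ (E := ℂ)).flip μ' 0 =
      iop (fun z w => κ (Dc z w)) φ z := by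
    intro z hz
    unfold convolution iop
    rw [hμ', integral_map continuous_eLog.measurable.aemeasurable]
    · congr 1
      ext w
      simp only [zero_sub, neg_neg, eExp_eLog, ContinuousLinearMap.flip_apply,
        ContinuousLinearMap.lsmul_apply, Complex.real_smul]
    · have hc : Continuous fun g : ℂ => Dc z (eExp g) := by
        have h1 : Continuous fun g : ℂ => (eExp g).re := UpperHalfPlane.continuous_re.comp continuous_eExp
        have h2 : Continuous fun g : ℂ => (eExp g).im := UpperHalfPlane.continuous_im.comp continuous_eExp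
        unfold Dc
        refine Continuous.div (by fun_prop) (by fun_prop) fun g => ?_
        have h0 : 0 < z.im := hz
        have := (eExp g).im_pos
        positivity
      have : Measurable fun g : ℂ => κ (Dc z (eExp g)) • φ (eExp g) :=
        ((hκ.smooth.continuous.comp hc).measurable).smul hφe
      simpa using this.aestronglyMeasurable
  have hfin := hconv.congr (fun z hz => (heq z (hrU (Metric.ball_subset_closedBall hz))).symm)
  exact (hfin.contDiffAt (Metric.ball_mem_nhds z₀ hr)).contDiffWithinAt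

end Pool.Agent.Q18.Hyp
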