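import Pool.Agent.Q18.Unfold
import Pool.Agent.Q18.CompactKernel
import Pool.Agent.Q18.Smooth

/-!
# Existence of an odd bounded automorphic eigenfunction of a point-pair invariant
-/

set_option autoImplicit false

open MeasureTheory Filter Topology UpperHalfPlane
open scoped ENNReal MatrixGroups Pointwise ContDiff

noncomputable section

namespace Pool.Agent.Q18.Hyp

variable {δ : ℝ} {κ : ℝ → ℝ}

/-- the bump function -/
def bump : ContDiffBump (0 : ℝ) where
  rIn := 1 / 200
  rOut := 1 / 100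
  rIn_pos := by norm_num
  rIn_lt_rOut := by norm_num

/-- the kernel -/
def kap (t : ℝ) : ℝ := bump t

theorem kap_nonneg (t : ℝ) : 0 ≤ kap t := bump.nonneg

theorem kap_zero : kap 0 = 1 := bump.one_of_mem_closedBall (by simp [bump])

theorem kap_ker : SKer (1 / 100) kap where
  smooth := bump.contDiff
  supp t ht := by
    refine bump.zero_of_le_dist ?_
    rw [Real.dist_eq, sub_zero]
    exact ht.trans (le_abs_self t)

theorem kap_lip : ∃ L : ℝ, 0 ≤ L ∧ ∀ s t, 0 ≤ s → 0 ≤ t → |kap s - kap t| ≤ L * |s - t| := by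
  obtain ⟨C, hC⟩ := ContDiff.lipschitzWith_of_hasCompactSupport (𝕂 := ℝ) (f := kap) (n := ∞)
    bump.hasCompactSupport bump.contDiff (by simp)
  refine ⟨C, C.2, fun s t _ _ => ?_⟩
  have := hC.dist_le_mul s t
  rwa [Real.dist_eq, Real.dist_eq] at this

theorem kap_bound : ∃ C, ∀ z w, |K kap z w| ≤ C := by
  obtain ⟨L, hL0, hL⟩ := kap_lip
  exact K_bound kap_ker.isKer (by norm_num) (by norm_num) hL0 hL

/-- base point -/
def z0 : ℍ := ⟨1 / 4 + 2 * Complex.I, by simp⟩

theorem z0_re : z0.re = 1 / 4 := by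
  show (1 / 4 + 2 * Complex.I : ℂ).re = 1 / 4
  norm_num

theorem z0_im : z0.im = 2 := by
  show (1 / 4 + 2 * Complex.I : ℂ).im = 2
  norm_num

theorem z0_mem : z0 ∈ (ModularGroup.fdo : Set ℍ) := by
  constructor
  · rw [Complex.normSq_apply]
    show 1 < z0.re * z0.re + z0.im * z0.im
    rw [z0_re, z0_im]; norm_num
  · rw [z0_re]; norm_num [abs_of_pos]

theorem K_pos : 0 < K kap z0 z0 := by
  have h1 : 1 ≤ K0 kap z0 z0 := by
    unfold K0
    refine le_trans ?_ ((summable_K0 kap_ker.isKer z0 z0).le_tsum (1 : SL(2, ℤ))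
      fun γ _ => kap_nonneg _)
    rw [one_smul, D_self, kap_zero]
  have h2 : K0 kap z0 (J • z0) = 0 := by
    unfold K0
    rw [← tsum_zero (β := SL(2, ℤ))]
    congr 1
    ext γ
    apply kap_ker.supp
    by_contra hcon
    rw [not_le] at hcon
    have h3 := D_lt hcon
    have hV := (γ • J • z0).im_pos
    obtain ⟨-, -, e3⟩ := smul_eqs γ (J • z0)
    rw [J_im, J_re, z0_re, z0_im] at e3
    by_cases hc : γ 1 0 = 0
    · obtain ⟨-, h4, h5⟩ := smul_of_c_zero hc (J • z0)
      rw [h4, h5, J_re, J_im, z0_re, z0_im] at h3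
      set m : ℤ := γ 0 0 * γ 0 1
      have h6 : ((1 : ℝ) / 2 - m) ^ 2 < 1 / 10 := by nlinarith
      have h7 : (m : ℝ) < 1 := by nlinarith
      have h8 : (0 : ℝ) < m := by nlinarith
      have h9 : m < 1 := by exact_mod_cast h7
      have h10 : 0 < m := by exact_mod_cast h8
      omega
    · have hc2 : (1 : ℝ) ≤ ((γ 1 0 : ℤ) : ℝ) ^ 2 := by
        have : (1 : ℤ) ≤ (γ 1 0) ^ 2 := by
          have := Int.one_le_abs hc
          nlinarith [sq_abs (γ 1 0), abs_nonneg (γ 1 0)]
        exact_mod_cast this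
      have h4 : (γ • J • z0).im ≤ 1 / 2 := by
        nlinarith [mul_nonneg hV.le (sq_nonneg (((γ 1 0 : ℤ) : ℝ) * -(1 / 4) + (γ 1 1 : ℤ)))]
      rw [z0_im] at h3
      nlinarith [sq_nonneg (z0.re - (γ • J • z0).re)]
  unfold K
  rw [h2, sub_zero]
  linarith

theorem volume_open_pos {V : Set ℍ} (hV : IsOpen V) (hne : V.Nonempty) : 0 < volume V := by
  have hopen : IsOpen ((↑) '' V : Set ℂ) := isOpenEmbedding_coe.isOpenMap _ hV
  rw [volume_eq_lintegral, setLIntegral_pos_iff (by fun_prop)]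
  refine (hopen.measure_pos volume (hne.image _)).trans_le (measure_mono ?_)
  rintro _ ⟨z, hz, rfl⟩
  refine ⟨?_, ⟨z, hz, rfl⟩⟩
  have h : ‖(z : ℂ).im‖₊ ≠ 0 := nnnorm_ne_zero_iff.2 z.im_ne_zero
  rw [Function.mem_support]
  have : (1 / ‖(z : ℂ).im‖₊) ^ 2 ≠ 0 := by positivity
  exact_mod_cast this

theorem nu_open_pos {V : Set ℍ} (hV : IsOpen V) (hne : V.Nonempty)
    (hsub : V ⊆ (ModularGroup.fd : Set ℍ)) : 0 < nu V := by
  unfold nu
  rw [withDensity_apply _ hV.measurableSet, setLIntegral_pos_iff measurable_rho]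
  refine (volume_open_pos hV hne).trans_le (measure_mono fun z hz => ⟨?_, hz⟩)
  rw [Function.mem_support, rho, Set.indicator_of_mem (hsub hz)]
  exact ENNReal.inv_ne_zero.2 (Nf_ne_top z)

/-- The space of odd bounded automorphic eigenfunctions. -/
def V (κ : ℝ → ℝ) (hκ : ∃ δ, IsKer δ κ) (μ : ℂ) : Submodule ℂ (ℍ → ℂ) where
  carrier := {φ | Measurable φ ∧ (∃ M, ∀ w, ‖φ w‖ ≤ M) ∧ (∀ (γ : SL(2, ℤ)) w, φ (γ • w) = φ w) ∧
    (∀ w, φ (J • w) = - φ w) ∧ ∀ z, op κ φ z = μ * φ z}
  add_mem' := by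
    rintro a b ⟨ha1, ⟨Ma, ha2⟩, ha3, ha4, ha5⟩ ⟨hb1, ⟨Mb, hb2⟩, hb3, hb4, hb5⟩
    obtain ⟨δ, hκ⟩ := hκ
    refine ⟨ha1.add hb1, ⟨Ma + Mb, fun w => ?_⟩, fun γ w => ?_, fun w => ?_, fun z => ?_⟩
    · exact (norm_add_le _ _).trans (add_le_add (ha2 w) (hb2 w))
    · simp only [Pi.add_apply, ha3, hb3]
    · simp only [Pi.add_apply, ha4, hb4]; ring
    · have := op_add hκ ha1 hb1 ha2 hb2 z
      show op κ (fun w => a w + b w) z = μ * (a z + b z)
      rw [this, ha5, hb5]; ring
  zero_mem' := by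
    refine ⟨measurable_const, ⟨0, fun w => by simp⟩, fun γ w => rfl, fun w => by simp, fun z => ?_⟩
    unfold op
    simp
  smul_mem' := by
    rintro c a ⟨ha1, ⟨Ma, ha2⟩, ha3, ha4, ha5⟩
    refine ⟨ha1.const_smul c, ⟨‖c‖ * Ma, fun w => ?_⟩, fun γ w => ?_, fun w => ?_, fun z => ?_⟩
    · rw [Pi.smul_apply, smul_eq_mul, norm_mul]
      exact mul_le_mul_of_nonneg_left (ha2 w) (norm_nonneg _)
    · simp only [Pi.smul_apply, ha3]
    · simp only [Pi.smul_apply, ha4]; simp
    · have := op_const_mul κ c a z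
      show op κ (fun w => c * a w) z = μ * (c * a z)
      rw [this, ha5]; ring

theorem exists_eigen : ∃ μ : ℂ, μ ≠ 0 ∧ V kap ⟨_, kap_ker.isKer⟩ μ ≠ ⊥ ∧
    FiniteDimensional ℂ (V kap ⟨_, kap_ker.isKer⟩ μ) := by
  obtain ⟨C, hC⟩ := kap_bound
  have hcont := continuous_K kap_ker.isKer
  obtain ⟨T, hTc, hTs, hT⟩ := CompactKernel.exists_operator (ν := nu) hcont hC
    (fun x y => K_comm x y)
  have hC0 : 0 ≤ C := (abs_nonneg _).trans (hC z0 z0)
  -- T is nonzero
  have hT0 : T ≠ 0 := by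
    intro h0
    set W : Set (ℍ × ℍ) := {p | 0 < K kap p.1 p.2} with hW
    have hWo : IsOpen W := isOpen_lt continuous_const hcont
    have hWz : (z0, z0) ∈ W := K_pos
    obtain ⟨A, B, hA, hB, hzA, hzB, hAB⟩ := isOpen_prod_iff.1 hWo z0 z0 hWz
    set O : Set ℍ := A ∩ B ∩ ModularGroup.fdo with hO
    have hOo : IsOpen O := (hA.inter hB).inter ModularGroup.isOpen_fdo
    have hOn : z0 ∈ O := ⟨⟨hzA, hzB⟩, z0_mem⟩
    have hOpos : 0 < nu O := nu_open_pos hOo ⟨_, hOn⟩
      (fun z hz => ModularGroup.fdo_subset_fd hz.2)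
    set f : Lp ℂ 2 nu := indicatorConstLp 2 hOo.measurableSet (measure_ne_top nu O) (1 : ℂ) with hf
    have h1 := hT f
    rw [h0] at h1
    have h2 : ∀ᵐ x ∂nu, ∫ y, (K kap x y : ℂ) * f y ∂nu = 0 := by
      filter_upwards [h1, Lp.coeFn_zero ℂ 2 nu] with x hx hx0
      rw [← hx]
      simpa using hx0
    have h3 : ∀ x ∈ O, ∫ y, (K kap x y : ℂ) * f y ∂nu ≠ 0 := by
      intro x hx
      have e : ∫ y, (K kap x y : ℂ) * f y ∂nu = ((∫ y in O, K kap x y ∂nu : ℝ) : ℂ) := by
        rw [← integral_indicator hOo.measurableSet, ← integral_complex_ofReal]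
        refine integral_congr_ae ?_
        filter_upwards [indicatorConstLp_coeFn (p := 2) (hs := hOo.measurableSet)
          (hμs := measure_ne_top nu O) (c := (1 : ℂ))] with y hy
        rw [hf, hy]
        by_cases h : y ∈ O
        · rw [Set.indicator_of_mem h, Set.indicator_of_mem h]; simp
        · rw [Set.indicator_of_notMem h, Set.indicator_of_notMem h]; simp
      rw [e]
      have hpos : 0 < ∫ y in O, K kap x y ∂nu := by
        rw [setIntegral_pos_iff_support_of_nonneg_ae]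
        · refine hOpos.trans_le (measure_mono fun y hy => ⟨?_, hy⟩)
          exact (hAB (Set.mk_mem_prod hx.1.1 hy.1.2) : (x, y) ∈ W).ne'
        · rw [EventuallyLE, ae_restrict_iff' hOo.measurableSet]
          refine Eventually.of_forall fun y hy => ?_
          exact (hAB (Set.mk_mem_prod hx.1.1 hy.1.2) : (x, y) ∈ W).le
        · refine Measure.integrableOn_of_bounded (M := C) (measure_ne_top nu O) ?_
            (Eventually.of_forall fun y => by simpa using hC x y)
          exact (hcont.comp (by fun_prop : Continuous fun y : ℍ => (x, y))).aestronglyMeasurable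
      exact_mod_cast hpos.ne'
    have h4 : nu O = 0 := by
      refine measure_mono_null (fun x hx => ?_) h2
      exact h3 x hx
    exact hOpos.ne' h4
  have h5 : ∃ μ, Module.End.HasEigenvalue (T : Module.End ℂ (Lp ℂ 2 nu)) μ ∧ μ ≠ 0 := by
    by_contra hcon
    push Not at hcon
    exact hT0 ((ContinuousLinearMap.eq_zero_of_forall_hasEigenvalue_eq_zero hTc hTs).1 hcon)
  obtain ⟨μ, hμ, hμ0⟩ := h5
  obtain ⟨f, hf⟩ := hμ.exists_hasEigenvector
  have hfeq : T f = μ • f := hf.apply_eq_smul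
  have hf0 : f ≠ 0 := hf.2
  refine ⟨μ / 2, by simpa using hμ0, ?_, ?_⟩
  · -- nontriviality
    set g : ℍ → ℂ := fun z => μ⁻¹ * ∫ y, (K kap z y : ℂ) * f y ∂nu with hg
    have hfint : Integrable f nu := (Lp.memLp f).integrable (by norm_num)
    have hae : f =ᵐ[nu] g := by
      have h1 := hT f
      rw [hfeq] at h1
      filter_upwards [h1, Lp.coeFn_smul μ f] with x hx hx'
      rw [hg]
      simp only
      rw [← hx, hx', Pi.smul_apply, smul_eq_mul, inv_mul_cancel_left₀ hμ0]
    have hgK : ∀ z, g z = μ⁻¹ * ∫ y, (K kap z y : ℂ) * g y ∂nu := by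
      intro z
      rw [hg]
      simp only
      congr 1
      refine integral_congr_ae ?_
      filter_upwards [hae] with y hy
      rw [hy]
    have hgm : Measurable g := by
      rw [hg]
      refine Measurable.const_mul ?_ _
      have h1 : StronglyMeasurable (Function.uncurry fun z y => (K kap z y : ℂ) * f y) :=
        (Complex.continuous_ofReal.comp hcont).stronglyMeasurable.mul
          ((Lp.stronglyMeasurable f).comp_measurable measurable_snd)
      exact (h1.integral_prod_right (ν := nu)).measurable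
    have hgb : ∀ z, ‖g z‖ ≤ ‖μ⁻¹‖ * (C * ∫ y, ‖f y‖ ∂nu) := by
      intro z
      rw [hg]
      simp only
      rw [norm_mul]
      refine mul_le_mul_of_nonneg_left ?_ (norm_nonneg _)
      refine (norm_integral_le_integral_norm _).trans ?_
      rw [← integral_const_mul]
      refine integral_mono_of_nonneg (Eventually.of_forall fun y => norm_nonneg _)
        (hfint.norm.const_mul _) (Eventually.of_forall fun y => ?_)
      simp only [norm_mul, Complex.norm_real]
      exact mul_le_mul_of_nonneg_right (hC z y) (norm_nonneg _)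
    have hginv : ∀ (γ : SL(2, ℤ)) w, g (γ • w) = g w := by
      intro γ w
      simp only [hg, K_smul_left]
    have hgodd : ∀ w, g (J • w) = - g w := by
      intro w
      simp only [hg, K_J_left]
      push_cast
      simp only [neg_mul, integral_neg, mul_neg]
    have hgmem : g ∈ V kap ⟨_, kap_ker.isKer⟩ (μ / 2) := by
      refine ⟨hgm, ⟨_, hgb⟩, hginv, hgodd, fun z => ?_⟩
      have h1 := unfold_K kap_ker.isKer hgm hgb hginv hgodd ⟨C, hC⟩ z
      have h2 := hgK z
      rw [h1] at h2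
      rw [h2]
      field_simp
    intro hbot
    rw [hbot, Submodule.mem_bot] at hgmem
    apply hf0
    rw [Lp.eq_zero_iff_ae_eq_zero]
    filter_upwards [hae] with x hx
    rw [hx, hgmem]
  · -- finite dimension
    have hmem : ∀ φ ∈ V kap ⟨_, kap_ker.isKer⟩ (μ / 2), MemLp φ 2 nu := by
      rintro φ ⟨h1, ⟨M, h2⟩, -⟩
      exact MemLp.of_bound h1.aestronglyMeasurable M (Eventually.of_forall h2)
    let L : V kap ⟨_, kap_ker.isKer⟩ (μ / 2) →ₗ[ℂ] Lp ℂ 2 nu :=
      { toFun := fun φ => (hmem φ.1 φ.2).toLp _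
        map_add' := fun a b => by
          rw [← MemLp.toLp_add]; rfl
        map_smul' := fun c a => by
          rw [RingHom.id_apply, ← MemLp.toLp_const_smul]; rfl }
    have hL : ∀ φ, L φ ∈ Module.End.eigenspace T.toLinearMap μ := by
      intro φ
      rw [Module.End.mem_eigenspace_iff]
      show T (L φ) = μ • L φ
      apply Lp.ext
      obtain ⟨h1, ⟨M, h2⟩, h3, h4, h5⟩ := φ.2
      filter_upwards [hT (L φ), Lp.coeFn_smul μ (L φ), MemLp.coeFn_toLp (hmem φ.1 φ.2)] with x hx1 hx2 hx3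
      rw [hx1, hx2, Pi.smul_apply]
      have e1 : ∫ y, (K kap x y : ℂ) * (L φ) y ∂nu = ∫ y, (K kap x y : ℂ) * φ.1 y ∂nu := by
        refine integral_congr_ae ?_
        filter_upwards [MemLp.coeFn_toLp (hmem φ.1 φ.2)] with y hy
        show _ * ((hmem φ.1 φ.2).toLp _ : Lp ℂ 2 nu) y = _
        rw [hy]
      rw [e1, unfold_K kap_ker.isKer h1 h2 h3 h4 ⟨C, hC⟩ x, h5]
      show _ = μ • ((hmem φ.1 φ.2).toLp _ : Lp ℂ 2 nu) x
      rw [hx3, smul_eq_mul]; ring
    have hinj : Function.Injective L := by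
      rw [← LinearMap.ker_eq_bot, LinearMap.ker_eq_bot']
      intro φ hφ
      obtain ⟨h1, ⟨M, h2⟩, h3, h4, h5⟩ := φ.2
      have hae : φ.1 =ᵐ[nu] 0 := by
        have h6 : (L φ : ℍ → ℂ) =ᵐ[nu] 0 := by rw [hφ]; exact Lp.coeFn_zero _ _ _
        exact (MemLp.coeFn_toLp (hmem φ.1 φ.2)).symm.trans h6
      apply Subtype.ext
      funext z
      have h6 := unfold_K kap_ker.isKer h1 h2 h3 h4 ⟨C, hC⟩ z
      have h7 : ∫ w, (K kap z w : ℂ) * φ.1 w ∂nu = 0 := by
        rw [← integral_zero ℍ ℂ (μ := nu)]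
        refine integral_congr_ae ?_
        filter_upwards [hae] with y hy
        rw [hy]; simp
      rw [h7, h5] at h6
      have h8 : μ * φ.1 z = 0 := by linear_combination -h6
      exact (mul_eq_zero.1 h8).resolve_left hμ0
    have hfd := ContinuousLinearMap.finite_dimensional_eigenspace hTc μ hμ0
    exact FiniteDimensional.of_injective (L.codRestrict _ hL)
      ((LinearMap.injective_codRestrict_iff hL).2 hinj)

end Pool.Agent.Q18.Hyp
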