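import Pool.Agent.Q18.Joint

/-!
# Fourier coefficients along horocycles
-/

set_option autoImplicit false

open MeasureTheory Filter Topology Real Set
open scoped ENNReal MatrixGroups

noncomputable section

namespace Pool.Agent.Q18.Four

open Pool.Agent.Q18.Hyp (U isOpen_U HasLap)

/-- the point `x + i y` -/
def pt (x y : ℝ) : ℂ := (x : ℂ) + y * Complex.I

theorem pt_im (x y : ℝ) : (pt x y).im = y := by simp [pt]
theorem pt_re (x y : ℝ) : (pt x y).re = x := by simp [pt]

theorem pt_mem {x y : ℝ} (hy : 0 < y) : pt x y ∈ U := by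
  show 0 < (pt x y).im
  rw [pt_im]; exact hy

theorem continuous_pt : Continuous fun p : ℝ × ℝ => pt p.1 p.2 := by
  unfold pt; fun_prop

/-- `e(n x)` -/
def ex (n : ℤ) (x : ℝ) : ℂ := Complex.exp (2 * π * Complex.I * n * x)

theorem continuous_ex (n : ℤ) : Continuous (ex n) := by unfold ex; fun_prop

theorem norm_ex (n : ℤ) (x : ℝ) : ‖ex n x‖ = 1 := by
  rw [ex, Complex.norm_exp]
  simp

theorem ex_add_one (n : ℤ) (x : ℝ) : ex n (x + 1) = ex n x := by
  unfold ex
  rw [Complex.exp_eq_exp_iff_exists_int]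
  exact ⟨n, by push_cast; ring⟩

theorem ex_add (n : ℤ) (x y : ℝ) : ex n (x + y) = ex n x * ex n y := by
  unfold ex
  rw [← Complex.exp_add]; congr 1; push_cast; ring

theorem ex_add' (m n : ℤ) (x : ℝ) : ex (m + n) x = ex m x * ex n x := by
  unfold ex
  rw [← Complex.exp_add]; congr 1; push_cast; ring

theorem ex_int (n k : ℤ) : ex n k = 1 := by
  unfold ex
  rw [Complex.exp_eq_one_iff]
  exact ⟨n * k, by push_cast; ring⟩

theorem hasDerivAt_ex (n : ℤ) (x : ℝ) : HasDerivAt (ex n) (2 * π * Complex.I * n * ex n x) x := by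
  have h1 : HasDerivAt (fun x : ℝ => (x : ℂ)) 1 x := Complex.ofRealCLM.hasDerivAt
  have := ((h1.const_mul (2 * π * Complex.I * n)).cexp)
  refine this.congr_deriv ?_
  unfold ex
  ring

/-- Fourier coefficient -/
def co (H : ℂ → ℂ) (n : ℤ) (y : ℝ) : ℂ := ∫ x in (0 : ℝ)..1, H (pt x y) * ex (-n) x

theorem continuous_slice {H : ℂ → ℂ} (hH : ContinuousOn H U) {y : ℝ} (hy : 0 < y) :
    Continuous fun x : ℝ => H (pt x y) :=
  hH.comp_continuous (by unfold pt; fun_prop) fun x => pt_mem hy

theorem co_bound {H : ℂ → ℂ} {M : ℝ} (hM : ∀ z ∈ U, ‖H z‖ ≤ M) (n : ℤ) {y : ℝ} (hy : 0 < y) :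
    ‖co H n y‖ ≤ M := by
  unfold co
  have := intervalIntegral.norm_integral_le_of_norm_le_const (a := (0 : ℝ)) (b := 1)
    (f := fun x => H (pt x y) * ex (-n) x) (C := M) (fun x _ => by
      rw [norm_mul, norm_ex, mul_one]; exact hM _ (pt_mem hy))
  simpa using this

theorem hasDerivAt_co {H H' : ℂ → ℂ} (hH : ContinuousOn H U) (hH' : ContinuousOn H' U)
    (hd : ∀ z ∈ U, HasDerivAt (fun t : ℝ => H (z + t * Complex.I)) (H' z) 0) (n : ℤ) {y : ℝ}
    (hy : 0 < y) : HasDerivAt (co H n) (co H' n y) y := by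
  set s : Set ℝ := Ioo (y / 2) (2 * y) with hs
  have hsn : s ∈ 𝓝 y := Ioo_mem_nhds (by linarith) (by linarith)
  -- bound on the compact rectangle
  have hcomp : IsCompact ((fun p : ℝ × ℝ => pt p.1 p.2) '' (Icc 0 1 ×ˢ Icc (y / 2) (2 * y))) :=
    (isCompact_Icc.prod isCompact_Icc).image continuous_pt
  have hsub : ((fun p : ℝ × ℝ => pt p.1 p.2) '' (Icc 0 1 ×ˢ Icc (y / 2) (2 * y))) ⊆ U := by
    rintro _ ⟨p, hp, rfl⟩
    exact pt_mem (lt_of_lt_of_le (by linarith) hp.2.1)
  obtain ⟨C, hC⟩ := hcomp.exists_bound_of_continuousOn (hH'.mono hsub)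
  have hpt : ∀ x t : ℝ, 0 < t → HasDerivAt (fun t : ℝ => H (pt x t)) (H' (pt x t)) t := by
    intro x t ht
    have h1 := hd (pt x t) (pt_mem ht)
    have h2 : HasDerivAt (fun r : ℝ => H (pt x t + r * Complex.I)) (H' (pt x t)) (t - t) := by
      rw [sub_self]; exact h1
    have h3 := HasDerivAt.comp_sub_const t t h2
    refine h3.congr_of_eventuallyEq (Eventually.of_forall fun r => ?_)
    simp only
    congr 1
    unfold pt
    push_cast; ring
  have h := intervalIntegral.hasDerivAt_integral_of_dominated_loc_of_deriv_le (μ := volume)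
    (a := (0 : ℝ)) (b := 1) (F := fun t x => H (pt x t) * ex (-n) x)
    (F' := fun t x => H' (pt x t) * ex (-n) x) (x₀ := y) (s := s) (bound := fun _ => C) hsn
    ?_ ?_ ?_ ?_ ?_ ?_
  · exact h.2
  · filter_upwards [hsn] with t ht
    have ht0 : 0 < t := lt_trans (by linarith) ht.1
    exact ((continuous_slice hH ht0).mul (continuous_ex _)).aestronglyMeasurable
  · exact ((continuous_slice hH hy).mul (continuous_ex _)).intervalIntegrable _ _
  · exact ((continuous_slice hH' hy).mul (continuous_ex _)).aestronglyMeasurable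
  · refine Eventually.of_forall fun x hx t ht => ?_
    rw [norm_mul, norm_ex, mul_one]
    rw [uIoc_of_le zero_le_one] at hx
    exact hC _ ⟨(x, t), ⟨⟨hx.1.le, hx.2⟩, ⟨ht.1.le, ht.2.le⟩⟩, rfl⟩
  · exact intervalIntegrable_const
  · refine Eventually.of_forall fun x _ t ht => ?_
    have ht0 : 0 < t := lt_trans (by linarith) ht.1
    exact (hpt x t ht0).mul_const _

theorem hasDerivAt_slice {H Hx : ℂ → ℂ}
    (hd : ∀ z ∈ U, HasDerivAt (fun t : ℝ => H (z + t * 1)) (Hx z) 0) {y : ℝ} (hy : 0 < y) (x : ℝ) :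
    HasDerivAt (fun x : ℝ => H (pt x y)) (Hx (pt x y)) x := by
  have h1 := hd (pt x y) (pt_mem hy)
  have h2 : HasDerivAt (fun r : ℝ => H (pt x y + r * 1)) (Hx (pt x y)) (x - x) := by
    rw [sub_self]; exact h1
  have h3 := HasDerivAt.comp_sub_const x x h2
  refine h3.congr_of_eventuallyEq (Eventually.of_forall fun r => ?_)
  simp only
  congr 1
  unfold pt
  push_cast; ring

theorem co_deriv_x {H Hx : ℂ → ℂ} (hH : ContinuousOn H U) (hHx : ContinuousOn Hx U)
    (hd : ∀ z ∈ U, HasDerivAt (fun t : ℝ => H (z + t * 1)) (Hx z) 0)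
    (hper : ∀ z ∈ U, H (z + 1) = H z) (n : ℤ) {y : ℝ} (hy : 0 < y) :
    co Hx n y = 2 * π * Complex.I * n * co H n y := by
  have h1 : ∀ x ∈ uIcc (0 : ℝ) 1, HasDerivAt (fun x : ℝ => H (pt x y) * ex (-n) x)
      (Hx (pt x y) * ex (-n) x + H (pt x y) * (2 * π * Complex.I * ((-n : ℤ) : ℂ) * ex (-n) x)) x := by
    intro x _
    exact (hasDerivAt_slice hd hy x).mul (hasDerivAt_ex (-n) x)
  have c1 : Continuous fun x : ℝ => Hx (pt x y) * ex (-n) x :=
    (continuous_slice hHx hy).mul (continuous_ex (-n))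
  have c2 : Continuous fun x : ℝ => H (pt x y) * (2 * π * Complex.I * ((-n : ℤ) : ℂ) * ex (-n) x) :=
    (continuous_slice hH hy).mul ((continuous_ex (-n)).const_mul (2 * π * Complex.I * ((-n : ℤ) : ℂ)))
  have h2 := intervalIntegral.integral_eq_sub_of_hasDerivAt h1 ((c1.add c2).intervalIntegrable _ _)
  have h3 : H (pt 1 y) * ex (-n) 1 - H (pt 0 y) * ex (-n) 0 = 0 := by
    have e1 : pt 1 y = pt 0 y + 1 := by unfold pt; push_cast; ring
    have e2 : ex (-n) 1 = ex (-n) 0 := by
      have := ex_add_one (-n) 0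
      rwa [zero_add] at this
    rw [e1, hper _ (pt_mem hy), e2, sub_self]
  rw [h3, intervalIntegral.integral_add (c1.intervalIntegrable _ _) (c2.intervalIntegrable _ _)] at h2
  have h4 : ∫ x in (0 : ℝ)..1, H (pt x y) * (2 * π * Complex.I * ((-n : ℤ) : ℂ) * ex (-n) x) =
      2 * π * Complex.I * ((-n : ℤ) : ℂ) * co H n y := by
    unfold co
    rw [← intervalIntegral.integral_const_mul]
    congr 1; ext x; ring
  rw [h4] at h2
  have h5 : co Hx n y + 2 * π * Complex.I * ((-n : ℤ) : ℂ) * co H n y = 0 := h2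
  push_cast at h5
  linear_combination h5

theorem per_deriv {H Hx : ℂ → ℂ} (hd : ∀ z ∈ U, HasDerivAt (fun t : ℝ => H (z + t * 1)) (Hx z) 0)
    (hper : ∀ z ∈ U, H (z + 1) = H z) : ∀ z ∈ U, Hx (z + 1) = Hx z := by
  intro z hz
  have hz1 : z + 1 ∈ U := by
    show 0 < (z + 1).im
    have : 0 < z.im := hz
    simpa using this
  have h1 := hd (z + 1) hz1
  have h2 := hd z hz
  refine h1.unique (h2.congr_of_eventuallyEq (Eventually.of_forall fun t => ?_))
  simp only
  have hmem : z + t * 1 ∈ U := by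
    show 0 < (z + t * 1 : ℂ).im
    have : 0 < z.im := hz
    simpa using this
  rw [← hper _ hmem]
  congr 1; ring

/-- the differential equation for the Fourier coefficients -/
theorem co_ode {F G Fx Fy Fxx Fyy : ℂ → ℂ} (h : HasLap F G Fx Fy Fxx Fyy) {Λ : ℂ}
    (hF : ContinuousOn F U) (hG : ∀ z ∈ U, G z = Λ * F z) (hper : ∀ z ∈ U, F (z + 1) = F z) (n : ℤ)
    {y : ℝ} (hy : 0 < y) : HasDerivAt (co F n) (co Fy n y) y ∧
      HasDerivAt (co Fy n) ((4 * π ^ 2 * n ^ 2 + Λ / y ^ 2) * co F n y) y := by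
  refine ⟨hasDerivAt_co hF h.cy h.dy n hy, ?_⟩
  have h1 := hasDerivAt_co h.cy h.cyy h.dyy n hy
  have h2 := co_deriv_x hF h.cx h.dx hper n hy
  have h3 := co_deriv_x h.cx h.cxx h.dxx (per_deriv h.dx hper) n hy
  have h4 : co Fxx n y + co Fyy n y = Λ / y ^ 2 * co F n y := by
    unfold co
    have c1 : Continuous fun x : ℝ => Fxx (pt x y) * ex (-n) x :=
      (continuous_slice h.cxx hy).mul (continuous_ex (-n))
    have c2 : Continuous fun x : ℝ => Fyy (pt x y) * ex (-n) x :=
      (continuous_slice h.cyy hy).mul (continuous_ex (-n))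
    rw [← intervalIntegral.integral_add (c1.intervalIntegrable _ _) (c2.intervalIntegrable _ _),
      ← intervalIntegral.integral_const_mul]
    congr 1
    ext x
    have h5 := h.lap (pt x y) (pt_mem hy)
    rw [hG _ (pt_mem hy), pt_im] at h5
    have hyC : (y : ℂ) ≠ 0 := by exact_mod_cast hy.ne'
    field_simp
    linear_combination (ex (-n) x) * h5
  refine h1.congr_deriv ?_
  have hI : Complex.I ^ 2 = -1 := Complex.I_sq
  rw [h3, h2] at h4
  linear_combination h4 - 4 * π ^ 2 * n ^ 2 * co F n y * hI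

/-! ### Hecke relations for the coefficients -/

theorem per_int {F : ℂ → ℂ} (hper : ∀ z ∈ U, F (z + 1) = F z) (k : ℤ) : ∀ z ∈ U, F (z + k) = F z := by
  have h : ∀ (k : ℕ), ∀ z ∈ U, F (z + k) = F z := by
    intro k
    induction k with
    | zero => intro z _; simp
    | succ k ih =>
      intro z hz
      have hmem : z + k ∈ U := by
        show 0 < (z + k : ℂ).im
        have : 0 < z.im := hz
        simpa using this
      rw [← ih z hz, ← hper _ hmem]
      congr 1; push_cast; ring
  intro z hz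
  obtain ⟨n, rfl | rfl⟩ := k.eq_nat_or_neg
  · exact_mod_cast h n z hz
  · have hmem : z + ((-(n : ℤ) : ℤ) : ℂ) ∈ U := by
      show 0 < (z + ((-(n : ℤ) : ℤ) : ℂ)).im
      have : 0 < z.im := hz
      simpa using this
    rw [← h n _ hmem]
    congr 1; push_cast; ring

theorem per_slice {F : ℂ → ℂ} (hper : ∀ z ∈ U, F (z + 1) = F z) (n : ℤ) {y : ℝ} (hy : 0 < y) :
    Function.Periodic (fun x : ℝ => F (pt x y) * ex n x) 1 := by
  intro x
  simp only
  rw [ex_add_one, ← hper (pt x y) (pt_mem hy)]
  congr 2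
  unfold pt; push_cast; ring

theorem co_mul {F : ℂ → ℂ} (hF : ContinuousOn F U) (hper : ∀ z ∈ U, F (z + 1) = F z) {p : ℕ}
    (hp : 0 < p) (n : ℤ) {y : ℝ} (hy : 0 < y) : co (fun z => F (p * z)) n y =
      if (p : ℤ) ∣ n then co F (n / p) (p * y) else 0 := by
  have hpR : (0 : ℝ) < p := by exact_mod_cast hp
  have hpC : (p : ℂ) ≠ 0 := by exact_mod_cast hp.ne'
  have hpy : 0 < (p : ℝ) * y := by positivity
  split_ifs with hdvd
  · obtain ⟨m, rfl⟩ := hdvd
    rw [Int.mul_ediv_cancel_left _ (by exact_mod_cast hp.ne')]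
    set g : ℝ → ℂ := fun x => F (pt x (p * y)) * ex (-m) x with hg
    have hgp : Function.Periodic g 1 := per_slice hper (-m) hpy
    have e1 : co (fun z => F (p * z)) (p * m) y = ∫ x in (0 : ℝ)..1, g (p * x) := by
      unfold co
      congr 1
      ext x
      simp only [hg]
      congr 1
      · congr 1; unfold pt; push_cast; ring
      · unfold ex; congr 1; push_cast; ring
    rw [e1, intervalIntegral.integral_comp_mul_left g hpR.ne']
    have e2 : ∫ x in (p : ℝ) * 0..p * 1, g x = (p : ℝ) • ∫ x in (0 : ℝ)..1, g x := by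
      have := hgp.intervalIntegral_add_zsmul_eq p 0
      simp only [zero_add, zsmul_eq_mul, mul_one] at this
      rw [mul_zero, mul_one]
      have hgc : Continuous g := (continuous_slice hF hpy).mul (continuous_ex _)
      rw [← Int.cast_natCast (R := ℝ), this fun _ _ => hgc.intervalIntegrable _ _]
      simp
    rw [e2, smul_smul, inv_mul_cancel₀ hpR.ne', one_smul]
    rfl
  · set k : ℝ → ℂ := fun x => F (p * pt x y) * ex (-n) x with hk
    have hkp : Function.Periodic k 1 := by
      intro x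
      simp only [hk]
      rw [ex_add_one]
      have hmem : (p : ℂ) * pt x y ∈ U := by
        show 0 < ((p : ℂ) * pt x y).im
        have : ((p : ℂ) * pt x y).im = p * y := by simp [pt]
        rw [this]; exact hpy
      rw [← per_int hper p _ hmem]
      congr 2
      unfold pt; push_cast; ring
    have e0 : co (fun z => F (p * z)) n y = ∫ x in (0 : ℝ)..1, k x := rfl
    have e1 : ∫ x in (0 : ℝ)..1, k (x + 1 / p) = ∫ x in (0 : ℝ)..1, k x := by
      rw [intervalIntegral.integral_comp_add_right k (1 / p : ℝ), zero_add, add_comm (1 : ℝ)]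
      have := hkp.intervalIntegral_add_eq (1 / p : ℝ) 0
      rw [zero_add] at this
      exact this
    have e2 : ∀ x, k (x + 1 / p) = Complex.exp (-(2 * π * Complex.I * n / p)) * k x := by
      intro x
      simp only [hk]
      have hmem : (p : ℂ) * pt x y ∈ U := by
        show 0 < ((p : ℂ) * pt x y).im
        have : ((p : ℂ) * pt x y).im = p * y := by simp [pt]
        rw [this]; exact hpy
      have e3 : (p : ℂ) * pt (x + 1 / p) y = p * pt x y + 1 := by
        unfold pt; push_cast; field_simp; ring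
      rw [e3, hper _ hmem]
      have e4 : ex (-n) (x + 1 / p) = ex (-n) x * Complex.exp (-(2 * π * Complex.I * n / p)) := by
        rw [ex_add]
        congr 1
        unfold ex
        congr 1
        push_cast
        ring
      rw [e4]; ring
    simp only [e2] at e1
    rw [intervalIntegral.integral_const_mul] at e1
    have hne : Complex.exp (-(2 * π * Complex.I * n / p)) ≠ 1 := by
      intro h
      rw [Complex.exp_eq_one_iff] at h
      obtain ⟨j, hj⟩ := h
      apply hdvd
      refine ⟨-j, ?_⟩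
      have h2 : (n : ℂ) = p * (-j) := by
        have hpi : (2 * π * Complex.I : ℂ) ≠ 0 := Complex.two_pi_I_ne_zero
        field_simp at hj
        have : (2 * π * Complex.I : ℂ) * (n - p * (-j)) = 0 := by linear_combination -(2 * π * Complex.I : ℂ) * hj
        have := (mul_eq_zero.1 this).resolve_left hpi
        linear_combination this
      exact_mod_cast h2
    rw [e0]
    have : (Complex.exp (-(2 * π * Complex.I * n / p)) - 1) * ∫ x in (0 : ℝ)..1, k x = 0 := by
      linear_combination e1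
    exact (mul_eq_zero.1 this).resolve_left (sub_ne_zero.2 hne)

theorem co_div {F : ℂ → ℂ} (hF : ContinuousOn F U) {p : ℕ} (hp : 0 < p) (n : ℤ) {y : ℝ} (hy : 0 < y) :
    ∑ b ∈ Finset.range p, co (fun z => F ((z + b) / p)) n y = p * co F (p * n) (y / p) := by
  have hpR : (0 : ℝ) < p := by exact_mod_cast hp
  have hpC : (p : ℂ) ≠ 0 := by exact_mod_cast hp.ne'
  have hpy : 0 < y / (p : ℝ) := by positivity
  set g : ℝ → ℂ := fun x => F (pt x (y / p)) * ex (-(p * n)) x with hg
  have hgc : Continuous g := (continuous_slice hF hpy).mul (continuous_ex _)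
  have e1 : ∀ b ∈ Finset.range p, co (fun z => F ((z + b) / p)) n y =
      ∫ x in (b : ℝ)..((b + 1 : ℕ) : ℝ), g (x / p) := by
    intro b _
    have h1 := intervalIntegral.integral_comp_add_right (a := (0 : ℝ)) (b := 1)
      (fun x => g (x / p)) (b : ℝ)
    rw [zero_add, add_comm (1 : ℝ)] at h1
    push_cast
    rw [← h1]
    unfold co
    congr 1
    ext x
    simp only [hg]
    congr 1
    · congr 1; unfold pt; push_cast; field_simp; ring
    · have h2 : ex (-(p * n)) ((x + b) / p) = ex (-n) (x + b) := by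
        unfold ex; congr 1; push_cast; field_simp
      rw [h2, ex_add]
      have h3 : ex (-n) b = 1 := by
        have := ex_int (-n) b
        exact_mod_cast this
      rw [h3, mul_one]
  rw [Finset.sum_congr rfl e1]
  have h2 := intervalIntegral.sum_integral_adjacent_intervals (f := fun x => g (x / p)) (μ := volume)
    (a := fun k : ℕ => (k : ℝ)) (n := p) (fun k _ =>
      ((hgc.comp (continuous_id.div_const _)).intervalIntegrable _ _))
  rw [h2]
  simp only [Nat.cast_zero]
  rw [intervalIntegral.integral_comp_div g hpR.ne', zero_div, div_self hpR.ne', Complex.real_smul]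
  rfl

/-- Hecke relation on Fourier coefficients -/
theorem co_hecke {F : ℂ → ℂ} (hF : ContinuousOn F U) (hper : ∀ z ∈ U, F (z + 1) = F z) {p : ℕ}
    (hp : 0 < p) {lam : ℂ}
    (hT : ∀ z ∈ U, F (p * z) + ∑ b ∈ Finset.range p, F ((z + b) / p) = lam * F z)
    (n : ℤ) {y : ℝ} (hy : 0 < y) :
    lam * co F n y = (if (p : ℤ) ∣ n then co F (n / p) (p * y) else 0) + p * co F (p * n) (y / p) := by
  have hpR : (0 : ℝ) < p := by exact_mod_cast hp
  have hpC : (p : ℂ) ≠ 0 := by exact_mod_cast hp.ne'
  rw [← co_mul hF hper hp n hy, ← co_div hF hp n hy]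
  unfold co
  have c0 : Continuous fun x : ℝ => F (p * pt x y) * ex (-n) x := by
    refine Continuous.mul ?_ (continuous_ex _)
    refine hF.comp_continuous (by unfold pt; fun_prop) fun x => ?_
    show 0 < ((p : ℂ) * pt x y).im
    have : ((p : ℂ) * pt x y).im = p * y := by simp [pt]
    rw [this]; positivity
  have c1 : ∀ b : ℕ, Continuous fun x : ℝ => F ((pt x y + b) / p) * ex (-n) x := by
    intro b
    refine Continuous.mul ?_ (continuous_ex _)
    refine hF.comp_continuous (by unfold pt; fun_prop) fun x => ?_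
    show 0 < ((pt x y + b) / p : ℂ).im
    rw [Complex.div_natCast_im]
    have : (pt x y + b).im = y := by simp [pt]
    rw [this]; positivity
  rw [← intervalIntegral.integral_finsetSum (fun b _ => (c1 b).intervalIntegrable _ _),
    ← intervalIntegral.integral_add (c0.intervalIntegrable _ _)
      ((continuous_finsetSum _ fun b _ => c1 b).intervalIntegrable _ _),
    ← intervalIntegral.integral_const_mul]
  congr 1
  ext x
  rw [← mul_assoc, ← hT _ (pt_mem hy), add_mul, Finset.sum_mul]

/-! ### Fourier expansion -/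

theorem fourier_hasSum {F : ℂ → ℂ} (hF : ContinuousOn F U) (hper : ∀ z ∈ U, F (z + 1) = F z)
    {y : ℝ} (hy : 0 < y) (hsum : Summable fun n : ℤ => co F n y) (x : ℝ) :
    HasSum (fun n : ℤ => co F n y * ex n x) (F (pt x y)) := by
  have h1 : Fact ((0 : ℝ) < 1) := ⟨one_pos⟩
  set f : ℝ → ℂ := fun x => F (pt x y) with hf
  have hfp : Function.Periodic f 1 := by
    intro x
    simp only [hf]
    rw [← hper (pt x y) (pt_mem hy)]
    congr 1
    unfold pt; push_cast; ring
  have hfc : Continuous f := continuous_slice hF hy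
  set g : C(AddCircle (1 : ℝ), ℂ) := ⟨hfp.lift, hfc.quotient_lift _⟩ with hg
  have hgx : ∀ x : ℝ, g (x : AddCircle (1 : ℝ)) = f x := fun x => hfp.lift_coe x
  have hco : ∀ n : ℤ, fourierCoeff g n = co F n y := by
    intro n
    rw [fourierCoeff_eq_intervalIntegral g n 0]
    unfold co
    simp only [zero_add, div_one, one_smul]
    congr 1
    ext x
    rw [fourier_coe_apply, hgx, smul_eq_mul, mul_comm]
    congr 1
    unfold ex
    congr 1
    push_cast
    ring
  have hs : Summable (fourierCoeff g) := hsum.congr fun n => (hco n).symm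
  have := has_pointwise_sum_fourier_series_of_summable hs (x : AddCircle (1 : ℝ))
  rw [hgx] at this
  refine this.congr_fun ?_
  intro n
  rw [hco, fourier_coe_apply, smul_eq_mul]
  congr 1
  unfold ex
  congr 1
  push_cast
  ring

theorem co_neg {F : ℂ → ℂ} (hper : ∀ z ∈ U, F (z + 1) = F z)
    (hodd : ∀ x y : ℝ, 0 < y → F (pt (-x) y) = - F (pt x y)) (n : ℤ) {y : ℝ} (hy : 0 < y) :
    co F (-n) y = - co F n y := by
  unfold co
  set g : ℝ → ℂ := fun x => F (pt x y) * ex (-n) x with hg
  have h1 : ∀ x, F (pt x y) * ex (-(-n)) x = - g (-x) := by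
    intro x
    simp only [hg]
    rw [hodd x y hy]
    have : ex (-(-n)) x = ex (-n) (-x) := by unfold ex; congr 1; push_cast; ring
    rw [this]; ring
  simp_rw [h1]
  rw [intervalIntegral.integral_neg, intervalIntegral.integral_comp_neg g, neg_zero]
  congr 1
  have := (per_slice hper (-n) hy).intervalIntegral_add_eq (-1) 0
  simpa using this

end Pool.Agent.Q18.Four
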