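import Pool.Agent.Q18.Eigen

/-!
# Hecke operators
-/

set_option autoImplicit false

open MeasureTheory Filter Topology UpperHalfPlane
open scoped ENNReal MatrixGroups Pointwise ContDiff

noncomputable section

namespace Pool.Agent.Q18.Hyp

/-! ### affine maps -/

/-- the affine map `z ↦ a z + b` -/
def aff (a b : ℝ) (ha : 0 < a) : GL (Fin 2) ℝ :=
  Matrix.GeneralLinearGroup.mkOfDetNeZero !![a, b; 0, 1] (by
    rw [Matrix.det_fin_two_of]; simpa using ha.ne')

theorem coe_aff (a b : ℝ) (ha : 0 < a) (z : ℍ) : ((aff a b ha • z : ℍ) : ℂ) = a * z + b := by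
  have hpos : 0 < (aff a b ha).det.val := by
    show 0 < !![a, b; 0, 1].det
    rw [Matrix.det_fin_two_of]; simpa using ha
  rw [coe_smul_of_det_pos hpos]
  have h1 : num (aff a b ha) z = a * z + b := rfl
  have h2 : denom (aff a b ha) z = ((0 : ℝ) : ℂ) * z + ((1 : ℝ) : ℂ) := rfl
  rw [h1, h2]; simp

theorem ofComplex_eq {z : ℂ} {w : ℍ} (h : z = w) : ofComplex z = w := by
  rw [h, ofComplex_apply]

/-! ### invariance in coordinates -/

theorem inv_of_eq {φ : ℍ → ℂ} (hinv : ∀ (γ : SL(2, ℤ)) w, φ (γ • w) = φ w) (a b c d : ℤ)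
    (h : a * d - b * c = 1) {w w' : ℍ} (e : (w' : ℂ) * (c * w + d) = a * w + b) : φ w' = φ w := by
  set γ : SL(2, ℤ) := ⟨!![a, b; c, d], by rw [Matrix.det_fin_two_of]; exact h⟩ with hγ
  have : w' = γ • w := by
    apply UpperHalfPlane.ext
    rw [coe_specialLinearGroup_apply]
    have hden := denom_ne_zero (Matrix.SpecialLinearGroup.mapGL ℝ γ : GL (Fin 2) ℝ) w
    rw [eq_div_iff]
    · simpa [hγ] using e
    · exact hden
  rw [this, hinv]

theorem inv_iff {φ : ℍ → ℂ} (h1 : ∀ w w' : ℍ, (w' : ℂ) = w + 1 → φ w' = φ w)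
    (h2 : ∀ w w' : ℍ, (w' : ℂ) * w = -1 → φ w' = φ w) (γ : SL(2, ℤ)) (w : ℍ) : φ (γ • w) = φ w := by
  have : γ ∈ Subgroup.closure {ModularGroup.S, ModularGroup.T} := by
    simp [SpecialLinearGroup.SL2Z_generators]
  induction this using Subgroup.closure_induction generalizing w with
  | mem x hx =>
    rcases hx with rfl | rfl
    · apply h2
      rw [specialLinearGroup_apply]
      have := w.ne_zero
      simp [ModularGroup.S]
      field_simp
    · apply h1
      rw [modular_T_smul, coe_vadd]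
      push_cast
      ring
  | one => rw [one_smul]
  | mul x y _ _ hx hy => rw [mul_smul, hx, hy]
  | inv x _ hx => rw [← hx (x⁻¹ • w), smul_inv_smul]

/-! ### periodic sums -/

section periodic

variable {p : ℕ} {g : ℤ → ℂ}

theorem per_mod (hg : ∀ b, g (b + p) = g b) (b : ℤ) : g (b % p) = g b := by
  have h : Function.Periodic g (p : ℤ) := hg
  have := h.int_mul (b / p) (b % p)
  have e : b % p + ((b / p : ℤ)) * (p : ℤ) = b := by rw [mul_comm]; exact Int.emod_add_mul_ediv b p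
  simp only [Int.cast_id, e] at this
  exact this.symm

theorem sum_range_zmod [NeZero p] (g : ℤ → ℂ) :
    ∑ b ∈ Finset.range p, g b = ∑ u : ZMod p, g (u.val : ℤ) := by
  refine Finset.sum_nbij' (fun b => (b : ZMod p)) (fun u => u.val) (fun _ _ => Finset.mem_univ _)
    (fun u _ => Finset.mem_range.2 (ZMod.val_lt u)) (fun b hb => ?_) (fun u _ => ?_) (fun b hb => ?_)
  · exact ZMod.val_cast_of_lt (Finset.mem_range.1 hb)
  · simp
  · rw [ZMod.val_cast_of_lt (Finset.mem_range.1 hb)]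

theorem per_val [NeZero p] (hg : ∀ b, g (b + p) = g b) (b : ℤ) : g (((b : ZMod p).val : ℕ) : ℤ) = g b := by
  rw [ZMod.val_intCast, per_mod hg]

theorem sum_shift [NeZero p] (hg : ∀ b, g (b + p) = g b) :
    ∑ b ∈ Finset.range p, g (b + 1) = ∑ b ∈ Finset.range p, g b := by
  rw [sum_range_zmod g, sum_range_zmod (fun b => g (b + 1))]
  refine Eq.trans ?_ (Equiv.sum_comp (Equiv.addRight (1 : ZMod p)) (fun u => g (u.val : ℤ)))
  refine Finset.sum_congr rfl fun u _ => ?_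
  have := per_val (p := p) hg ((u.val : ℤ) + 1)
  rw [← this]
  simp

theorem sum_neg [NeZero p] (hg : ∀ b, g (b + p) = g b) :
    ∑ b ∈ Finset.range p, g (-b) = ∑ b ∈ Finset.range p, g b := by
  rw [sum_range_zmod g, sum_range_zmod (fun b => g (-b))]
  refine Eq.trans ?_ (Equiv.sum_comp (Equiv.neg (ZMod p)) (fun u => g (u.val : ℤ)))
  refine Finset.sum_congr rfl fun u _ => ?_
  have := per_val (p := p) hg (-(u.val : ℤ))
  rw [← this]
  simp

theorem sum_mul_unit [NeZero p] (hg : ∀ b, g (b + p) = g b) {q : ℕ} (hq : q.Coprime p) :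
    ∑ b ∈ Finset.range p, g (q * b) = ∑ b ∈ Finset.range p, g b := by
  rw [sum_range_zmod g, sum_range_zmod (fun b => g (q * b))]
  refine Eq.trans ?_ (Equiv.sum_comp (Units.mulLeft (ZMod.unitOfCoprime q hq)) (fun u => g (u.val : ℤ)))
  refine Finset.sum_congr rfl fun u _ => ?_
  have := per_val (p := p) hg (q * (u.val : ℤ))
  rw [← this]
  simp [ZMod.coe_unitOfCoprime]

theorem sum_range_mul (h : ℕ → ℂ) (p q : ℕ) :
    ∑ n ∈ Finset.range (p * q), h n = ∑ b ∈ Finset.range p, ∑ c ∈ Finset.range q, h (b + p * c) := by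
  induction q with
  | zero => simp
  | succ q ih =>
    rw [Nat.mul_succ, Finset.sum_range_add, ih, ← Finset.sum_add_distrib]
    refine Finset.sum_congr rfl fun b _ => ?_
    rw [Finset.sum_range_succ, add_comm b (p * q)]

end periodic

/-! ### The Hecke operators -/

/-- The Hecke operator `T_p` (unnormalised). -/
def hecke (p : ℕ) (φ : ℍ → ℂ) (z : ℍ) : ℂ :=
  φ (ofComplex (p * z)) + ∑ b ∈ Finset.range p, φ (ofComplex ((z + b) / p))

theorem oc {z : ℂ} (h : 0 < z.im) : ((ofComplex z : ℍ) : ℂ) = z := by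
  rw [ofComplex_apply_of_im_pos h]

theorem im1 {p : ℕ} (hp : 0 < p) (z : ℍ) : 0 < ((p : ℂ) * z).im := by
  have : ((p : ℂ) * z).im = p * z.im := by simp
  rw [this]
  have := z.im_pos
  positivity

theorem im2 {p : ℕ} (hp : 0 < p) (z : ℍ) (b : ℤ) : 0 < (((z : ℂ) + b) / p).im := by
  have : (((z : ℂ) + b) / p).im = z.im / p := by
    rw [Complex.div_natCast_im]; simp
  rw [this]
  have := z.im_pos
  positivity

theorem im2' {p : ℕ} (hp : 0 < p) (z : ℍ) (b : ℕ) : 0 < (((z : ℂ) + b) / p).im := by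
  have := im2 hp z (b : ℤ)
  exact_mod_cast this

theorem oc_aff1 {p : ℕ} (hp : 0 < p) (z : ℍ) :
    ofComplex ((p : ℂ) * z) = aff p 0 (by exact_mod_cast hp) • z := by
  apply ofComplex_eq
  rw [coe_aff]; simp

theorem oc_aff2 {p : ℕ} (hp : 0 < p) (z : ℍ) (b : ℕ) :
    ofComplex (((z : ℂ) + b) / p) = aff (1 / p) (b / p) (by positivity) • z := by
  apply ofComplex_eq
  rw [coe_aff]; push_cast; ring

variable {φ : ℍ → ℂ}

theorem shift_inv (hinv : ∀ (γ : SL(2, ℤ)) w, φ (γ • w) = φ w) (n : ℤ) {w w' : ℍ}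
    (h : (w' : ℂ) = w + n) : φ w' = φ w := by
  refine inv_of_eq hinv 1 n 0 1 (by ring) ?_
  rw [h]; push_cast; ring

theorem per_g (hinv : ∀ (γ : SL(2, ℤ)) w, φ (γ • w) = φ w) {p : ℕ} (hp : 0 < p) (z : ℍ) (b : ℤ) :
    φ (ofComplex (((z : ℂ) + ((b + p : ℤ) : ℂ)) / p)) = φ (ofComplex (((z : ℂ) + b) / p)) := by
  refine shift_inv hinv 1 ?_
  rw [oc (im2 hp z _), oc (im2 hp z _)]
  have : (p : ℂ) ≠ 0 := by exact_mod_cast hp.ne'
  push_cast
  field_simp
  ring

theorem hecke_eq_int (p : ℕ) (φ : ℍ → ℂ) (z : ℍ) : hecke p φ z = φ (ofComplex (p * z)) +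
    ∑ b ∈ Finset.range p, (fun b : ℤ => φ (ofComplex ((z + b) / p))) (b : ℤ) := by
  unfold hecke
  simp only [Int.cast_natCast]

theorem hecke_inv (hinv : ∀ (γ : SL(2, ℤ)) w, φ (γ • w) = φ w) {p : ℕ} (hp : p.Prime)
    (γ : SL(2, ℤ)) (z : ℍ) : hecke p φ (γ • z) = hecke p φ z := by
  have hp0 := hp.pos
  have hpC : (p : ℂ) ≠ 0 := by exact_mod_cast hp0.ne'
  have : NeZero p := ⟨hp0.ne'⟩
  have : Fact p.Prime := ⟨hp⟩
  refine inv_iff (fun w w' h => ?_) (fun w w' h => ?_) γ z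
  · rw [hecke_eq_int, hecke_eq_int]
    congr 1
    · refine shift_inv hinv p ?_
      rw [oc (im1 hp0 _), oc (im1 hp0 _), h]
      push_cast; ring
    · rw [← sum_shift (g := fun b : ℤ => φ (ofComplex ((w + b) / p))) (per_g hinv hp0 w)]
      refine Finset.sum_congr rfl fun b _ => ?_
      simp only
      rw [h]
      congr 3
      push_cast; ring
  · rw [hecke_eq_int, hecke_eq_int]
    have hw0 : (w : ℂ) ≠ 0 := w.ne_zero
    have hw0' : (w' : ℂ) ≠ 0 := w'.ne_zero
    rw [sum_range_zmod (fun b : ℤ => φ (ofComplex ((w' + b) / p))),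
      sum_range_zmod (fun b : ℤ => φ (ofComplex ((w + b) / p))), Fintype.sum_eq_add_sum_compl 0,
      Fintype.sum_eq_add_sum_compl (0 : ZMod p)]
    have e1 : φ (ofComplex (p * w')) = φ (ofComplex (((w : ℂ) + (((0 : ZMod p).val : ℕ) : ℤ)) / p)) := by
      refine inv_of_eq hinv 0 (-1) 1 0 (by ring) ?_
      rw [oc (im1 hp0 _), oc (im2 hp0 _ _)]
      simp only [ZMod.val_zero, Nat.cast_zero, Int.cast_zero, add_zero]
      push_cast
      rw [div_eq_mul_inv]
      have hpi : (p : ℂ) * (p : ℂ)⁻¹ = 1 := mul_inv_cancel₀ hpC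
      linear_combination h + (w' : ℂ) * w * hpi
    have e2 : φ (ofComplex (((w' : ℂ) + (((0 : ZMod p).val : ℕ) : ℤ)) / p)) = φ (ofComplex (p * w)) := by
      refine inv_of_eq hinv 0 (-1) 1 0 (by ring) ?_
      rw [oc (im1 hp0 _), oc (im2 hp0 _ _)]
      simp only [ZMod.val_zero, Nat.cast_zero, Int.cast_zero, add_zero]
      push_cast
      rw [div_eq_mul_inv]
      have hpi : (p : ℂ) * (p : ℂ)⁻¹ = 1 := mul_inv_cancel₀ hpC
      linear_combination h + (w' : ℂ) * w * hpi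
    have e3 : ∑ u ∈ ({0}ᶜ : Finset (ZMod p)), φ (ofComplex (((w' : ℂ) + ((u.val : ℕ) : ℤ)) / p)) =
        ∑ u ∈ ({0}ᶜ : Finset (ZMod p)), φ (ofComplex (((w : ℂ) + ((u.val : ℕ) : ℤ)) / p)) := by
      refine Finset.sum_nbij' (fun u => -u⁻¹) (fun u => -u⁻¹) (fun u hu => ?_) (fun u hu => ?_)
        (fun u hu => ?_) (fun u hu => ?_) (fun u hu => ?_)
      · simpa using hu
      · simpa using hu
      · simp [inv_neg]
      · simp [inv_neg]
      · have hu0 : u ≠ 0 := by simpa using hu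
        obtain ⟨k, hk⟩ : (p : ℤ) ∣ 1 + (u.val : ℤ) * ((-u⁻¹).val : ℤ) := by
          rw [← ZMod.intCast_zmod_eq_zero_iff_dvd]
          push_cast
          rw [ZMod.natCast_val, ZMod.natCast_val, ZMod.cast_id, ZMod.cast_id]
          field_simp
          ring
        refine inv_of_eq hinv (u.val : ℤ) (-k) p (-((-u⁻¹).val : ℤ)) (by linarith) ?_
        rw [oc (im2 hp0 _ _), oc (im2 hp0 _ _)]
        have hk' : (1 : ℂ) + (u.val : ℂ) * ((-u⁻¹).val : ℂ) = p * k := by exact_mod_cast hk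
        push_cast
        rw [div_eq_mul_inv, div_eq_mul_inv]
        have hpi : (p : ℂ) * (p : ℂ)⁻¹ = 1 := mul_inv_cancel₀ hpC
        generalize ((-u⁻¹).val : ℂ) = v at *
        generalize (u.val : ℂ) = u' at *
        linear_combination ((w' : ℂ) + u') * (p : ℂ)⁻¹ * (w + v) * hpi + (p : ℂ)⁻¹ * h -
          (p : ℂ)⁻¹ * hk' - k * hpi
    rw [e1, e2, e3]
    ring

theorem coe_J (z : ℍ) : ((J • z : ℍ) : ℂ) = -(starRingEnd ℂ) z := by
  simp [coe_J_smul]

theorem hecke_odd (hinv : ∀ (γ : SL(2, ℤ)) w, φ (γ • w) = φ w) (hodd : ∀ w, φ (J • w) = - φ w)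
    {p : ℕ} (hp : 0 < p) (z : ℍ) : hecke p φ (J • z) = - hecke p φ z := by
  have : NeZero p := ⟨hp.ne'⟩
  rw [hecke_eq_int, hecke_eq_int, ← sum_neg (g := fun b : ℤ => φ (ofComplex ((z + b) / p)))
    (per_g hinv hp z), neg_add, ← Finset.sum_neg_distrib]
  congr 1
  · rw [← hodd]
    congr 1
    apply ofComplex_eq
    rw [coe_J, coe_J, oc (im1 hp _)]
    simp
  · refine Finset.sum_congr rfl fun b _ => ?_
    simp only
    rw [← hodd]
    congr 1
    apply ofComplex_eq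
    rw [coe_J, coe_J, oc (im2 hp _ _)]
    simp
    ring

theorem hecke_measurable (hφ : Measurable φ) {p : ℕ} (hp : 0 < p) : Measurable (hecke p φ) := by
  have h : hecke p φ = fun z => φ (aff p 0 (by exact_mod_cast hp) • z) +
      ∑ b ∈ Finset.range p, φ (aff (1 / p) (b / p) (by positivity) • z) := by
    ext z
    unfold hecke
    rw [oc_aff1 hp]
    congr 1
    exact Finset.sum_congr rfl fun b _ => by rw [oc_aff2 hp]
  rw [h]
  refine (hφ.comp (continuous_const_smul _).measurable).add ?_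
  exact Finset.measurable_sum _ fun b _ => hφ.comp (continuous_const_smul _).measurable

theorem hecke_bound {M : ℝ} (hM : ∀ w, ‖φ w‖ ≤ M) (p : ℕ) (z : ℍ) :
    ‖hecke p φ z‖ ≤ (p + 1) * M := by
  unfold hecke
  refine (norm_add_le _ _).trans ?_
  have h1 := hM (ofComplex (p * z))
  have h2 : ‖∑ b ∈ Finset.range p, φ (ofComplex ((z + b) / p))‖ ≤ p * M := by
    refine (norm_sum_le _ _).trans ((Finset.sum_le_card_nsmul _ _ M fun b _ => hM _).trans ?_)
    rw [Finset.card_range, nsmul_eq_mul]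
  linarith

theorem op_sum {δ : ℝ} {κ : ℝ → ℝ} (hκ : IsKer δ κ) {ι : Type*} (s : Finset ι) {f : ι → ℍ → ℂ}
    (hf : ∀ i, Measurable (f i)) {M : ℝ} (hM : ∀ i w, ‖f i w‖ ≤ M) (z : ℍ) :
    op κ (fun w => ∑ i ∈ s, f i w) z = ∑ i ∈ s, op κ (f i) z := by
  classical
  induction s using Finset.induction_on with
  | empty => simp [op]
  | insert a s ha ih =>
    simp only [Finset.sum_insert ha]
    rw [op_add hκ (hf a) (Finset.measurable_sum _ fun i _ => hf i) (hM a) (N := s.card * M), ih]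
    intro w
    refine (norm_sum_le _ _).trans ((Finset.sum_le_card_nsmul _ _ M fun b _ => hM _ _).trans ?_)
    rw [nsmul_eq_mul]

theorem op_hecke {δ : ℝ} {κ : ℝ → ℝ} (hκ : IsKer δ κ) (hφ : Measurable φ) {M : ℝ}
    (hM : ∀ w, ‖φ w‖ ≤ M) {p : ℕ} (hp : 0 < p) (z : ℍ) :
    op κ (hecke p φ) z = hecke p (op κ φ) z := by
  set f0 : ℍ → ℂ := fun z => φ (aff p 0 (by exact_mod_cast hp) • z) with hf0
  set f1 : ℕ → ℍ → ℂ := fun b z => φ (aff (1 / p) (b / p) (by positivity) • z) with hf1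
  have h : hecke p φ = fun z => f0 z + ∑ b ∈ Finset.range p, f1 b z := by
    ext z
    unfold hecke
    rw [oc_aff1 hp]
    congr 1
    exact Finset.sum_congr rfl fun b _ => by rw [oc_aff2 hp]
  have m0 : Measurable f0 := hφ.comp (continuous_const_smul _).measurable
  have m1 : ∀ b, Measurable (f1 b) := fun b => hφ.comp (continuous_const_smul _).measurable
  rw [h, op_add hκ m0 (Finset.measurable_sum _ fun b _ => m1 b) (fun w => hM _)
    (N := (Finset.range p).card * M), op_sum hκ _ m1 (fun b w => hM _)]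
  · unfold hecke
    rw [oc_aff1 hp]
    congr 1
    · exact op_smul_comp κ φ _ z
    refine Finset.sum_congr rfl fun b _ => ?_
    rw [oc_aff2 hp]
    exact op_smul_comp κ φ _ z
  · intro w
    refine (norm_sum_le _ _).trans ((Finset.sum_le_card_nsmul _ _ M fun b _ => hM _).trans ?_)
    rw [nsmul_eq_mul]

theorem hecke_comm (hinv : ∀ (γ : SL(2, ℤ)) w, φ (γ • w) = φ w) {p q : ℕ} (hp : 0 < p) (hq : 0 < q)
    (hpq : p.Coprime q) (z : ℍ) : hecke p (hecke q φ) z = hecke q (hecke p φ) z := by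
  have hpC : (p : ℂ) ≠ 0 := by exact_mod_cast hp.ne'
  have hqC : (q : ℂ) ≠ 0 := by exact_mod_cast hq.ne'
  have : NeZero p := ⟨hp.ne'⟩
  have : NeZero q := ⟨hq.ne'⟩
  have key : ∀ {p q : ℕ} (hp : 0 < p) (hq : 0 < q) (hpq : p.Coprime q), hecke p (hecke q φ) z =
      φ (ofComplex ((p * q : ℂ) * z)) + ∑ n ∈ Finset.range (p * q), φ (ofComplex ((z + n) / (p * q))) +
      (∑ c ∈ Finset.range q, φ (ofComplex ((p * z + c) / q)) +
      ∑ b ∈ Finset.range p, φ (ofComplex ((q * z + b) / p))) := by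
    intro p q hp hq hpq
    have hpC : (p : ℂ) ≠ 0 := by exact_mod_cast hp.ne'
    have hqC : (q : ℂ) ≠ 0 := by exact_mod_cast hq.ne'
    have : NeZero p := ⟨hp.ne'⟩
    have : NeZero q := ⟨hq.ne'⟩
    unfold hecke
    rw [Finset.sum_add_distrib]
    have e1 : φ (ofComplex (q * (ofComplex (p * z) : ℍ))) = φ (ofComplex ((p * q : ℂ) * z)) := by
      rw [oc (im1 hp z)]; congr 2; ring
    have e2 : ∑ b ∈ Finset.range q, φ (ofComplex (((ofComplex (p * z) : ℍ) + b) / q)) =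
        ∑ c ∈ Finset.range q, φ (ofComplex ((p * z + c) / q)) := by
      rw [oc (im1 hp z)]
    have e3 : ∑ b ∈ Finset.range p, φ (ofComplex (q * (ofComplex ((z + b) / p) : ℍ))) =
        ∑ b ∈ Finset.range p, φ (ofComplex ((q * z + b) / p)) := by
      have hg : ∀ b : ℤ, (fun b : ℤ => φ (ofComplex (((ofComplex (q * z) : ℍ) + b) / p))) (b + p) =
          (fun b : ℤ => φ (ofComplex (((ofComplex (q * z) : ℍ) + b) / p))) b :=
        per_g hinv hp (ofComplex (q * z))
      have := sum_mul_unit (g := fun b : ℤ => φ (ofComplex (((ofComplex (q * z) : ℍ) + b) / p)))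
        hg hpq.symm
      beta_reduce at this
      rw [oc (im1 hq z)] at this
      simp only [Int.cast_natCast] at this
      rw [← this]
      refine Finset.sum_congr rfl fun b _ => ?_
      rw [oc (im2' hp z b)]
      congr 2
      push_cast
      field_simp
    have e4 : ∑ b ∈ Finset.range p, ∑ c ∈ Finset.range q,
        φ (ofComplex (((ofComplex ((z + b) / p) : ℍ) + c) / q)) =
        ∑ n ∈ Finset.range (p * q), φ (ofComplex ((z + n) / (p * q))) := by
      rw [sum_range_mul]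
      refine Finset.sum_congr rfl fun b _ => Finset.sum_congr rfl fun c _ => ?_
      rw [oc (im2' hp z b)]
      congr 2
      push_cast
      field_simp
      ring
    rw [e1, e2, e3, e4]
    ring
  rw [key hp hq hpq, key hq hp hpq.symm, mul_comm (q : ℂ) p, mul_comm q p]
  ring

/-! ### Linear versions -/

/-- Hecke operator as a linear map. -/
def heckeL (p : ℕ) : (ℍ → ℂ) →ₗ[ℂ] (ℍ → ℂ) where
  toFun := hecke p
  map_add' a b := by
    ext z
    simp only [hecke, Pi.add_apply, Finset.sum_add_distrib]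
    ring
  map_smul' c a := by
    ext z
    simp only [hecke, Pi.smul_apply, smul_eq_mul, RingHom.id_apply, mul_add, Finset.mul_sum]

theorem op_sharp_measurable {δ : ℝ} {κ : ℝ → ℝ} (hκ : SKer δ κ) (hφ : Measurable φ) {M : ℝ}
    (hM : ∀ w, ‖φ w‖ ≤ M) : Continuous (op κ φ) := by
  have h := (nk0 hκ).continuousOn hφ hM
  have h2 : op κ φ = fun z : ℍ => iop (fun z w => κ (Dc z w)) φ (z : ℂ) := by
    ext z
    rw [iop_eq_op κ φ (show (z : ℂ) ∈ U from z.im_pos), ofComplex_apply]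
  rw [h2]
  exact h.comp_continuous continuous_coe fun z => z.im_pos

theorem hecke_mem_V {κ : ℝ → ℝ} {hκ : ∃ δ, IsKer δ κ} {μ : ℂ} {p : ℕ} (hp : p.Prime)
    (h : φ ∈ V κ hκ μ) : hecke p φ ∈ V κ hκ μ := by
  obtain ⟨h1, ⟨M, h2⟩, h3, h4, h5⟩ := h
  refine ⟨hecke_measurable h1 hp.pos, ⟨_, hecke_bound h2 p⟩, hecke_inv h3 hp,
    hecke_odd h3 h4 hp.pos, fun z => ?_⟩
  obtain ⟨δ, hκ⟩ := hκ
  rw [op_hecke hκ h1 h2 hp.pos]
  unfold hecke
  simp only [h5, mul_add, Finset.mul_sum]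

theorem op_mem_V {κ κ' : ℝ → ℝ} {hκ : ∃ δ, IsKer δ κ} {μ : ℂ} {δ' : ℝ} (hκ' : SKer δ' κ')
    (h : φ ∈ V κ hκ μ) : op κ' φ ∈ V κ hκ μ := by
  obtain ⟨h1, ⟨M, h2⟩, h3, h4, h5⟩ := h
  have hM0 : 0 ≤ M := (norm_nonneg _).trans (h2 I)
  obtain ⟨C, hC0, hC⟩ := hκ'.isKer.op_bound
  obtain ⟨δ, hκ⟩ := hκ
  refine ⟨(op_sharp_measurable hκ' h1 h2).measurable, ⟨_, hC φ M hM0 h2⟩, fun γ w => ?_, fun w => ?_,
    fun z => ?_⟩
  · rw [smul_eq, ← op_smul_comp]
    congr 1
    ext z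
    exact h3 γ z
  · rw [← op_smul_comp]
    simp_rw [h4]
    have := op_const_mul κ' (-1) φ w
    simpa using this
  · rw [op_comm hκ hκ'.isKer h1 hM0 h2]
    have e : op κ φ = fun w => μ * φ w := funext h5
    rw [e, op_const_mul]

end Pool.Agent.Q18.Hyp
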