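import Mathlib

/-!
# The hyperbolic plane: point-pair invariants
-/

set_option autoImplicit false

open MeasureTheory Filter Topology UpperHalfPlane
open scoped ENNReal MatrixGroups Pointwise

noncomputable section

namespace Pool.Agent.Q18.Hyp

/-- `cosh d(z,w) - 1` -/
def D (z w : ℍ) : ℝ := ((z.re - w.re) ^ 2 + (z.im - w.im) ^ 2) / (2 * z.im * w.im)

theorem D_nonneg (z w : ℍ) : 0 ≤ D z w := by
  have := z.im_pos; have := w.im_pos
  unfold D; positivity

theorem D_comm (z w : ℍ) : D z w = D w z := by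
  unfold D
  rw [show (z.re - w.re) ^ 2 = (w.re - z.re) ^ 2 by ring,
    show (z.im - w.im) ^ 2 = (w.im - z.im) ^ 2 by ring,
    show 2 * z.im * w.im = 2 * w.im * z.im by ring]

theorem D_self (z : ℍ) : D z z = 0 := by simp [D]

theorem D_eq_norm (z w : ℍ) : D z w = ‖(z : ℂ) - w‖ ^ 2 / (2 * z.im * w.im) := by
  rw [← Complex.normSq_eq_norm_sq, Complex.normSq_apply]
  simp only [Complex.sub_re, Complex.sub_im, coe_re, coe_im]
  unfold D
  ring

theorem D_eq_cosh (z w : ℍ) : D z w = Real.cosh (dist z w) - 1 := by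
  rw [UpperHalfPlane.cosh_dist, D_eq_norm, dist_eq_norm]; ring

theorem dist_sq_le (z w : ℍ) : dist z w ^ 2 ≤ 2 * D z w := by
  have h1 : Real.cosh (dist z w) = 1 + 2 * Real.sinh (dist z w / 2) ^ 2 := by
    have := Real.cosh_two_mul (dist z w / 2)
    rw [mul_div_cancel₀ _ (two_ne_zero)] at this
    rw [this, Real.cosh_sq]; ring
  have h2 : dist z w / 2 ≤ Real.sinh (dist z w / 2) := Real.self_le_sinh_iff.2 (by positivity)
  have h3 : (dist z w / 2) ^ 2 ≤ Real.sinh (dist z w / 2) ^ 2 :=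
    pow_le_pow_left₀ (by positivity) h2 2
  rw [D_eq_cosh]; nlinarith

theorem continuous_D : Continuous (fun p : ℍ × ℍ => D p.1 p.2) := by
  unfold D
  have h : ∀ p : ℍ × ℍ, 2 * p.1.im * p.2.im ≠ 0 := fun p => by
    have := p.1.im_pos; have := p.2.im_pos; positivity
  refine Continuous.div ?_ ?_ h
  · have h1 : Continuous fun p : ℍ × ℍ => p.1.re := UpperHalfPlane.continuous_re.comp continuous_fst
    have h2 : Continuous fun p : ℍ × ℍ => p.2.re := UpperHalfPlane.continuous_re.comp continuous_snd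
    have h3 : Continuous fun p : ℍ × ℍ => p.1.im := UpperHalfPlane.continuous_im.comp continuous_fst
    have h4 : Continuous fun p : ℍ × ℍ => p.2.im := UpperHalfPlane.continuous_im.comp continuous_snd
    fun_prop
  · have h3 : Continuous fun p : ℍ × ℍ => p.1.im := UpperHalfPlane.continuous_im.comp continuous_fst
    have h4 : Continuous fun p : ℍ × ℍ => p.2.im := UpperHalfPlane.continuous_im.comp continuous_snd
    fun_prop

theorem num_denom_sub (g : GL (Fin 2) ℝ) (z w : ℍ) :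
    num g z / denom g z - num g w / denom g w =
      (g.det.val : ℂ) * ((z : ℂ) - w) / (denom g z * denom g w) := by
  have h1 := denom_ne_zero g z
  have h2 := denom_ne_zero g w
  rw [div_sub_div _ _ h1 h2]
  congr 1
  rw [Matrix.GeneralLinearGroup.val_det_apply, Matrix.det_fin_two]
  simp only [num, denom]
  push_cast
  ring

theorem D_smul (g : GL (Fin 2) ℝ) (z w : ℍ) : D (g • z) (g • w) = D z w := by
  rw [D_eq_norm, D_eq_norm, coe_smul, coe_smul, ← map_sub, norm_σ, num_denom_sub,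
    im_smul_eq_div_normSq, im_smul_eq_div_normSq]
  have h1 := denom_ne_zero g z
  have h2 := denom_ne_zero g w
  have h3 : g.det.val ≠ 0 := g.det.ne_zero
  rw [norm_div, norm_mul, norm_mul, Complex.norm_real, Real.norm_eq_abs,
    Complex.normSq_eq_norm_sq, Complex.normSq_eq_norm_sq]
  have h4 : ‖denom g z‖ ≠ 0 := norm_ne_zero_iff.2 h1
  have h5 : ‖denom g w‖ ≠ 0 := norm_ne_zero_iff.2 h2
  have h6 : |g.det.val| ≠ 0 := abs_ne_zero.2 h3
  have h7 := z.im_ne_zero
  have h8 := w.im_ne_zero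
  field_simp

theorem D_smul_SL (g : SL(2, ℤ)) (z w : ℍ) : D (g • z) (g • w) = D z w := D_smul _ z w

theorem D_smul_left (g : SL(2, ℤ)) (z w : ℍ) : D (g • z) w = D z (g⁻¹ • w) := by
  rw [← D_smul_SL g z, smul_inv_smul]

/-- the hyperbolic disc `{w | D z w ≤ δ}` -/
def disc (δ : ℝ) (z : ℍ) : Set ℍ := {w | D z w ≤ δ}

theorem disc_subset (δ : ℝ) (z : ℍ) : disc δ z ⊆ Metric.closedBall z (√(2 * δ)) := by
  intro w hw
  rw [Metric.mem_closedBall, dist_comm]
  apply Real.le_sqrt_of_sq_le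
  have := dist_sq_le z w
  have h2 : D z w ≤ δ := hw
  linarith

theorem continuous_D_right (z : ℍ) : Continuous fun w => D z w :=
  continuous_D.comp (by fun_prop : Continuous fun w : ℍ => (z, w))

theorem continuous_D_left (w : ℍ) : Continuous fun z => D z w :=
  continuous_D.comp (by fun_prop : Continuous fun z : ℍ => (z, w))

theorem isClosed_disc (δ : ℝ) (z : ℍ) : IsClosed (disc δ z) :=
  isClosed_le (continuous_D_right z) continuous_const

theorem isCompact_disc (δ : ℝ) (z : ℍ) : IsCompact (disc δ z) :=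
  (isCompact_closedBall z _).of_isClosed_subset (isClosed_disc δ z) (disc_subset δ z)

theorem volume_disc_lt_top (δ : ℝ) (z : ℍ) : volume (disc δ z) < ∞ :=
  (isCompact_disc δ z).measure_lt_top

theorem volume_disc (δ : ℝ) (z w : ℍ) : volume (disc δ z) = volume (disc δ w) := by
  obtain ⟨g, rfl⟩ := MulAction.exists_smul_eq (GL (Fin 2) ℝ) z w
  have : disc δ (g • z) = g • disc δ z := by
    ext u
    rw [Set.mem_smul_set_iff_inv_smul_mem]
    simp only [disc, Set.mem_ofPred_eq]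
    rw [← D_smul g z (g⁻¹ • u), smul_inv_smul]
  rw [this, measure_smul]

/-- continuous kernels supported in `[0, δ]` -/
structure IsKer (δ : ℝ) (κ : ℝ → ℝ) : Prop where
  cont : Continuous κ
  supp : ∀ t, δ ≤ t → κ t = 0

namespace IsKer

variable {δ : ℝ} {κ : ℝ → ℝ} (hκ : IsKer δ κ)

include hκ

theorem bdd : ∃ C, 0 ≤ C ∧ ∀ t, 0 ≤ t → |κ t| ≤ C := by
  obtain ⟨C, hC⟩ := (isCompact_Icc (a := (0 : ℝ)) (b := δ)).exists_bound_of_continuousOn
    hκ.cont.continuousOn
  refine ⟨max C 0, le_max_right _ _, fun t ht => ?_⟩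
  rcases le_or_gt δ t with h | h
  · rw [hκ.supp t h, abs_zero]; exact le_max_right _ _
  · exact (hC t ⟨ht, h.le⟩).trans (le_max_left _ _)

theorem continuous_kernel (z : ℍ) : Continuous fun w => κ (D z w) :=
  hκ.cont.comp (continuous_D_right z)

theorem eq_indicator (z : ℍ) (φ : ℍ → ℂ) : (fun w => (κ (D z w) : ℂ) * φ w) =
    (disc δ z).indicator fun w => (κ (D z w) : ℂ) * φ w := by
  ext w
  by_cases h : w ∈ disc δ z
  · rw [Set.indicator_of_mem h]
  · rw [Set.indicator_of_notMem h, hκ.supp _ (le_of_lt (not_le.1 h))]; simp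

theorem integrable {φ : ℍ → ℂ} (hφ : Measurable φ) {M : ℝ} (hM : ∀ w, ‖φ w‖ ≤ M) (z : ℍ) :
    Integrable (fun w => (κ (D z w) : ℂ) * φ w) := by
  obtain ⟨C, hC0, hC⟩ := hκ.bdd
  rw [hκ.eq_indicator z φ, integrable_indicator_iff (isClosed_disc δ z).measurableSet]
  refine Measure.integrableOn_of_bounded (M := C * M) (volume_disc_lt_top δ z).ne ?_ ?_
  · exact ((Complex.measurable_ofReal.comp (hκ.continuous_kernel z).measurable).mul
      hφ).aestronglyMeasurable
  · refine Eventually.of_forall fun w => ?_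
    rw [norm_mul, Complex.norm_real]
    exact mul_le_mul (hC _ (D_nonneg z w)) (hM w) (norm_nonneg _) hC0

end IsKer

/-- the integral operator of a point-pair invariant -/
def op (κ : ℝ → ℝ) (φ : ℍ → ℂ) (z : ℍ) : ℂ := ∫ w, (κ (D z w) : ℂ) * φ w

theorem op_smul_comp (κ : ℝ → ℝ) (φ : ℍ → ℂ) (g : GL (Fin 2) ℝ) (z : ℍ) :
    op κ (fun w => φ (g • w)) z = op κ φ (g • z) := by
  unfold op
  rw [← integral_smul_eq_self (fun w => (κ (D (g • z) w) : ℂ) * φ w) (g := g)]
  simp only [D_smul]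

theorem IsKer.op_bound {δ : ℝ} {κ : ℝ → ℝ} (hκ : IsKer δ κ) :
    ∃ C, 0 ≤ C ∧ ∀ (φ : ℍ → ℂ) (M : ℝ), 0 ≤ M → (∀ w, ‖φ w‖ ≤ M) → ∀ z, ‖op κ φ z‖ ≤ C * M := by
  obtain ⟨C, hC0, hC⟩ := hκ.bdd
  refine ⟨C * volume.real (disc δ I), by positivity, fun φ M hM0 hM z => ?_⟩
  unfold op
  rw [hκ.eq_indicator z φ, integral_indicator (isClosed_disc δ z).measurableSet]
  have := norm_setIntegral_le_of_norm_le_const (μ := volume) (s := disc δ z)
    (f := fun w => (κ (D z w) : ℂ) * φ w) (C := C * M)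
    (volume_disc_lt_top δ z) (fun w _ => by
      rw [norm_mul, Complex.norm_real]
      exact mul_le_mul (hC _ (D_nonneg z w)) (hM w) (norm_nonneg _) hC0)
  have h2 : volume.real (disc δ z) = volume.real (disc δ I) := by
    unfold Measure.real; rw [volume_disc δ z I]
  rw [h2] at this
  calc _ ≤ _ := this
    _ = _ := by ring

theorem op_add {δ : ℝ} {κ : ℝ → ℝ} (hκ : IsKer δ κ) {φ ψ : ℍ → ℂ} (hφ : Measurable φ)
    (hψ : Measurable ψ) {M N : ℝ} (hM : ∀ w, ‖φ w‖ ≤ M) (hN : ∀ w, ‖ψ w‖ ≤ N) (z : ℍ) :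
    op κ (fun w => φ w + ψ w) z = op κ φ z + op κ ψ z := by
  unfold op
  rw [← integral_add (hκ.integrable hφ hM z) (hκ.integrable hψ hN z)]
  congr 1; ext w; ring

theorem op_const_mul (κ : ℝ → ℝ) (c : ℂ) (φ : ℍ → ℂ) (z : ℍ) :
    op κ (fun w => c * φ w) z = c * op κ φ z := by
  unfold op
  rw [← integral_const_mul]
  congr 1; ext w; ring

/-! ### Two-point homogeneity and commutativity -/

theorem exists_swap (z v : ℍ) : ∃ g : GL (Fin 2) ℝ, g • z = v ∧ g • v = z := by
  have hy := z.im_pos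
  have ht := v.im_pos
  set x := z.re with hx
  set y := z.im with hyy
  set s := v.re with hs
  set t := v.im with htt
  set c : ℝ := y + t with hc
  set a : ℝ := x * t + s * y with ha
  set b : ℝ := c * (x * s - y * t) - a * (x + s) with hb
  have hdet : !![a, b; c, -a].det = y * t * ((s - x) ^ 2 + (y + t) ^ 2) := by
    rw [Matrix.det_fin_two_of, hb, ha, hc]; ring
  have hpos : 0 < !![a, b; c, -a].det := by rw [hdet]; positivity
  set g : GL (Fin 2) ℝ := Matrix.GeneralLinearGroup.mkOfDetNeZero !![a, b; c, -a] hpos.ne' with hg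
  have hgpos : 0 < g.det.val := hpos
  have hz : (z : ℂ) = x + y * Complex.I := by
    apply Complex.ext <;> simp [hx, hyy]
  have hv : (v : ℂ) = s + t * Complex.I := by
    apply Complex.ext <;> simp [hs, htt]
  refine ⟨g, ?_, ?_⟩
  · apply UpperHalfPlane.ext
    rw [coe_smul_of_det_pos hgpos, div_eq_iff (denom_ne_zero g z)]
    have h1 : num g z = a * z + b := rfl
    have h2 : denom g z = c * z + ((-a : ℝ) : ℂ) := rfl
    rw [h1, h2, hz, hv]
    apply Complex.ext
    · simp; rw [hb, ha, hc]; ring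
    · simp; rw [ha, hc]; ring
  · apply UpperHalfPlane.ext
    rw [coe_smul_of_det_pos hgpos, div_eq_iff (denom_ne_zero g v)]
    have h1 : num g v = a * v + b := rfl
    have h2 : denom g v = c * v + ((-a : ℝ) : ℂ) := rfl
    rw [h1, h2, hz, hv]
    apply Complex.ext
    · simp; rw [hb, ha, hc]; ring
    · simp; rw [ha, hc]; ring

theorem swap_integral (κ₁ κ₂ : ℝ → ℝ) (z v : ℍ) :
    ∫ w, ((κ₁ (D z w) : ℂ) * (κ₂ (D w v) : ℂ)) = ∫ w, ((κ₂ (D z w) : ℂ) * (κ₁ (D w v) : ℂ)) := by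
  obtain ⟨g, h1, h2⟩ := exists_swap z v
  rw [← integral_smul_eq_self (fun w => ((κ₂ (D z w) : ℂ) * (κ₁ (D w v) : ℂ))) (g := g)]
  congr 1
  ext w
  have e1 : D z (g • w) = D w v := by
    rw [← h2, D_smul, D_comm]
  have e2 : D (g • w) v = D z w := by
    rw [← h1, D_smul, D_comm]
  rw [e1, e2, mul_comm]

theorem integrable_double {δ₁ δ₂ : ℝ} {κ₁ κ₂ : ℝ → ℝ} (h₁ : IsKer δ₁ κ₁) (h₂ : IsKer δ₂ κ₂)
    {φ : ℍ → ℂ} (hφ : Measurable φ) {M : ℝ} (hM0 : 0 ≤ M) (hM : ∀ w, ‖φ w‖ ≤ M) (z : ℍ) :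
    Integrable (Function.uncurry fun w v => (κ₁ (D z w) : ℂ) * ((κ₂ (D w v) : ℂ) * φ v))
      (volume.prod volume) := by
  obtain ⟨C₁, hC0₁, hC₁⟩ := h₁.bdd
  obtain ⟨C₂, hC0₂, hC₂⟩ := h₂.bdd
  have hmeas : AEStronglyMeasurable
      (Function.uncurry fun w v => (κ₁ (D z w) : ℂ) * ((κ₂ (D w v) : ℂ) * φ v))
      ((volume : Measure ℍ).prod (volume : Measure ℍ)) := by
    have m1 : Measurable fun p : ℍ × ℍ => (κ₁ (D z p.1) : ℂ) :=
      Complex.measurable_ofReal.comp ((h₁.continuous_kernel z).comp continuous_fst).measurable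
    have m2 : Measurable fun p : ℍ × ℍ => (κ₂ (D p.1 p.2) : ℂ) :=
      Complex.measurable_ofReal.comp (h₂.cont.comp continuous_D).measurable
    have m3 : Measurable fun p : ℍ × ℍ => φ p.2 := hφ.comp measurable_snd
    exact (m1.mul (m2.mul m3)).aestronglyMeasurable
  rw [integrable_prod_iff hmeas]
  constructor
  · refine Eventually.of_forall fun w => ?_
    have := (h₂.integrable hφ hM w).const_mul (κ₁ (D z w) : ℂ)
    simpa only [Function.uncurry] using this
  · simp only [Function.uncurry]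
    have hb : ∀ w, ∫ v, ‖(κ₁ (D z w) : ℂ) * ((κ₂ (D w v) : ℂ) * φ v)‖ ≤
        (disc δ₁ z).indicator (fun _ => C₁ * (C₂ * M * volume.real (disc δ₂ I))) w := by
      intro w
      simp only [norm_mul, Complex.norm_real, Real.norm_eq_abs]
      rw [integral_const_mul]
      by_cases hw : w ∈ disc δ₁ z
      · rw [Set.indicator_of_mem hw]
        refine mul_le_mul (hC₁ _ (D_nonneg z w)) ?_ (by positivity) hC0₁
        have e : (fun v => |κ₂ (D w v)| * ‖φ v‖) =
            (disc δ₂ w).indicator (fun v => |κ₂ (D w v)| * ‖φ v‖) := by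
          ext v
          by_cases h : v ∈ disc δ₂ w
          · rw [Set.indicator_of_mem h]
          · rw [Set.indicator_of_notMem h, h₂.supp _ (le_of_lt (not_le.1 h))]; simp
        rw [e, integral_indicator (isClosed_disc δ₂ w).measurableSet]
        have h3 : volume.real (disc δ₂ w) = volume.real (disc δ₂ I) := by
          unfold Measure.real; rw [volume_disc δ₂ w I]
        have := norm_setIntegral_le_of_norm_le_const (μ := volume) (s := disc δ₂ w)
          (f := fun v => |κ₂ (D w v)| * ‖φ v‖) (C := C₂ * M)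
          (volume_disc_lt_top δ₂ w) (fun v _ => by
            rw [Real.norm_eq_abs, abs_mul, abs_abs, abs_norm]
            exact mul_le_mul (hC₂ _ (D_nonneg w v)) (hM v) (norm_nonneg _) hC0₂)
        rw [h3] at this
        exact (le_abs_self _).trans this
      · rw [Set.indicator_of_notMem hw, h₁.supp _ (le_of_lt (not_le.1 hw))]; simp
    refine Integrable.mono' (g := (disc δ₁ z).indicator
      (fun _ => C₁ * (C₂ * M * volume.real (disc δ₂ I)))) ?_ ?_ ?_
    · rw [integrable_indicator_iff (isClosed_disc δ₁ z).measurableSet]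
      exact integrableOn_const (volume_disc_lt_top δ₁ z).ne
    · have := hmeas.norm.integral_prod_right'
      exact this
    · refine Eventually.of_forall fun w => ?_
      rw [Real.norm_eq_abs, abs_of_nonneg (by positivity)]
      exact hb w

theorem op_comm {δ₁ δ₂ : ℝ} {κ₁ κ₂ : ℝ → ℝ} (h₁ : IsKer δ₁ κ₁) (h₂ : IsKer δ₂ κ₂)
    {φ : ℍ → ℂ} (hφ : Measurable φ) {M : ℝ} (hM0 : 0 ≤ M) (hM : ∀ w, ‖φ w‖ ≤ M) (z : ℍ) :
    op κ₁ (op κ₂ φ) z = op κ₂ (op κ₁ φ) z := by
  have key : ∀ {δ₁ δ₂ : ℝ} {κ₁ κ₂ : ℝ → ℝ} (h₁ : IsKer δ₁ κ₁) (h₂ : IsKer δ₂ κ₂),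
      op κ₁ (op κ₂ φ) z = ∫ v, (∫ w, (κ₁ (D z w) : ℂ) * (κ₂ (D w v) : ℂ)) * φ v := by
    intro δ₁ δ₂ κ₁ κ₂ h₁ h₂
    unfold op
    simp only [← integral_const_mul]
    rw [integral_integral_swap (integrable_double h₁ h₂ hφ hM0 hM z)]
    congr 1
    ext v
    rw [← integral_mul_const]
    congr 1
    ext w
    ring
  rw [key h₁ h₂, key h₂ h₁]
  congr 1
  ext v
  rw [swap_integral]

end Pool.Agent.Q18.Hyp
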