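import Pool.Agent.Q18.Hecke

/-!
# Joint eigenvectors; existence of an odd Hecke eigenform
-/

set_option autoImplicit false

open MeasureTheory Filter Topology UpperHalfPlane
open scoped ENNReal MatrixGroups Pointwise ContDiff

noncomputable section

namespace Pool.Agent.Q18.Hyp

theorem exists_joint {E : Type*} [AddCommGroup E] [Module ℂ E] {ι : Type*} (A : ι → E →ₗ[ℂ] E)
    (n : ℕ) : ∀ W : Submodule ℂ E, FiniteDimensional ℂ W → Module.finrank ℂ W ≤ n → W ≠ ⊥ →
    (∀ i, ∀ v ∈ W, A i v ∈ W) → (∀ i j, ∀ v ∈ W, A i (A j v) = A j (A i v)) →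
    ∃ v ∈ W, v ≠ 0 ∧ ∀ i, ∃ a : ℂ, A i v = a • v := by
  induction n with
  | zero =>
    intro W hfin hn hW
    exfalso
    apply hW
    exact Submodule.finrank_eq_zero.1 (Nat.le_zero.1 hn)
  | succ n ih =>
    intro W hfin hn hW hinv hcomm
    by_cases hs : ∀ i, ∃ a : ℂ, ∀ v ∈ W, A i v = a • v
    · obtain ⟨v, hv, hv0⟩ := Submodule.exists_mem_ne_zero_of_ne_bot hW
      exact ⟨v, hv, hv0, fun i => (hs i).imp fun a ha => ha v hv⟩
    · push Not at hs
      obtain ⟨i, hi⟩ := hs
      have hnt : Nontrivial W := Submodule.nontrivial_iff_ne_bot.2 hW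
      obtain ⟨a, ha⟩ := Module.End.exists_eigenvalue ((A i).restrict (hinv i))
      obtain ⟨v, hv⟩ := ha.exists_hasEigenvector
      obtain ⟨w, hw, hwa⟩ := hi a
      set W' : Submodule ℂ E := W ⊓ LinearMap.ker (A i - a • LinearMap.id) with hW'
      have hmem : ∀ x, x ∈ W' ↔ x ∈ W ∧ A i x = a • x := by
        intro x
        rw [hW', Submodule.mem_inf, LinearMap.mem_ker]
        simp [sub_eq_zero]
      have hle : W' ≤ W := inf_le_left
      have hlt : W' < W := by
        refine lt_of_le_of_ne hle fun h => hwa ?_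
        rw [← h] at hw
        exact ((hmem w).1 hw).2
      have hfin' : FiniteDimensional ℂ W' := Submodule.finiteDimensional_of_le hle
      have hrank := Submodule.finrank_lt_finrank_of_lt hlt
      have g1 : W' ≠ ⊥ := by
        intro h
        have hvm : (v : E) ∈ W' := by
          rw [hmem]
          refine ⟨v.2, ?_⟩
          have := hv.apply_eq_smul
          exact congrArg Subtype.val this
        rw [h, Submodule.mem_bot] at hvm
        exact hv.2 (Subtype.ext hvm)
      have g2 : ∀ j, ∀ x ∈ W', A j x ∈ W' := by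
        intro j x hx
        rw [hmem] at hx ⊢
        refine ⟨hinv j x hx.1, ?_⟩
        rw [hcomm i j x hx.1, hx.2, map_smul]
      obtain ⟨u, hu, hu0, hua⟩ := ih W' hfin' (by omega) g1 g2 fun j k x hx => hcomm j k x (hle hx)
      exact ⟨u, hle hu, hu0, hua⟩

/-- the Laplacian kernel operator as a linear map on bounded measurable functions -/
theorem exists_form : ∃ (φ : ℍ → ℂ) (μ σ : ℂ) (lam : ℕ → ℂ), μ ≠ 0 ∧ φ ≠ 0 ∧ Measurable φ ∧
    (∃ M, ∀ w, ‖φ w‖ ≤ M) ∧ (∀ (γ : SL(2, ℤ)) w, φ (γ • w) = φ w) ∧ (∀ w, φ (J • w) = - φ w) ∧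
    (∀ z, op kap φ z = μ * φ z) ∧ (∀ z, op (sharp kap) φ z = σ * φ z) ∧
    ∀ p : ℕ, p.Prime → ∀ z, hecke p φ z = lam p * φ z := by
  obtain ⟨μ, hμ0, hV, hfin⟩ := exists_eigen
  set W := V kap ⟨_, kap_ker.isKer⟩ μ with hW
  -- restrict to the type of `W`
  let A : Option Nat.Primes → W →ₗ[ℂ] W := fun i => match i with
    | none =>
      { toFun := fun φ => ⟨op (sharp kap) φ.1, op_mem_V kap_ker.sharp φ.2⟩
        map_add' := fun a b => by
          obtain ⟨ha1, ⟨Ma, ha2⟩, -⟩ := a.2
          obtain ⟨hb1, ⟨Mb, hb2⟩, -⟩ := b.2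
          apply Subtype.ext
          funext z
          exact op_add kap_ker.sharp.isKer ha1 hb1 ha2 hb2 z
        map_smul' := fun c a => by
          apply Subtype.ext
          funext z
          exact op_const_mul (sharp kap) c a.1 z }
    | some p =>
      { toFun := fun φ => ⟨heckeL p.1 φ.1, hecke_mem_V p.2 φ.2⟩
        map_add' := fun a b => by
          apply Subtype.ext
          exact map_add (heckeL p.1) a.1 b.1
        map_smul' := fun c a => by
          apply Subtype.ext
          exact map_smul (heckeL p.1) c a.1 }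
  have hcomm : ∀ i j, ∀ v : W, A i (A j v) = A j (A i v) := by
    have hop : ∀ (p : Nat.Primes) (v : W), A none (A (some p) v) = A (some p) (A none v) := by
      intro p v
      obtain ⟨h1, ⟨M, h2⟩, -⟩ := v.2
      apply Subtype.ext
      funext z
      exact op_hecke kap_ker.sharp.isKer h1 h2 p.2.pos z
    intro i j v
    rcases i with _ | p <;> rcases j with _ | q
    · rfl
    · exact hop q v
    · exact (hop p v).symm
    · by_cases hpq : p = q
      · rw [hpq]
      · obtain ⟨h1, ⟨M, h2⟩, h3, -⟩ := v.2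
        apply Subtype.ext
        funext z
        refine hecke_comm h3 p.2.pos q.2.pos ?_ z
        exact (Nat.coprime_primes p.2 q.2).2 (fun h => hpq (Subtype.ext h))
  have hWnt : (⊤ : Submodule ℂ W) ≠ ⊥ := by
    have : Nontrivial W := Submodule.nontrivial_iff_ne_bot.2 hV
    exact top_ne_bot
  obtain ⟨v, -, hv0, hv⟩ := exists_joint A _ ⊤ inferInstance le_rfl hWnt
    (fun i v _ => Submodule.mem_top) (fun i j v _ => hcomm i j v)
  obtain ⟨h1, h2, h3, h4, h5⟩ := v.2
  obtain ⟨σ, hσ⟩ := hv none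
  choose lam hlam using fun p : Nat.Primes => hv (some p)
  refine ⟨v.1, μ, σ, fun p => if hp : p.Prime then lam ⟨p, hp⟩ else 0, hμ0,
    fun h => hv0 (Subtype.ext h), h1, h2, h3, h4, h5, fun z => ?_, fun p hp z => ?_⟩
  · exact congrFun (congrArg Subtype.val hσ) z
  · show _ = (if hp : p.Prime then lam ⟨p, hp⟩ else 0) * _
    simp only [hp, dite_true]
    exact congrFun (congrArg Subtype.val (hlam ⟨p, hp⟩)) z

end Pool.Agent.Q18.Hyp
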