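import Pool.Agent.Q18.Hyp

/-!
# The automorphic kernel for `SL(2, ℤ)` and its odd part
-/

set_option autoImplicit false

open MeasureTheory Filter Topology UpperHalfPlane
open scoped ENNReal MatrixGroups Pointwise

noncomputable section

namespace Pool.Agent.Q18.Hyp

theorem smul_eq (γ : SL(2, ℤ)) (z : ℍ) :
    γ • z = (Matrix.SpecialLinearGroup.mapGL ℝ γ : GL (Fin 2) ℝ) • z := rfl

theorem finite_SL {A B : Set ℍ} (hA : IsCompact A) (hB : IsCompact B) :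
    {γ : SL(2, ℤ) | ∃ w ∈ B, γ • w ∈ A}.Finite := by
  have h := properlyDiscontinuousSL2ZRange.finite_disjoint_inter_image hB hA
  have hinj : Function.Injective (fun γ : SL(2, ℤ) =>
      (⟨Matrix.SpecialLinearGroup.mapGL ℝ γ, ⟨γ, rfl⟩⟩ :
        MonoidHom.range (Matrix.SpecialLinearGroup.mapGL ℝ : SL(2, ℤ) →* GL (Fin 2) ℝ))) := by
    intro a b hab
    have := congrArg Subtype.val hab
    exact Matrix.SpecialLinearGroup.mapGL_injective this
  refine (h.preimage hinj.injOn).subset ?_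
  rintro γ ⟨w, hw, hγ⟩
  exact ⟨γ • w, ⟨w, hw, rfl⟩, hγ⟩

/-- conjugation by the reflection -/
def Jc : SL(2, ℤ) ≃ SL(2, ℤ) where
  toFun γ := ⟨!![γ 0 0, -γ 0 1; -γ 1 0, γ 1 1], by
    have := γ.det_coe
    rw [Matrix.det_fin_two] at this
    rw [Matrix.det_fin_two_of]; linarith⟩
  invFun γ := ⟨!![γ 0 0, -γ 0 1; -γ 1 0, γ 1 1], by
    have := γ.det_coe
    rw [Matrix.det_fin_two] at this
    rw [Matrix.det_fin_two_of]; linarith⟩
  left_inv γ := by ext i j; fin_cases i <;> fin_cases j <;> simp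
  right_inv γ := by ext i j; fin_cases i <;> fin_cases j <;> simp

theorem J_J (z : ℍ) : J • J • z = z := by
  rw [smul_smul, ← sq, J_sq, one_smul]

theorem J_re (z : ℍ) : (J • z).re = - z.re := by
  have := congrArg Complex.re (coe_J_smul z)
  simpa using this

theorem J_im (z : ℍ) : (J • z).im = z.im := by
  have := congrArg Complex.im (coe_J_smul z)
  simpa using this

theorem J_smul_smul (γ : SL(2, ℤ)) (z : ℍ) : J • γ • z = Jc γ • J • z := by
  apply UpperHalfPlane.ext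
  rw [coe_J_smul, coe_specialLinearGroup_apply, coe_specialLinearGroup_apply, coe_J_smul]
  simp only [Jc, Equiv.coe_fn_mk, Matrix.SpecialLinearGroup.coe_mk, Matrix.of_apply,
    Matrix.cons_val', Matrix.cons_val_zero, Matrix.cons_val_one, Matrix.cons_val_fin_one,
    map_div₀, map_add, map_mul, Complex.conj_ofReal, map_neg, Complex.ofReal_neg]
  rw [← neg_div]
  congr 1 <;> ring

variable {δ : ℝ} {κ : ℝ → ℝ}

/-- the automorphic kernel -/
def K0 (κ : ℝ → ℝ) (z w : ℍ) : ℝ := ∑' γ : SL(2, ℤ), κ (D z (γ • w))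

theorem finite_support (hκ : IsKer δ κ) (z w : ℍ) :
    (Function.support fun γ : SL(2, ℤ) => κ (D z (γ • w))).Finite := by
  refine (finite_SL (isCompact_disc δ z) (isCompact_singleton (x := w))).subset ?_
  intro γ hγ
  refine ⟨w, rfl, ?_⟩
  by_contra hcon
  exact hγ (hκ.supp _ (le_of_lt (not_le.1 hcon)))

theorem summable_K0 (hκ : IsKer δ κ) (z w : ℍ) : Summable fun γ : SL(2, ℤ) => κ (D z (γ • w)) :=
  summable_of_hasFiniteSupport (finite_support hκ z w)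

theorem continuous_K0 (hκ : IsKer δ κ) : Continuous (Function.uncurry (K0 κ)) := by
  have h : (Function.uncurry (K0 κ)) = fun p : ℍ × ℍ => ∑ᶠ γ : SL(2, ℤ), κ (D p.1 (γ • p.2)) := by
    ext p
    exact tsum_eq_finsum (finite_support hκ p.1 p.2)
  rw [h]
  refine continuous_finsum (fun γ => ?_) ?_
  · have h1 : Continuous fun p : ℍ × ℍ => (p.1, γ • p.2) := by
      refine continuous_fst.prodMk ?_
      exact (continuous_const_smul (Matrix.SpecialLinearGroup.mapGL ℝ γ : GL (Fin 2) ℝ)).comp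
        continuous_snd
    exact hκ.cont.comp (continuous_D.comp h1)
  · rintro ⟨z₀, w₀⟩
    refine ⟨Metric.ball z₀ 1 ×ˢ Metric.ball w₀ 1,
      prod_mem_nhds (Metric.ball_mem_nhds _ one_pos) (Metric.ball_mem_nhds _ one_pos), ?_⟩
    refine (finite_SL (isCompact_closedBall z₀ (√(2 * δ) + 1)) (isCompact_closedBall w₀ 1)).subset ?_
    rintro γ ⟨⟨z, w⟩, hs, hz, hw⟩
    refine ⟨w, Metric.ball_subset_closedBall hw, ?_⟩
    have h1 : γ • w ∈ disc δ z := by
      by_contra hcon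
      exact hs (hκ.supp _ (le_of_lt (not_le.1 hcon)))
    have h2 := disc_subset _ _ h1
    have h3 : dist z z₀ < 1 := hz
    rw [Metric.mem_closedBall] at h2 ⊢
    calc dist (γ • w) z₀ ≤ dist (γ • w) z + dist z z₀ := dist_triangle _ _ _
      _ ≤ √(2 * δ) + 1 := by linarith

theorem K0_comm (z w : ℍ) : K0 κ z w = K0 κ w z := by
  unfold K0
  rw [← (Equiv.inv SL(2, ℤ)).tsum_eq]
  congr 1
  ext γ
  rw [Equiv.inv_apply, D_comm w, D_smul_left]

theorem K0_smul_left (g : SL(2, ℤ)) (z w : ℍ) : K0 κ (g • z) w = K0 κ z w := by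
  unfold K0
  rw [← (Equiv.mulLeft g).tsum_eq]
  congr 1
  ext γ
  rw [Equiv.coe_mulLeft, mul_smul, D_smul_SL]

theorem K0_smul_right (g : SL(2, ℤ)) (z w : ℍ) : K0 κ z (g • w) = K0 κ z w := by
  rw [K0_comm, K0_smul_left, K0_comm]

theorem K0_J (z w : ℍ) : K0 κ (J • z) (J • w) = K0 κ z w := by
  unfold K0
  rw [← Jc.tsum_eq]
  congr 1
  ext γ
  rw [← J_smul_smul, D_smul]

theorem K0_J' (z w : ℍ) : K0 κ (J • z) w = K0 κ z (J • w) := by
  rw [← K0_J z (J • w), J_J]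

/-- the odd part of the automorphic kernel -/
def K (κ : ℝ → ℝ) (z w : ℍ) : ℝ := K0 κ z w - K0 κ z (J • w)

theorem continuous_K (hκ : IsKer δ κ) : Continuous (Function.uncurry (K κ)) := by
  refine (continuous_K0 hκ).sub ((continuous_K0 hκ).comp ?_ : Continuous fun p : ℍ × ℍ =>
    Function.uncurry (K0 κ) (p.1, J • p.2))
  exact continuous_fst.prodMk ((continuous_const_smul J).comp continuous_snd)

theorem K_comm (z w : ℍ) : K κ z w = K κ w z := by
  unfold K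
  rw [K0_comm z w, K0_comm z (J • w), K0_J']

theorem K_smul_left (g : SL(2, ℤ)) (z w : ℍ) : K κ (g • z) w = K κ z w := by
  unfold K
  rw [K0_smul_left, K0_smul_left]

theorem K_smul_right (g : SL(2, ℤ)) (z w : ℍ) : K κ z (g • w) = K κ z w := by
  rw [K_comm, K_smul_left, K_comm]

theorem K_J_left (z w : ℍ) : K κ (J • z) w = - K κ z w := by
  unfold K
  rw [K0_J, K0_J']; ring

/-! ### Boundedness of the odd kernel -/

theorem smul_eqs (γ : SL(2, ℤ)) (w : ℍ) :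
    (γ • w).re * ((γ 1 0 : ℝ) * w.re + γ 1 1) - (γ • w).im * ((γ 1 0 : ℝ) * w.im) =
      (γ 0 0 : ℝ) * w.re + γ 0 1 ∧
    (γ • w).re * ((γ 1 0 : ℝ) * w.im) + (γ • w).im * ((γ 1 0 : ℝ) * w.re + γ 1 1) =
      (γ 0 0 : ℝ) * w.im ∧
    (γ • w).im * (((γ 1 0 : ℝ) * w.re + γ 1 1) ^ 2 + ((γ 1 0 : ℝ) * w.im) ^ 2) = w.im := by
  have h0 := coe_specialLinearGroup_apply γ w
  have hden : ((algebraMap ℤ ℝ (γ 1 0) : ℂ) * w + (algebraMap ℤ ℝ (γ 1 1) : ℂ)) ≠ 0 :=
    denom_ne_zero (Matrix.SpecialLinearGroup.mapGL ℝ γ : GL (Fin 2) ℝ) w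
  rw [eq_div_iff hden] at h0
  generalize γ • w = Z at h0 ⊢
  have hre := congrArg Complex.re h0
  have him := congrArg Complex.im h0
  simp at hre him
  have hdet : (γ 0 0 : ℝ) * γ 1 1 - (γ 0 1 : ℝ) * γ 1 0 = 1 := by
    have := γ.det_coe
    rw [Matrix.det_fin_two] at this
    exact_mod_cast this
  refine ⟨by linarith, by linarith, ?_⟩
  have e1 : Z.re * ((γ 1 0 : ℝ) * w.re + γ 1 1) - Z.im * ((γ 1 0 : ℝ) * w.im) =
      (γ 0 0 : ℝ) * w.re + γ 0 1 := by linarith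
  have e2 : Z.re * ((γ 1 0 : ℝ) * w.im) + Z.im * ((γ 1 0 : ℝ) * w.re + γ 1 1) =
      (γ 0 0 : ℝ) * w.im := by linarith
  linear_combination ((γ 1 0 : ℝ) * w.re + γ 1 1) * e2 - ((γ 1 0 : ℝ) * w.im) * e1 + w.im * hdet

/-- a region containing the fundamental domain -/
def Reg : Set ℍ := {z | |z.re| ≤ 1 / 2 ∧ 3 ≤ 4 * z.im ^ 2}

theorem fd_subset_Reg : ModularGroup.fd ⊆ Reg := fun _ hz =>
  ⟨hz.2, ModularGroup.three_le_four_mul_im_sq_of_mem_fd hz⟩

theorem J_mem_Reg {z : ℍ} (hz : z ∈ Reg) : J • z ∈ Reg := by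
  refine ⟨?_, ?_⟩
  · rw [J_re, abs_neg]; exact hz.1
  · rw [J_im]; exact hz.2

theorem Reg_im {z : ℍ} (hz : z ∈ Reg) : 4 / 5 ≤ z.im := by
  have h1 := hz.2
  have h2 := z.im_pos
  by_contra hcon
  nlinarith

theorem D_lt {z w : ℍ} {δ : ℝ} (h : D z w < δ) :
    (z.re - w.re) ^ 2 + (z.im - w.im) ^ 2 < 2 * δ * (z.im * w.im) := by
  have h1 := z.im_pos
  have h2 := w.im_pos
  unfold D at h
  rw [div_lt_iff₀ (by positivity)] at h
  linarith

theorem entries_bound {z w : ℍ} (hz : z ∈ Reg) (hw : w ∈ Reg) {γ : SL(2, ℤ)} (hc : γ 1 0 ≠ 0)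
    (hD : D z (γ • w) < 1 / 2) : ∀ i j, |γ i j| ≤ 30 := by
  obtain ⟨e1, e2, e3⟩ := smul_eqs γ w
  have h3 := D_lt hD
  have hy := Reg_im hz
  have hv := Reg_im hw
  have hx := abs_le.1 hz.1
  have hu := abs_le.1 hw.1
  have hV := (γ • w).im_pos
  set X := (γ • w).re
  set V := (γ • w).im
  set x := z.re
  set y := z.im
  set u := w.re
  set v := w.im
  set a := γ 0 0
  set b := γ 0 1
  set c := γ 1 0
  set d := γ 1 1
  have hc2 : (1 : ℝ) ≤ (c : ℝ) ^ 2 := by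
    have : (1 : ℤ) ≤ c ^ 2 := by
      have := Int.one_le_abs hc
      nlinarith [sq_abs c, abs_nonneg c]
    exact_mod_cast this
  have hy3 : y < 3 * V := by
    by_contra hcon
    nlinarith [sq_nonneg (x - X)]
  have hVv : V * v * (c : ℝ) ^ 2 ≤ 1 := by
    have : V * ((c : ℝ) * v) ^ 2 ≤ v := by
      nlinarith [sq_nonneg ((c : ℝ) * u + d), mul_nonneg hV.le (sq_nonneg ((c : ℝ) * u + d))]
    have h5 : (V * v * (c : ℝ) ^ 2) * v ≤ 1 * v := by nlinarith
    exact le_of_mul_le_mul_right h5 (by linarith)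
  have hVv1 : V * v ≤ 1 := by nlinarith [mul_pos hV (by linarith : 0 < v)]
  have hV1 : V ≤ 5 / 4 := by nlinarith
  have hV2 : 4 / 15 < V := by linarith
  have hv4 : v < 4 := by nlinarith
  have hc5 : (c : ℝ) ^ 2 < 5 := by
    by_contra hcon
    nlinarith [mul_pos hV (by linarith : 0 < v)]
  have hcabs : |(c : ℝ)| ≤ 3 := by
    apply abs_le_of_sq_le_sq _ (by norm_num)
    linarith
  have hs : ((c : ℝ) * u + d) ^ 2 + ((c : ℝ) * v) ^ 2 ≤ 16 := by
    by_contra hcon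
    nlinarith
  have hcd : |(c : ℝ) * u + d| ≤ 4 := by
    apply abs_le_of_sq_le_sq _ (by norm_num)
    nlinarith [sq_nonneg ((c : ℝ) * v)]
  have hcv : |(c : ℝ) * v| ≤ 4 := by
    apply abs_le_of_sq_le_sq _ (by norm_num)
    nlinarith [sq_nonneg ((c : ℝ) * u + d)]
  have hXx : |x - X| ≤ 5 / 2 := by
    apply abs_le_of_sq_le_sq _ (by norm_num)
    nlinarith [sq_nonneg (y - V)]
  have hXb : |X| ≤ 3 := by
    have := abs_le.1 hXx
    rw [abs_le]; constructor <;> linarith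
  have hcu : |(c : ℝ) * u| ≤ 3 / 2 := by
    rw [abs_mul]
    have : |u| ≤ 1 / 2 := abs_le.2 hu
    nlinarith [abs_nonneg (c : ℝ), abs_nonneg u]
  have hd : |(d : ℝ)| ≤ 6 := by
    have h1 := abs_le.1 hcd
    have h2 := abs_le.1 hcu
    rw [abs_le]; constructor <;> linarith
  have p1 : |X * ((c : ℝ) * v)| ≤ 12 := by
    rw [abs_mul]; nlinarith [abs_nonneg X, abs_nonneg ((c : ℝ) * v)]
  have p2 : |V * ((c : ℝ) * u + d)| ≤ 5 := by
    rw [abs_mul, abs_of_pos hV]; nlinarith [abs_nonneg ((c : ℝ) * u + d)]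
  have p3 : |X * ((c : ℝ) * u + d)| ≤ 12 := by
    rw [abs_mul]; nlinarith [abs_nonneg X, abs_nonneg ((c : ℝ) * u + d)]
  have p4 : |V * ((c : ℝ) * v)| ≤ 5 := by
    rw [abs_mul, abs_of_pos hV]; nlinarith [abs_nonneg ((c : ℝ) * v)]
  have hav : |(a : ℝ) * v| ≤ 17 := by
    have h1 := abs_le.1 p1
    have h2 := abs_le.1 p2
    rw [← e2, abs_le]; constructor <;> linarith
  have ha : |(a : ℝ)| ≤ 22 := by
    rw [abs_mul, abs_of_pos (by linarith : 0 < v)] at hav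
    nlinarith [abs_nonneg (a : ℝ)]
  have haub : |(a : ℝ) * u + b| ≤ 17 := by
    have h1 := abs_le.1 p3
    have h2 := abs_le.1 p4
    rw [← e1, abs_le]; constructor <;> linarith
  have hau : |(a : ℝ) * u| ≤ 11 := by
    rw [abs_mul]
    have : |u| ≤ 1 / 2 := abs_le.2 hu
    nlinarith [abs_nonneg (a : ℝ), abs_nonneg u]
  have hb : |(b : ℝ)| ≤ 28 := by
    have h1 := abs_le.1 haub
    have h2 := abs_le.1 hau
    rw [abs_le]; constructor <;> linarith
  have fin : ∀ n : ℤ, |(n : ℝ)| ≤ 30 → |n| ≤ 30 := fun n hn => by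
    rw [← Int.cast_abs] at hn; exact_mod_cast hn
  intro i j
  fin_cases i <;> fin_cases j
  · exact fin a (by linarith)
  · exact fin b (by linarith)
  · exact fin c (by linarith)
  · exact fin d (by linarith)

theorem finite_box : {γ : SL(2, ℤ) | ∀ i j, |γ i j| ≤ 30}.Finite := by
  have h : {f : Fin 2 → Fin 2 → ℤ | ∀ i, f i ∈ {g : Fin 2 → ℤ | ∀ j, g j ∈ Set.Icc (-30 : ℤ) 30}}.Finite :=
    Set.Finite.pi' fun i => Set.Finite.pi' fun j => Set.finite_Icc _ _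
  have hinj : Function.Injective (fun γ : SL(2, ℤ) => (fun i j => γ i j : Fin 2 → Fin 2 → ℤ)) := by
    intro a b hab
    ext i j
    exact congrFun (congrFun hab i) j
  refine (h.preimage hinj.injOn).subset ?_
  intro γ hγ i j
  exact abs_le.1 (hγ i j)

/-- elements with `c = 0` -/
theorem smul_of_c_zero {γ : SL(2, ℤ)} (hc : γ 1 0 = 0) (w : ℍ) :
    (γ 0 0 = 1 ∨ γ 0 0 = -1) ∧ (γ • w).re = w.re + ((γ 0 0 * γ 0 1 : ℤ) : ℝ) ∧ (γ • w).im = w.im := by
  obtain ⟨e1, e2, e3⟩ := smul_eqs γ w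
  have hdet : γ 0 0 * γ 1 1 = 1 := by
    have := γ.det_coe
    rw [Matrix.det_fin_two, hc] at this
    linarith
  have h1 := Int.eq_one_or_neg_one_of_mul_eq_one hdet
  have h2 : γ 1 1 = γ 0 0 := by
    rcases h1 with h | h <;> rw [h] at hdet ⊢ <;> linarith
  rw [hc, h2] at e1 e3
  have h3 : ((γ 0 0 : ℤ) : ℝ) ^ 2 = 1 := by
    rcases h1 with h | h <;> rw [h] <;> norm_num
  have him : (γ • w).im = w.im := by
    have : (γ • w).im * ((γ 0 0 : ℤ) : ℝ) ^ 2 = w.im := by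
      rw [← e3]; push_cast; ring
    rwa [h3, mul_one] at this
  refine ⟨h1, ?_, him⟩
  push_cast at e1 ⊢
  have : ((γ 0 0 : ℤ) : ℝ) * ((γ • w).re * (γ 0 0 : ℤ)) =
      ((γ 0 0 : ℤ) : ℝ) * ((γ 0 0 : ℤ) * w.re + (γ 0 1 : ℤ)) := by
    rw [← e1]; ring
  have h4 : ((γ 0 0 : ℤ) : ℝ) ^ 2 * (γ • w).re = ((γ 0 0 : ℤ) : ℝ) ^ 2 * w.re +
      ((γ 0 0 : ℤ) : ℝ) * (γ 0 1 : ℤ) := by linarith
  rw [h3] at h4
  linarith

end Pool.Agent.Q18.Hyp
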