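import Pool.Agent.Q18.Kernel

/-!
# Boundedness of the odd kernel; the invariant measure
-/

set_option autoImplicit false

open MeasureTheory Filter Topology UpperHalfPlane
open scoped ENNReal MatrixGroups Pointwise

noncomputable section

namespace Pool.Agent.Q18.Hyp

variable {δ : ℝ} {κ : ℝ → ℝ}

theorem card_Icc_le (x R : ℝ) (hR : 0 ≤ R) : ((Finset.Icc ⌈x - R⌉ ⌊x + R⌋).card : ℝ) ≤ 2 * R + 1 := by
  rw [Int.card_Icc]
  rcases le_total 0 (⌊x + R⌋ + 1 - ⌈x - R⌉) with h | h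
  · have h1 : (((⌊x + R⌋ + 1 - ⌈x - R⌉).toNat : ℕ) : ℝ) = ((⌊x + R⌋ + 1 - ⌈x - R⌉ : ℤ) : ℝ) := by
      exact_mod_cast congrArg (fun n : ℤ => (n : ℝ)) (Int.toNat_of_nonneg h)
    rw [h1]
    push_cast
    have h2 := Int.floor_le (x + R)
    have h3 := Int.le_ceil (x - R)
    linarith
  · rw [Int.toNat_of_nonpos h]
    simp; positivity

/-- the summand of the odd kernel -/
def aterm (κ : ℝ → ℝ) (z w : ℍ) (γ : SL(2, ℤ)) : ℝ := κ (D z (γ • w)) - κ (D z (γ • J • w))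

theorem K_eq_tsum (hκ : IsKer δ κ) (z w : ℍ) : K κ z w = ∑' γ, aterm κ z w γ := by
  unfold K K0 aterm
  rw [(summable_K0 hκ z w).tsum_sub (summable_K0 hκ z (J • w))]

theorem aterm_support (hκ : IsKer δ κ) (z w : ℍ) : (Function.support (aterm κ z w)).Finite := by
  refine ((finite_support hκ z w).union (finite_support hκ z (J • w))).subset ?_
  intro γ hγ
  by_contra hcon
  rw [Set.mem_union, not_or, Function.notMem_support, Function.notMem_support] at hcon
  exact hγ (by unfold aterm; rw [hcon.1, hcon.2, sub_zero])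

theorem aterm_ne (hκ : IsKer δ κ) {z w : ℍ} {γ : SL(2, ℤ)} (h : aterm κ z w γ ≠ 0) :
    D z (γ • w) < δ ∨ D z (γ • J • w) < δ := by
  by_contra hcon
  rw [not_or, not_lt, not_lt] at hcon
  exact h (by unfold aterm; rw [hκ.supp _ hcon.1, hκ.supp _ hcon.2, sub_zero])

theorem K_bound_Reg (hκ : IsKer δ κ) (hδ0 : 0 < δ) (hδ : δ ≤ 1 / 2) {L : ℝ} (hL0 : 0 ≤ L)
    (hL : ∀ s t, 0 ≤ s → 0 ≤ t → |κ s - κ t| ≤ L * |s - t|) :
    ∃ C, ∀ z ∈ Reg, ∀ w ∈ Reg, |K κ z w| ≤ C := by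
  classical
  obtain ⟨C₀, hC0, hC⟩ := hκ.bdd
  refine ⟨finite_box.toFinset.card * (2 * C₀) + 8 * (2 * δ + 2) * L, fun z hz w hw => ?_⟩
  set Sf := (aterm_support hκ z w).toFinset with hSf
  have hsum : K κ z w = ∑ γ ∈ Sf, aterm κ z w γ := by
    rw [K_eq_tsum hκ]
    refine tsum_eq_sum fun γ hγ => ?_
    by_contra hcon
    exact hγ ((aterm_support hκ z w).mem_toFinset.2 hcon)
  have hne : ∀ γ ∈ Sf, aterm κ z w γ ≠ 0 := fun γ hγ => (aterm_support hκ z w).mem_toFinset.1 hγ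
  rw [hsum, ← Finset.sum_filter_add_sum_filter_not Sf (fun γ => γ 1 0 ≠ 0)]
  refine (abs_add_le _ _).trans (add_le_add ?_ ?_)
  · -- `c ≠ 0`
    refine (Finset.abs_sum_le_sum_abs _ _).trans ?_
    have h1 : (Sf.filter fun γ => γ 1 0 ≠ 0) ⊆ finite_box.toFinset := by
      intro γ hγ
      rw [Finset.mem_filter] at hγ
      rw [Set.Finite.mem_toFinset]
      rcases aterm_ne hκ (hne γ hγ.1) with h | h
      · exact entries_bound hz hw hγ.2 (h.trans_le hδ)
      · exact entries_bound hz (J_mem_Reg hw) hγ.2 (h.trans_le hδ)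
    have h2 : ∀ γ ∈ (Sf.filter fun γ => γ 1 0 ≠ 0), |aterm κ z w γ| ≤ 2 * C₀ := by
      intro γ _
      unfold aterm
      refine (abs_sub _ _).trans ?_
      linarith [hC _ (D_nonneg z (γ • w)), hC _ (D_nonneg z (γ • J • w))]
    refine (Finset.sum_le_card_nsmul _ _ _ h2).trans ?_
    rw [nsmul_eq_mul]
    refine mul_le_mul_of_nonneg_right ?_ (by positivity)
    exact_mod_cast Finset.card_le_card h1
  · -- `c = 0`
    have hy := Reg_im hz
    have hv := Reg_im hw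
    have hu := abs_le.1 hw.1
    set x := z.re
    set y := z.im
    set u := w.re
    set v := w.im
    have hyv : 1 / 2 ≤ y * v := by nlinarith
    have hyv0 : 0 < y * v := by linarith
    set Q := √(2 * δ * (y * v)) with hQ
    have hQ0 : 0 ≤ Q := Real.sqrt_nonneg _
    have hQ2 : Q ^ 2 = 2 * δ * (y * v) := Real.sq_sqrt (by positivity)
    set R := Q + 1 / 2 with hR
    have hR0 : 0 ≤ R := by positivity
    -- position of the nonzero terms
    have hpos : ∀ γ ∈ (Sf.filter fun γ => ¬ γ 1 0 ≠ 0), γ 1 0 = 0 ∧ (γ 0 0 = 1 ∨ γ 0 0 = -1) ∧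
        |x - ((γ 0 0 * γ 0 1 : ℤ) : ℝ)| ≤ R := by
      intro γ hγ
      rw [Finset.mem_filter, not_not] at hγ
      obtain ⟨h1, h2, h3⟩ := smul_of_c_zero hγ.2 w
      obtain ⟨-, h4, h5⟩ := smul_of_c_zero hγ.2 (J • w)
      rw [J_re] at h4
      rw [J_im] at h5
      refine ⟨hγ.2, h1, ?_⟩
      rcases aterm_ne hκ (hne γ hγ.1) with h | h
      · have h6 := D_lt h
        rw [h2, h3] at h6
        have h7 : |z.re - (w.re + ((γ 0 0 * γ 0 1 : ℤ) : ℝ))| ≤ Q := by
          apply abs_le_of_sq_le_sq _ hQ0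
          rw [hQ2]; nlinarith [sq_nonneg (z.im - w.im)]
        have h8 := abs_le.1 h7
        change |z.re - ((γ 0 0 * γ 0 1 : ℤ) : ℝ)| ≤ R
        rw [abs_le]; constructor <;> linarith
      · have h6 := D_lt h
        rw [h4, h5] at h6
        have h7 : |z.re - (-w.re + ((γ 0 0 * γ 0 1 : ℤ) : ℝ))| ≤ Q := by
          apply abs_le_of_sq_le_sq _ hQ0
          rw [hQ2]; nlinarith [sq_nonneg (z.im - w.im)]
        have h8 := abs_le.1 h7
        change |z.re - ((γ 0 0 * γ 0 1 : ℤ) : ℝ)| ≤ R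
        rw [abs_le]; constructor <;> linarith
    have hcard : ((Sf.filter fun γ => ¬ γ 1 0 ≠ 0).card : ℝ) ≤ 2 * (2 * R + 1) := by
      have hinj : Set.InjOn (fun γ : SL(2, ℤ) => (γ 0 0, γ 0 0 * γ 0 1))
          ((Sf.filter fun γ => ¬ γ 1 0 ≠ 0 : Finset _) : Set SL(2, ℤ)) := by
        intro γ hγ γ' hγ' h
        obtain ⟨a1, a2, -⟩ := hpos γ hγ
        obtain ⟨b1, b2, -⟩ := hpos γ' hγ'
        have h1 : γ 0 0 = γ' 0 0 := congrArg Prod.fst h
        have h2 : γ 0 0 * γ 0 1 = γ' 0 0 * γ' 0 1 := congrArg Prod.snd h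
        have h3 : γ 0 1 = γ' 0 1 := by
          rw [← h1] at h2
          rcases a2 with a | a <;> rw [a] at h2 <;> linarith
        have d1 := γ.det_coe
        have d2 := γ'.det_coe
        rw [Matrix.det_fin_two] at d1 d2
        rw [a1] at d1
        rw [b1, ← h1] at d2
        have h4 : γ 1 1 = γ' 1 1 := by
          rcases a2 with a | a <;> rw [a] at d1 d2 <;> linarith
        ext i j
        fin_cases i <;> fin_cases j
        · exact h1
        · exact h3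
        · exact a1.trans b1.symm
        · exact h4
      have hmaps : ∀ γ ∈ (Sf.filter fun γ => ¬ γ 1 0 ≠ 0), (γ 0 0, γ 0 0 * γ 0 1) ∈
          (({1, -1} : Finset ℤ) ×ˢ Finset.Icc ⌈x - R⌉ ⌊x + R⌋) := by
        intro γ hγ
        obtain ⟨a1, a2, a3⟩ := hpos γ hγ
        rw [Finset.mem_product, Finset.mem_Icc]
        refine ⟨by simp [a2], ?_, ?_⟩
        · rw [Int.ceil_le]; linarith [(abs_le.1 a3).2]
        · rw [Int.le_floor]; linarith [(abs_le.1 a3).1]
      have h1 := Finset.card_le_card_of_injOn _ hmaps hinj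
      rw [Finset.card_product] at h1
      have h2 : ({1, -1} : Finset ℤ).card = 2 := by decide
      rw [h2] at h1
      have h3 := card_Icc_le x R hR0
      calc ((Sf.filter fun γ => ¬ γ 1 0 ≠ 0).card : ℝ) ≤
          ((2 * (Finset.Icc ⌈x - R⌉ ⌊x + R⌋).card : ℕ) : ℝ) := by exact_mod_cast h1
        _ = 2 * ((Finset.Icc ⌈x - R⌉ ⌊x + R⌋).card : ℝ) := by push_cast; ring
        _ ≤ _ := by linarith
    have hterm : ∀ γ ∈ (Sf.filter fun γ => ¬ γ 1 0 ≠ 0), |aterm κ z w γ| ≤ L * (R / (y * v)) := by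
      intro γ hγ
      obtain ⟨a1, a2, a3⟩ := hpos γ hγ
      obtain ⟨-, h2, h3⟩ := smul_of_c_zero a1 w
      obtain ⟨-, h4, h5⟩ := smul_of_c_zero a1 (J • w)
      rw [J_re] at h4
      rw [J_im] at h5
      unfold aterm
      refine (hL _ _ (D_nonneg _ _) (D_nonneg _ _)).trans (mul_le_mul_of_nonneg_left ?_ hL0)
      set m : ℝ := ((γ 0 0 * γ 0 1 : ℤ) : ℝ)
      have e : D z (γ • w) - D z (γ • J • w) = -2 * (u * (x - m)) / (y * v) := by
        unfold D
        rw [h2, h3, h4, h5]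
        change ((x - (u + m)) ^ 2 + (y - v) ^ 2) / (2 * y * v) -
          ((x - (-u + m)) ^ 2 + (y - v) ^ 2) / (2 * y * v) = _
        have hy0 : y ≠ 0 := by linarith
        have hv0 : v ≠ 0 := by linarith
        field_simp
        ring
      rw [e, abs_div, abs_of_pos hyv0]
      refine div_le_div_of_nonneg_right ?_ hyv0.le
      rw [abs_mul, abs_mul]
      have hu' : |u| ≤ 1 / 2 := abs_le.2 hu
      have : |u| * |x - m| ≤ 1 / 2 * R := mul_le_mul hu' a3 (abs_nonneg _) (by norm_num)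
      norm_num
      linarith
    refine (Finset.abs_sum_le_sum_abs _ _).trans ((Finset.sum_le_card_nsmul _ _ _ hterm).trans ?_)
    rw [nsmul_eq_mul]
    refine (mul_le_mul_of_nonneg_right hcard (by positivity)).trans ?_
    have key : 2 * (2 * R + 1) * (R / (y * v)) ≤ 8 * (2 * δ + 2) := by
      rw [mul_div_assoc', div_le_iff₀ hyv0]
      rw [hR]
      nlinarith [sq_nonneg (Q - 1)]
    nlinarith

theorem K_bound (hκ : IsKer δ κ) (hδ0 : 0 < δ) (hδ : δ ≤ 1 / 2) {L : ℝ} (hL0 : 0 ≤ L)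
    (hL : ∀ s t, 0 ≤ s → 0 ≤ t → |κ s - κ t| ≤ L * |s - t|) :
    ∃ C, ∀ z w, |K κ z w| ≤ C := by
  obtain ⟨C, hC⟩ := K_bound_Reg hκ hδ0 hδ hL0 hL
  refine ⟨C, fun z w => ?_⟩
  obtain ⟨g, hg⟩ := ModularGroup.exists_smul_mem_fd z
  obtain ⟨h, hh⟩ := ModularGroup.exists_smul_mem_fd w
  rw [← K_smul_left g, ← K_smul_right h]
  exact hC _ (fd_subset_Reg hg) _ (fd_subset_Reg hh)

end Pool.Agent.Q18.Hyp
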