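import Pool.Agent.Q18.BesselMellin

/-!
# Mellin transforms of Bessel series with a sign-minus functional equation
-/

set_option autoImplicit false

open MeasureTheory Filter Topology Real Set Asymptotics
open scoped ENNReal

noncomputable section

namespace Pool.Agent.Q18.Lf

open Pool.Agent.Q18.Bessel

theorem B_exp {ν : ℂ} {M : ℝ} (hM : ∀ y, 0 < y → ‖B ν y‖ ≤ M) :
    ∃ C, 0 ≤ C ∧ ∀ y : ℝ, 0 < y → ‖B ν y‖ ≤ C * exp (-(π / 2 * y)) := by
  obtain ⟨C, hC0, hC⟩ := B_decay ν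
  have hM0 : 0 ≤ M := (norm_nonneg _).trans (hM 1 one_pos)
  refine ⟨C + M * exp (π / 2), by positivity, fun y hy => ?_⟩
  rcases le_total 1 y with h | h
  · refine (hC y h).1.trans (mul_le_mul_of_nonneg_right ?_ (exp_pos _).le)
    have : 0 ≤ M * exp (π / 2) := by positivity
    linarith
  · refine (hM y hy).trans ?_
    have h1 : M ≤ M * exp (π / 2) * exp (-(π / 2 * y)) := by
      rw [mul_assoc, ← exp_add]
      have : 1 ≤ exp (π / 2 + -(π / 2 * y)) := by
        apply one_le_exp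
        have : π / 2 * y ≤ π / 2 * 1 := by
          have := pi_pos
          gcongr
        linarith
      nlinarith
    have h2 : 0 ≤ C * exp (-(π / 2 * y)) := by positivity
    nlinarith

theorem B_cont (ν : ℂ) : ContinuousOn (B ν) (Ioi 0) := fun _ hy =>
  (hasDerivAt_B ν hy).continuousAt.continuousWithinAt

theorem B_mellinConvergent {ν : ℂ} {M : ℝ} (hM : ∀ y, 0 < y → ‖B ν y‖ ≤ M) {w : ℂ} (hw : 0 < w.re) :
    MellinConvergent (B ν) w := by
  obtain ⟨C, hC0, hC⟩ := B_exp hM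
  refine mellinConvergent_of_isBigO_rpow_exp (a := π / 2) (b := 0) (by positivity)
    ((B_cont ν).locallyIntegrableOn measurableSet_Ioi) ?_ ?_ hw
  · refine IsBigO.of_bound C ?_
    filter_upwards [eventually_gt_atTop (0 : ℝ)] with y hy
    rw [Real.norm_of_nonneg (exp_pos _).le]
    convert hC y hy using 3
    ring
  · refine IsBigO.of_bound M ?_
    filter_upwards [self_mem_nhdsWithin] with y hy
    simpa using hM y hy

section series

variable {ν : ℂ} {M : ℝ} (hM : ∀ y, 0 < y → ‖B ν y‖ ≤ M) {d : ℕ → ℂ} {D : ℝ} (hD0 : 0 ≤ D)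
  (hd0 : d 0 = 0) (hd : ∀ n, ‖d n‖ ≤ D * n) {f : ℝ → ℂ}
  (hf : ∀ y, 0 < y → HasSum (fun n : ℕ => d n * B ν (n * y)) (f y))

include hM hD0 hd0 hd hf

theorem f_decay : ∃ C, 0 ≤ C ∧ ∀ y : ℝ, 1 ≤ y → ‖f y‖ ≤ C * exp (-(π / 4 * y)) := by
  obtain ⟨C, hC0, hC⟩ := B_exp hM
  have hs : Summable fun n : ℕ => (n : ℝ) ^ 1 * exp (-(π / 4) * n) :=
    Real.summable_pow_mul_exp_neg_nat_mul 1 (by positivity)
  refine ⟨D * C * ∑' n : ℕ, (n : ℝ) ^ 1 * exp (-(π / 4) * n), by
    have : 0 ≤ ∑' n : ℕ, (n : ℝ) ^ 1 * exp (-(π / 4) * n) := tsum_nonneg fun n => by positivity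
    positivity, fun y hy => ?_⟩
  have hy0 : 0 < y := by linarith
  have hb : ∀ n : ℕ, ‖d n * B ν (n * y)‖ ≤ D * C * ((n : ℝ) ^ 1 * exp (-(π / 4) * n)) *
      exp (-(π / 4 * y)) := by
    intro n
    rcases Nat.eq_zero_or_pos n with rfl | hn
    · rw [hd0, zero_mul, norm_zero]; positivity
    have hn1 : (1 : ℝ) ≤ n := by exact_mod_cast hn
    have hny : 0 < (n : ℝ) * y := by positivity
    rw [norm_mul]
    calc ‖d n‖ * ‖B ν (n * y)‖ ≤ (D * n) * (C * exp (-(π / 2 * (n * y)))) :=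
          mul_le_mul (hd n) (hC _ hny) (norm_nonneg _) (by positivity)
      _ ≤ (D * n) * (C * exp (-(π / 4) * n + -(π / 4 * y))) := by
          refine mul_le_mul_of_nonneg_left (mul_le_mul_of_nonneg_left (exp_le_exp.2 ?_) hC0) (by positivity)
          have h1 : (n : ℝ) + y ≤ 2 * (n * y) := by nlinarith
          have h2 : π / 4 * (n + y) ≤ π / 4 * (2 * (n * y)) := by
            have := pi_pos
            gcongr
          linarith
      _ = _ := by rw [exp_add, pow_one]; ring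
  have h2 := (hf y hy0).tsum_eq
  rw [← h2]
  have hs2 : Summable fun n : ℕ => D * C * ((n : ℝ) ^ 1 * exp (-(π / 4) * n)) * exp (-(π / 4 * y)) :=
    (hs.mul_left (D * C)).mul_right _
  refine (tsum_of_norm_bounded hs2.hasSum hb).trans (le_of_eq ?_)
  rw [tsum_mul_right, tsum_mul_left]

variable {q : ℕ} (hq : 0 < q) {δ : ℕ}
  (hfe : ∀ y : ℝ, 0 < y → f (1 / (q ^ 2 * y)) = -((q : ℂ) ^ 2 * y ^ 2) ^ δ * f y)
  (hfc : ContinuousOn f (Ioi 0))

include hfe hfc hq

omit hq hfe hfc in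
theorem f_top (a : ℝ) : f =O[atTop] (fun t : ℝ => t ^ a) := by
  obtain ⟨C, hC0, hC⟩ := f_decay hM hD0 hd0 hd hf
  have h1 : f =O[atTop] (fun t : ℝ => exp (-(π / 4) * t)) := by
    refine IsBigO.of_bound C ?_
    filter_upwards [eventually_ge_atTop (1 : ℝ)] with y hy
    rw [Real.norm_of_nonneg (exp_pos _).le]
    convert hC y hy using 3
    ring
  exact h1.trans (isLittleO_exp_neg_mul_rpow_atTop (by positivity) _).isBigO

omit hfc in
theorem f_bot (b : ℝ) : f =O[𝓝[>] 0] (fun t : ℝ => t ^ b) := by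
  have hqR : (0 : ℝ) < q := by exact_mod_cast hq
  have h1 := f_top hM hD0 hd0 hd hf (-b - 2 * δ)
  have ht : Tendsto (fun y : ℝ => 1 / (q ^ 2 * y)) (𝓝[>] 0) atTop := by
    have h2 : Tendsto (fun y : ℝ => (q : ℝ) ^ 2 * y) (𝓝[>] 0) (𝓝[>] 0) := by
      refine tendsto_nhdsWithin_iff.2 ⟨?_, ?_⟩
      · have : Tendsto (fun y : ℝ => (q : ℝ) ^ 2 * y) (𝓝 0) (𝓝 ((q : ℝ) ^ 2 * 0)) :=
          (continuous_const.mul continuous_id).tendsto 0
        rw [mul_zero] at this
        exact this.mono_left nhdsWithin_le_nhds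
      · filter_upwards [self_mem_nhdsWithin] with y hy
        have hy : (0 : ℝ) < y := hy
        show (0 : ℝ) < (q : ℝ) ^ 2 * y
        positivity
    refine (tendsto_inv_nhdsGT_zero.comp h2).congr fun y => ?_
    simp [Function.comp]
  have h3 := h1.comp_tendsto ht
  -- f(y) = -(q²t²)^δ f(t) with t = 1/(q² y)
  have h4 : ∀ y ∈ Ioi (0 : ℝ), f y = -((q : ℂ) ^ 2 * ((1 / (q ^ 2 * y) : ℝ) : ℂ) ^ 2) ^ δ *
      f (1 / (q ^ 2 * y)) := by
    intro y hy
    have hy : (0 : ℝ) < y := hy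
    rw [← hfe _ (by positivity)]
    congr 1
    field_simp
  have h5 : (fun y : ℝ => -((q : ℂ) ^ 2 * ((1 / (q ^ 2 * y) : ℝ) : ℂ) ^ 2) ^ δ) =O[𝓝[>] 0]
      (fun y : ℝ => y ^ (-(2 * δ : ℝ))) := by
    refine IsBigO.of_bound ((1 / (q : ℝ) ^ 2) ^ δ) ?_
    filter_upwards [self_mem_nhdsWithin] with y hy
    have hy : (0 : ℝ) < y := hy
    rw [norm_neg, norm_pow, norm_mul, norm_pow, norm_pow, Complex.norm_real, Complex.norm_natCast,
      Real.norm_of_nonneg (by positivity), Real.norm_of_nonneg (by positivity), Real.rpow_neg hy.le]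
    have e1 : y ^ (2 * (δ : ℝ)) = (y ^ 2) ^ δ := by
      rw [Real.rpow_mul hy.le, Real.rpow_natCast]
      norm_num
    have e2 : (q : ℝ) ^ 2 * (1 / (q ^ 2 * y)) ^ 2 = 1 / (q : ℝ) ^ 2 * (y ^ 2)⁻¹ := by field_simp
    rw [e1, e2, mul_pow, inv_pow]
  have h6 := h5.mul h3
  refine (h6.congr' ?_ ?_).trans (isBigO_const_mul_self ((q : ℝ) ^ (2 * (b + 2 * δ))) _ _)
  · filter_upwards [self_mem_nhdsWithin] with y hy
    rw [h4 y hy]; rfl
  · filter_upwards [self_mem_nhdsWithin] with y hy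
    have hy : (0 : ℝ) < y := hy
    simp only [Function.comp]
    rw [one_div, Real.inv_rpow (by positivity), ← Real.rpow_neg (by positivity),
      Real.mul_rpow (by positivity) hy.le, mul_left_comm, ← Real.rpow_add hy]
    congr 1
    · rw [Real.rpow_mul (by positivity)]
      congr 1
      · norm_num
      · ring
    · congr 1; ring

theorem mellin_diff (s : ℂ) : DifferentiableAt ℂ (mellin f) s :=
  mellin_differentiableAt_of_isBigO_rpow (a := s.re + 1) (b := s.re - 1)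
    (hfc.locallyIntegrableOn measurableSet_Ioi)
    (f_top hM hD0 hd0 hd hf _) (by linarith) (f_bot hM hD0 hd0 hd hf hq hfe _)
    (by linarith)

omit hM hD0 hd0 hd hf hfc in
theorem mellin_zero : mellin f δ = 0 := by
  have hqR : (0 : ℝ) < q := by exact_mod_cast hq
  have hqC : (q : ℂ) ≠ 0 := by exact_mod_cast hq.ne'
  set g : ℝ → ℂ := fun t => f ((q : ℝ) ^ 2 * t)⁻¹ with hg
  have h1 : mellin g (-(δ : ℂ)) = ((q : ℝ) ^ 2 : ℝ) ^ (δ : ℂ) * mellin f δ := by
    have e1 := mellin_comp_mul_left (fun t => f t⁻¹) (-(δ : ℂ)) (a := (q : ℝ) ^ 2) (by positivity)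
    have e2 := mellin_comp_inv f (-(δ : ℂ))
    rw [e2, neg_neg] at e1
    exact e1
  have h2 : mellin g (-(δ : ℂ)) = -((q : ℂ) ^ 2) ^ δ * mellin f δ := by
    have e1 := mellin_cpow_smul f (-(δ : ℂ)) (2 * δ)
    have e2 : mellin f (-(δ : ℂ) + 2 * δ) = mellin f δ := by congr 1; ring
    rw [e2] at e1
    rw [← e1]
    unfold mellin
    rw [← integral_const_mul]
    refine setIntegral_congr_fun measurableSet_Ioi fun t ht => ?_
    have ht : (0 : ℝ) < t := ht
    simp only [hg, smul_eq_mul]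
    have e3 := hfe t ht
    rw [one_div] at e3
    rw [e3, mul_pow]
    have e4 : (t : ℂ) ^ (2 * (δ : ℂ)) = ((t : ℂ) ^ 2) ^ δ := by
      have : (2 * (δ : ℂ)) = ((2 * δ : ℕ) : ℂ) := by push_cast; ring
      rw [this, Complex.cpow_natCast, pow_mul]
    rw [e4]
    ring
  have h3 : (((q : ℝ) ^ 2 : ℝ) : ℂ) ^ (δ : ℂ) = ((q : ℂ) ^ 2) ^ δ := by
    rw [Complex.cpow_natCast]; push_cast; ring
  rw [h1, h3] at h2
  have h4 : (2 * ((q : ℂ) ^ 2) ^ δ) * mellin f δ = 0 := by linear_combination h2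
  have h5 : (2 * ((q : ℂ) ^ 2) ^ δ) ≠ 0 := mul_ne_zero two_ne_zero (pow_ne_zero _ (pow_ne_zero _ hqC))
  exact (mul_eq_zero.1 h4).resolve_left h5

omit hq hfe hfc in
theorem mellin_series {w : ℂ} (hw : 2 < w.re) :
    mellin f w = (∑' n : ℕ, d n * (n : ℂ) ^ (-w)) * mellin (B ν) w := by
  have hconv := B_mellinConvergent hM (w := w) (by linarith)
  set g : ℝ → ℝ := fun t => ‖(t : ℂ) ^ (w - 1) • B ν t‖ with hg
  set Fn : ℕ → ℝ → ℂ := fun n t => (t : ℂ) ^ (w - 1) • (d n * B ν (n * t)) with hFn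
  have hint : ∀ n, Integrable (Fn n) (volume.restrict (Ioi 0)) := by
    intro n
    rcases Nat.eq_zero_or_pos n with rfl | hn
    · simp only [hFn, hd0, zero_mul, smul_zero]
      exact integrable_zero _ _ _
    have hnR : (0 : ℝ) < n := by exact_mod_cast hn
    have h1 := ((MellinConvergent.comp_mul_left hnR).2 hconv).const_smul (d n)
    refine Integrable.congr h1 (Eventually.of_forall fun t => ?_)
    simp only [hFn, smul_eq_mul]
  have hnorm : ∀ n : ℕ, ∫ t in Ioi (0 : ℝ), ‖Fn n t‖ = ‖d n‖ * (n : ℝ) ^ (-w.re) * ∫ t in Ioi (0 : ℝ), g t := by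
    intro n
    rcases Nat.eq_zero_or_pos n with rfl | hn
    · simp [hFn, hd0]
    have hnR : (0 : ℝ) < n := by exact_mod_cast hn
    have h1 : ∀ t ∈ Ioi (0 : ℝ), ‖Fn n t‖ = (‖d n‖ * (n : ℝ) ^ (1 - w.re)) * g (n * t) := by
      intro t ht
      have ht : (0 : ℝ) < t := ht
      simp only [hFn, hg, norm_smul, norm_mul]
      rw [Complex.norm_cpow_eq_rpow_re_of_pos ht, Complex.norm_cpow_eq_rpow_re_of_pos (by positivity),
        Complex.sub_re, Complex.one_re, Real.mul_rpow hnR.le ht.le]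
      have : (n : ℝ) ^ (1 - w.re) * (n : ℝ) ^ (w.re - 1) = 1 := by
        rw [← Real.rpow_add hnR]; simp
      linear_combination -(t ^ (w.re - 1) * ‖d n‖ * ‖B ν (n * t)‖) * this
    rw [setIntegral_congr_fun measurableSet_Ioi h1, integral_const_mul, integral_comp_mul_left_Ioi g 0 hnR,
      mul_zero, smul_eq_mul]
    have : (n : ℝ) ^ (-w.re) = (n : ℝ) ^ (1 - w.re) * (n : ℝ)⁻¹ := by
      rw [← Real.rpow_neg_one (n : ℝ), ← Real.rpow_add hnR]; congr 1; ring
    rw [this]; ring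
  have hsum : Summable fun n : ℕ => ∫ t in Ioi (0 : ℝ), ‖Fn n t‖ := by
    simp_rw [hnorm]
    refine Summable.mul_right _ ?_
    have h1 : Summable fun n : ℕ => D * (n : ℝ) ^ (1 - w.re) :=
      (Real.summable_nat_rpow.2 (by linarith)).mul_left D
    refine Summable.of_nonneg_of_le (fun n => by positivity) (fun n => ?_) h1
    rcases Nat.eq_zero_or_pos n with rfl | hn
    · rw [hd0, norm_zero, zero_mul]; positivity
    have hnR : (0 : ℝ) < n := by exact_mod_cast hn
    calc ‖d n‖ * (n : ℝ) ^ (-w.re) ≤ (D * n) * (n : ℝ) ^ (-w.re) := by gcongr; exact hd n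
      _ = D * (n : ℝ) ^ (1 - w.re) := by
        rw [mul_assoc]
        congr 1
        rw [← Real.rpow_one_add' hnR.le (by linarith)]
        congr 1
  have hmain := integral_tsum_of_summable_integral_norm hint hsum
  have h1 : ∀ n : ℕ, ∫ t in Ioi (0 : ℝ), Fn n t = d n * (n : ℂ) ^ (-w) * mellin (B ν) w := by
    intro n
    rcases Nat.eq_zero_or_pos n with rfl | hn
    · simp [hFn, hd0]
    have hnR : (0 : ℝ) < n := by exact_mod_cast hn
    have h2 := mellin_comp_mul_left (B ν) w hnR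
    rw [smul_eq_mul] at h2
    have h3 : ∫ t in Ioi (0 : ℝ), Fn n t = d n * mellin (fun t => B ν (n * t)) w := by
      unfold mellin
      rw [← integral_const_mul]
      refine setIntegral_congr_fun measurableSet_Ioi fun t _ => ?_
      simp only [hFn, smul_eq_mul]; ring
    rw [h3, h2]
    push_cast
    ring
  rw [tsum_congr h1, tsum_mul_right] at hmain
  rw [hmain]
  unfold mellin
  refine setIntegral_congr_fun measurableSet_Ioi fun t ht => ?_
  have ht : (0 : ℝ) < t := ht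
  have h2 := (hf t ht).tsum_eq
  simp only [hFn, smul_eq_mul]
  rw [tsum_mul_left, h2]

end series

end Pool.Agent.Q18.Lf
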