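import Mathlib

/-!
# Hecke–Maass cusp forms of level one, quadratic twists and counting functions: definitions
-/

set_option autoImplicit false

open MeasureTheory Filter Topology UpperHalfPlane Laplacian
open scoped MatrixGroups ContDiff

noncomputable section

namespace Pool.Agent.Q18

/-- **Hecke–Maass cusp forms of level one and weight zero** (for `SL(2, ℤ)`).  A smooth, bounded,
non-zero function on the upper half plane, invariant under `SL(2, ℤ)`, with vanishing constant term
along every horocycle, which is an eigenfunction of the hyperbolic Laplacian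
`-y² (∂²/∂x² + ∂²/∂y²)` (with eigenvalue `eigen`) and of all Hecke operators `T_p`
(with normalised eigenvalues `hecke p`).  These are the newforms of the cuspidal automorphic
representations of `PGL(2)` over `ℚ` which are unramified at all primes and of weight zero at
infinity. -/
structure HeckeMaassForm where
  /-- the function on the upper half plane -/
  toFun : ℍ → ℂ
  /-- the Laplace eigenvalue -/
  eigen : ℂ
  /-- the normalised Hecke eigenvalues (at primes) -/
  hecke : ℕ → ℂ
  nonzero : ∃ z, toFun z ≠ 0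
  smooth : ContDiffOn ℝ ∞ (fun z : ℂ => toFun (ofComplex z)) {z : ℂ | 0 < z.im}
  laplace : ∀ z : ℍ, -((z.im : ℂ) ^ 2) * (Δ (fun z : ℂ => toFun (ofComplex z))) (z : ℂ) =
    eigen * toFun z
  invariant : ∀ (γ : SL(2, ℤ)) (z : ℍ), toFun (γ • z) = toFun z
  cuspidal : ∀ y : ℝ, 0 < y → ∫ x in (0 : ℝ)..1, toFun (ofComplex (x + y * Complex.I)) = 0
  bounded : ∃ M : ℝ, ∀ z, ‖toFun z‖ ≤ M
  hecke_eq : ∀ p : ℕ, p.Prime → ∀ z : ℍ, toFun (ofComplex (p * z)) +
    ∑ b ∈ Finset.range p, toFun (ofComplex ((z + b) / p)) = (√p : ℂ) * hecke p * toFun z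

/-- The form is odd: `φ(-z̄) = -φ(z)`. -/
def HeckeMaassForm.IsOdd (π : HeckeMaassForm) : Prop :=
  ∀ z : ℍ, π.toFun (ofComplex (-(starRingEnd ℂ) (z : ℂ))) = - π.toFun z

/-- `L` is the (entire continuation of the) standard finite-part `L`-function of the twist of `π` by
the primitive Dirichlet character `χ`, in the unitary normalisation: it is entire and for `Re s`
large it is the Euler product
`∏_p (1 - λ(p) χ(p) p^{-s} + χ(p)² p^{-2s})⁻¹`.  By the identity theorem there is at most one
such function. -/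
def IsTwistedL (π : HeckeMaassForm) {q : ℕ} (χ : DirichletCharacter ℂ q) (L : ℂ → ℂ) : Prop :=
  Differentiable ℂ L ∧ ∃ σ : ℝ, ∀ s : ℂ, σ < s.re →
    HasProd (fun p : Nat.Primes => (1 - π.hecke p * χ p * (p : ℂ) ^ (-s) +
      χ p ^ 2 * (p : ℂ) ^ (-(2 * s)))⁻¹) (L s)

/-- A quadratic extension `E/ℚ`, given by its quadratic character `η_E`, i.e. by a primitive
quadratic Dirichlet character; its modulus (the conductor of `η_E`) is `|Δ_E|`. -/
structure QuadExt where
  /-- the absolute value of the discriminant -/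
  absDisc : ℕ
  pos : 0 < absDisc
  /-- the quadratic character -/
  char : DirichletCharacter ℂ absDisc
  primitive : char.IsPrimitive
  quadratic : char ^ 2 = 1
  nontrivial : char ≠ 1

/-- `N(x) = #{E : |Δ_E| < x}` -/
def countAll (x : ℝ) : ℕ := Set.ncard {E : QuadExt | (E.absDisc : ℝ) < x}

/-- `N_π(x) = #{E : |Δ_E| < x, L(1/2, π ⊗ η_E) ≠ 0}` -/
def countNonvanishing (π : HeckeMaassForm) (x : ℝ) : ℕ :=
  Set.ncard {E : QuadExt | (E.absDisc : ℝ) < x ∧
    ∃ L : ℂ → ℂ, IsTwistedL π E.char L ∧ L (1 / 2) ≠ 0}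

end Pool.Agent.Q18
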