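import Pool.Agent.Q18.Fourier
import Pool.Agent.Q18.Coeff
import Pool.Agent.Q18.MaassDefs

/-!
# Hecke–Maass cusp forms of level one
-/

set_option autoImplicit false

open MeasureTheory Filter Topology UpperHalfPlane Laplacian
open scoped ENNReal MatrixGroups ContDiff

noncomputable section

namespace Pool.Agent.Q18.Hyp

/-! ### `HasLap` from smoothness and conversely -/

theorem HasFDerivAt.dir {F : ℂ → ℂ} {L : ℂ →L[ℝ] ℂ} {z : ℂ} (h : HasFDerivAt F L z) (e : ℂ) :
    HasDerivAt (fun t : ℝ => F (z + t * e)) (L e) 0 := by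
  have h1 : HasDerivAt (fun t : ℝ => z + t * e) e 0 := by
    have h2 : HasDerivAt (fun t : ℝ => (t : ℂ)) 1 0 := Complex.ofRealCLM.hasDerivAt
    have := (h2.mul_const e).const_add z
    rwa [one_mul] at this
  have h0 : HasFDerivAt F L (z + ((0 : ℝ) : ℂ) * e) := by simpa using h
  exact h0.comp_hasDerivAt (0 : ℝ) h1

theorem fderiv_dir_contDiffOn {F : ℂ → ℂ} (hF : ContDiffOn ℝ ∞ F U) (e : ℂ) :
    ContDiffOn ℝ ∞ (fun z => fderiv ℝ F z e) U := by
  have h1 : ContDiffOn ℝ ∞ (fderiv ℝ F) U := hF.fderiv_of_isOpen isOpen_U (by simp)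
  exact h1.clm_apply contDiffOn_const

theorem diffAt {F : ℂ → ℂ} (hF : ContDiffOn ℝ ∞ F U) {z : ℂ} (hz : z ∈ U) : DifferentiableAt ℝ F z :=
  (hF.contDiffAt (isOpen_U.mem_nhds hz)).differentiableAt (by simp)

theorem laplacian_formula {F : ℂ → ℂ} (hF : ContDiffOn ℝ ∞ F U) {z : ℂ} (hz : z ∈ U) :
    (Δ F) z = fderiv ℝ (fun w => fderiv ℝ F w 1) z 1 +
      fderiv ℝ (fun w => fderiv ℝ F w Complex.I) z Complex.I := by
  have h1 : ContDiffOn ℝ ∞ (fderiv ℝ F) U := hF.fderiv_of_isOpen isOpen_U (by simp)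
  have h2 : DifferentiableAt ℝ (fderiv ℝ F) z :=
    (h1.contDiffAt (isOpen_U.mem_nhds hz)).differentiableAt (by simp)
  rw [InnerProductSpace.laplacian_eq_iteratedFDeriv_complexPlane]
  beta_reduce
  rw [iteratedFDeriv_two_apply, iteratedFDeriv_two_apply]
  have e : ∀ v : ℂ, fderiv ℝ (fun w => fderiv ℝ F w v) z v = fderiv ℝ (fderiv ℝ F) z v v := by
    intro v
    have := (h2.hasFDerivAt.clm_apply (hasFDerivAt_const v z)).fderiv
    rw [this]
    simp
  rw [e, e]
  simp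

theorem hasLap_of_contDiff {F : ℂ → ℂ} (hF : ContDiffOn ℝ ∞ F U) :
    HasLap F (fun z => (z.im : ℂ) ^ 2 * (Δ F) z) (fun z => fderiv ℝ F z 1)
      (fun z => fderiv ℝ F z Complex.I) (fun z => fderiv ℝ (fun w => fderiv ℝ F w 1) z 1)
      (fun z => fderiv ℝ (fun w => fderiv ℝ F w Complex.I) z Complex.I) where
  cx := (fderiv_dir_contDiffOn hF 1).continuousOn
  cy := (fderiv_dir_contDiffOn hF Complex.I).continuousOn
  cxx := (fderiv_dir_contDiffOn (fderiv_dir_contDiffOn hF 1) 1).continuousOn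
  cyy := (fderiv_dir_contDiffOn (fderiv_dir_contDiffOn hF Complex.I) Complex.I).continuousOn
  dx z hz := HasFDerivAt.dir (diffAt hF hz).hasFDerivAt 1
  dy z hz := HasFDerivAt.dir (diffAt hF hz).hasFDerivAt Complex.I
  dxx z hz := HasFDerivAt.dir (diffAt (fderiv_dir_contDiffOn hF 1) hz).hasFDerivAt 1
  dyy z hz := HasFDerivAt.dir (diffAt (fderiv_dir_contDiffOn hF Complex.I) hz).hasFDerivAt Complex.I
  lap z hz := by rw [laplacian_formula hF hz]

theorem laplacian_of_hasLap {F G Fx Fy Fxx Fyy : ℂ → ℂ} (hF : ContDiffOn ℝ ∞ F U)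
    (h : HasLap F G Fx Fy Fxx Fyy) {z : ℂ} (hz : z ∈ U) : (z.im : ℂ) ^ 2 * (Δ F) z = G z := by
  have hl := hasLap_of_contDiff hF
  have e1 : ∀ w ∈ U, fderiv ℝ F w 1 = Fx w := fun w hw => (hl.dx w hw).unique (h.dx w hw)
  have e2 : ∀ w ∈ U, fderiv ℝ F w Complex.I = Fy w := fun w hw => (hl.dy w hw).unique (h.dy w hw)
  have mem : ∀ v : ℂ, ∀ᶠ t : ℝ in 𝓝 0, z + t * v ∈ U := by
    intro v
    have hc : Continuous fun t : ℝ => z + t * v := by fun_prop
    exact hc.continuousAt.eventually_mem (isOpen_U.mem_nhds (by simpa using hz))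
  have e3 : fderiv ℝ (fun w => fderiv ℝ F w 1) z 1 = Fxx z := by
    refine (hl.dxx z hz).unique ((h.dxx z hz).congr_of_eventuallyEq ?_)
    filter_upwards [mem 1] with t ht using e1 _ ht
  have e4 : fderiv ℝ (fun w => fderiv ℝ F w Complex.I) z Complex.I = Fyy z := by
    refine (hl.dyy z hz).unique ((h.dyy z hz).congr_of_eventuallyEq ?_)
    filter_upwards [mem Complex.I] with t ht using e2 _ ht
  rw [laplacian_formula hF hz, e3, e4, h.lap z hz]

end Pool.Agent.Q18.Hyp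

namespace Pool.Agent.Q18

open Pool.Agent.Q18.Hyp

theorem co_zero_of_odd {F : ℂ → ℂ} (hper : ∀ z ∈ U, F (z + 1) = F z)
    (hodd : ∀ x y : ℝ, 0 < y → F (Four.pt (-x) y) = - F (Four.pt x y)) {y : ℝ} (hy : 0 < y) :
    Four.co F 0 y = 0 := by
  have h := Four.co_neg hper hodd 0 hy
  rw [neg_zero] at h
  have : (2 : ℂ) * Four.co F 0 y = 0 := by linear_combination h
  simpa using this

/-- **Odd Hecke–Maass cusp forms of level one exist.** -/
theorem exists_odd : ∃ π : HeckeMaassForm, π.IsOdd := by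
  obtain ⟨φ, μ, σ, lam, hμ, hφ0, hφm, ⟨M, hM⟩, hinv, hodd, hop, hlap, hhecke⟩ := exists_form
  have hU : ∀ z : ℂ, z ∈ U → φ (ofComplex z) = μ⁻¹ * iop (fun z w => kap (Dc z w)) φ z := by
    intro z hz
    rw [iop_eq_op kap φ hz, hop, inv_mul_cancel_left₀ hμ]
  have hsm0 := contDiffOn_iop hφm hM kap_ker
  have hsm : ContDiffOn ℝ ∞ (fun z : ℂ => φ (ofComplex z)) U := by
    refine (hsm0.const_smul μ⁻¹).congr fun z hz => ?_
    rw [hU z hz]; rfl
  have hl := op_hasLap hφm hM kap_ker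
  have hΔ : ∀ z ∈ U, (z.im : ℂ) ^ 2 * (Δ (fun z : ℂ => φ (ofComplex z))) z =
      μ⁻¹ * (σ * φ (ofComplex z)) := by
    intro z hz
    have e1 : (fun z : ℂ => φ (ofComplex z)) =ᶠ[𝓝 z]
        (μ⁻¹ • (iop (fun z w => kap (Dc z w)) φ) : ℂ → ℂ) := by
      filter_upwards [isOpen_U.mem_nhds hz] with w hw
      rw [hU w hw]; rfl
    have e2 : (Δ (fun z : ℂ => φ (ofComplex z))) z =
        (Δ (μ⁻¹ • (iop (fun z w => kap (Dc z w)) φ) : ℂ → ℂ)) z :=
      (InnerProductSpace.laplacian_congr_nhds e1).eq_of_nhds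
    rw [e2, InnerProductSpace.laplacian_smul _ ((hsm0.contDiffAt (isOpen_U.mem_nhds hz)).of_le (by
      exact ENat.LEInfty.out)), smul_eq_mul, mul_left_comm, laplacian_of_hasLap hsm0 hl hz,
      iop_eq_op (sharp kap) φ hz, hlap]
  have hoddC : ∀ z : ℍ, φ (ofComplex (-(starRingEnd ℂ) (z : ℂ))) = - φ z := by
    intro z
    rw [← hodd]
    congr 1
    apply ofComplex_eq
    rw [coe_J]
  have hper : ∀ z ∈ U, (fun z : ℂ => φ (ofComplex z)) (z + 1) = (fun z : ℂ => φ (ofComplex z)) z := by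
    intro z hz
    have hz1 : 0 < (z + 1).im := by
      have : 0 < z.im := hz
      simpa using this
    refine shift_inv hinv 1 ?_
    rw [oc hz1, oc hz]; simp
  have hoddp : ∀ x y : ℝ, 0 < y → (fun z : ℂ => φ (ofComplex z)) (Four.pt (-x) y) =
      - (fun z : ℂ => φ (ofComplex z)) (Four.pt x y) := by
    intro x y hy
    have h1 : 0 < (Four.pt x y).im := by rw [Four.pt_im]; exact hy
    have h2 := hoddC (ofComplex (Four.pt x y))
    simp only
    rw [← h2, oc h1]
    congr 2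
    unfold Four.pt
    simp
    ring
  refine ⟨⟨φ, -(μ⁻¹ * σ), fun p => lam p / √p, ?_, hsm, ?_, hinv, ?_, ⟨M, hM⟩, ?_⟩, hoddC⟩
  · by_contra hcon
    push Not at hcon
    exact hφ0 (funext hcon)
  · intro z
    have := hΔ (z : ℂ) z.im_pos
    rw [ofComplex_apply] at this
    have hz : ((z : ℂ).im : ℂ) = (z.im : ℂ) := rfl
    rw [hz] at this
    linear_combination -this
  · intro y hy
    have := co_zero_of_odd (F := fun z : ℂ => φ (ofComplex z)) hper hoddp hy
    unfold Four.co at this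
    rw [← this]
    congr 1
    ext x
    have : Four.ex (-0) x = 1 := by simp [Four.ex]
    rw [this, mul_one]
    rfl
  · intro p hp z
    have := hhecke p hp z
    unfold Hyp.hecke at this
    rw [this]
    have : (√p : ℂ) ≠ 0 := by
      have : 0 < √(p : ℝ) := Real.sqrt_pos.2 (by exact_mod_cast hp.pos)
      exact_mod_cast this.ne'
    field_simp

end Pool.Agent.Q18
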