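import Pool.Agent.W97.TW.Hecke

/-!
Pairs of quadratic twists of newforms of level one or of prime level: existence of the `L`-functions
and the vanishing at the centre from the sign of the functional equation.
-/

set_option autoImplicit false

open UpperHalfPlane MatrixGroups CongruenceSubgroup Filter Topology

namespace Pool.Agent.Q18.Pairs

open Pool.Agent.W97.TW

variable {N : ℕ} {k : ℤ} (f : CuspForm (Gamma0 N : Subgroup (GL (Fin 2) ℝ)) k)

lemma lam_zero [NeZero N] : lam N k f 0 = 0 := by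
  have h := A_zero f
  unfold A at h
  unfold lam
  rw [h, zero_mul]

lemma lam_one (hf : IsNewform N k f) : lam N k f 1 = 1 := by
  unfold lam
  rw [hf.coeff_one]
  simp

lemma lam_bound [NeZero N] : ∃ C : ℝ, ∀ n : ℕ, ‖lam N k f n‖ ≤ C * Real.sqrt n := by
  obtain ⟨C, hC⟩ := A_bound f
  refine ⟨C, fun n => ?_⟩
  rcases Nat.eq_zero_or_pos n with rfl | hn
  · rw [lam_zero]; simp
  · have hn0 : (0 : ℝ) < n := by exact_mod_cast hn
    have h1 := hC n hn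
    unfold A at h1
    unfold lam
    rw [norm_mul, ← Complex.ofReal_natCast, Complex.norm_cpow_eq_rpow_re_of_pos hn0]
    have e1 : (-(((k : ℂ) - 1) / 2)).re = -(((k : ℝ) - 1) / 2) := by
      have : (-(((k : ℂ) - 1) / 2)) = ((-(((k : ℝ) - 1) / 2) : ℝ) : ℂ) := by push_cast; ring
      rw [this, Complex.ofReal_re]
    rw [e1, Real.sqrt_eq_rpow]
    calc ‖(qExpansion 1 f).coeff n‖ * (n : ℝ) ^ (-(((k : ℝ) - 1) / 2))
        ≤ (C * (n : ℝ) ^ ((k : ℝ) / 2)) * (n : ℝ) ^ (-(((k : ℝ) - 1) / 2)) := by gcongr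
      _ = C * (n : ℝ) ^ (1 / 2 : ℝ) := by
        rw [mul_assoc, ← Real.rpow_add hn0]
        congr 2
        ring

lemma lam_rec [NeZero N] (hf : IsNewform N k f) : ∃ a : Nat.Primes → ℂ,
    ∀ (p : Nat.Primes) (m : ℕ), 0 < m → lam N k f (p * m) =
      a p * lam N k f m - (if (p : ℕ) ∣ N then 0 else 1) *
        (if (p : ℕ) ∣ m then lam N k f (m / p) else 0) := by
  choose a ha using hf.hecke
  refine ⟨fun p => a p * ((p : ℕ) : ℂ) ^ (-(((k : ℂ) - 1) / 2)), fun p m hm => ?_⟩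
  have hp : 0 < (p : ℕ) := p.2.pos
  have hpC : ((p : ℕ) : ℂ) ≠ 0 := by exact_mod_cast hp.ne'
  have h1 := hecke_rec f hp (ha p) m
  unfold B at h1
  have h2 : A f (p * m) = a p * A f m - (if (p : ℕ) ∣ N then 0 else ((p : ℕ) : ℂ) ^ (k - 1)) *
      (if (p : ℕ) ∣ m then A f (m / p) else 0) := by linear_combination h1
  have hl : ∀ n : ℕ, lam N k f n = A f n * (n : ℂ) ^ (-(((k : ℂ) - 1) / 2)) := fun n => rfl
  rw [hl, h2, hl m]
  have e1 : ((((p : ℕ) * m : ℕ)) : ℂ) ^ (-(((k : ℂ) - 1) / 2)) =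
      ((p : ℕ) : ℂ) ^ (-(((k : ℂ) - 1) / 2)) * (m : ℂ) ^ (-(((k : ℂ) - 1) / 2)) := by
    rw [Nat.cast_mul, Complex.natCast_mul_natCast_cpow]
  rw [e1]
  by_cases hd : (p : ℕ) ∣ m
  · obtain ⟨m', rfl⟩ := hd
    have hdd : (p : ℕ) ∣ (p : ℕ) * m' := dvd_mul_right _ _
    rw [if_pos hdd, if_pos hdd, Nat.mul_div_cancel_left _ hp, hl m']
    have e2 : ((((p : ℕ) * m' : ℕ)) : ℂ) ^ (-(((k : ℂ) - 1) / 2)) =
      ((p : ℕ) : ℂ) ^ (-(((k : ℂ) - 1) / 2)) * (m' : ℂ) ^ (-(((k : ℂ) - 1) / 2)) := by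
      rw [Nat.cast_mul, Complex.natCast_mul_natCast_cpow]
    rw [e2]
    by_cases hN : (p : ℕ) ∣ N
    · rw [if_pos hN, if_pos hN]; ring
    · rw [if_neg hN, if_neg hN]
      have e3 : ((p : ℕ) : ℂ) ^ (k - 1) * (((p : ℕ) : ℂ) ^ (-(((k : ℂ) - 1) / 2)) *
          ((p : ℕ) : ℂ) ^ (-(((k : ℂ) - 1) / 2))) = 1 := by
        rw [← Complex.cpow_add _ _ hpC, ← Complex.cpow_intCast, ← Complex.cpow_add _ _ hpC]
        have : (((k - 1 : ℤ)) : ℂ) + (-(((k : ℂ) - 1) / 2) + -(((k : ℂ) - 1) / 2)) = 0 := by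
          push_cast; ring
        rw [this, Complex.cpow_zero]
      linear_combination (-(A f m' * (m' : ℂ) ^ (-(((k : ℂ) - 1) / 2)))) * e3
  · rw [if_neg hd, if_neg hd]
    ring

/-- The `L`-function of a twist from a functional equation of the theta-like series. -/
lemma main_L [NeZero N] (hk : 0 < k) (hf : IsNewform N k f) {m : ℕ} [NeZero m]
    (ψ : DirichletCharacter ℂ m) (hprim : ψ.IsPrimitive) (hsq : ψ ^ 2 = 1) (Q : ℝ) (hQ : 0 < Q)
    (ε : ℂ) (hε : ε ≠ 0)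
    (hfe : ∀ t : ℝ, 0 < t → TS f ψ (Complex.I * ((1 / t / Q : ℝ) : ℂ)) =
      ε * ((t ^ (k : ℝ) : ℝ) : ℂ) * TS f ψ (Complex.I * ((t / Q : ℝ) : ℂ))) :
    ∃ L : ℂ → ℂ, IsTwistedLFunction N k f ψ L ∧ (ε ≠ 1 → L (1 / 2) = 0) := by
  obtain ⟨C, hC⟩ := A_bound f
  have htau := tau_ne_zero ψ hprim
  have hc0 : tau ψ * (A f 0 * ψ (0 : ℕ)) = 0 := by rw [A_zero]; ring
  have hcn : ∀ n : ℕ, 1 ≤ n → ‖tau ψ * (A f n * ψ n)‖ ≤ (‖tau ψ‖ * C) * (n : ℝ) ^ ((k : ℝ) / 2) := by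
    intro n hn
    rw [norm_mul, norm_mul, mul_assoc]
    have h1 := hC n hn
    have h2 : ‖ψ n‖ ≤ 1 := DirichletCharacter.norm_le_one ψ _
    have h3 : ‖A f n‖ * ‖ψ n‖ ≤ C * (n : ℝ) ^ ((k : ℝ) / 2) := by
      calc ‖A f n‖ * ‖ψ n‖ ≤ ‖A f n‖ * 1 := by gcongr
        _ ≤ _ := by rw [mul_one]; exact h1
    gcongr
  have hkR : (0 : ℝ) < (k : ℝ) := by exact_mod_cast hk
  obtain ⟨H, hH1, hH2, hH3⟩ := core (c := fun n : ℕ => tau ψ * (A f n * ψ n))
    (C := ‖tau ψ‖ * C) (β := (k : ℝ) / 2) (q := Q)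
    (Φ := fun t : ℝ => TS f ψ (Complex.I * ((t / Q : ℝ) : ℂ))) hc0 hcn hQ (by
      intro t ht
      have h1 := hasSum_TS f ψ hprim hsq (y := t / Q) (by positivity)
      refine h1.congr_fun fun n => ?_
      have e1 : -(2 * Real.pi * n / Q) * t = -(2 * Real.pi * n) * (t / Q) := by ring
      rw [e1]
      ring) (continuousOn_TS f ψ Q hQ) (k : ℝ) hkR ε hε (by
      intro t ht
      exact hfe t ht)
  -- the L-function
  set G : ℂ → ℂ := fun s => s + (((k : ℂ) - 1) / 2) with hG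
  set L : ℂ → ℂ := fun s => H (G s) * (((Q / (2 * Real.pi) : ℝ) : ℂ) ^ (-(G s))) *
    (Complex.Gamma (G s))⁻¹ * (tau ψ)⁻¹ with hL
  have hQ1 : ((Q / (2 * Real.pi) : ℝ) : ℂ) ≠ 0 := by
    have : (Q / (2 * Real.pi) : ℝ) ≠ 0 := by positivity
    exact_mod_cast this
  have hval : ∀ s : ℂ, 3 / 2 < s.re → L s = ∑' n : ℕ, lam N k f n * ψ n * (n : ℂ) ^ (-s) := by
    intro s hs
    have hre : (G s).re = s.re + ((k : ℝ) - 1) / 2 := by
      have : G s = s + ((((k : ℝ) - 1) / 2 : ℝ) : ℂ) := by rw [hG]; push_cast; ring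
      rw [this, Complex.add_re, Complex.ofReal_re]
    have h1 := hH3 (G s) (by rw [hre]; linarith) (by rw [hre]; linarith)
    have hGam : Complex.Gamma (G s) ≠ 0 :=
      Complex.Gamma_ne_zero_of_re_pos (by rw [hre]; linarith)
    have hpow : ((Q / (2 * Real.pi) : ℝ) : ℂ) ^ (-(G s)) * ((Q / (2 * Real.pi) : ℝ) : ℂ) ^ (G s) = 1 := by
      rw [← Complex.cpow_add _ _ hQ1, neg_add_cancel, Complex.cpow_zero]
    have e1 : (∑' n : ℕ, (tau ψ * (A f n * ψ n)) * (n : ℂ) ^ (-(G s))) =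
        tau ψ * ∑' n : ℕ, lam N k f n * ψ n * (n : ℂ) ^ (-s) := by
      rw [← tsum_mul_left]
      refine tsum_congr fun n => ?_
      rcases Nat.eq_zero_or_pos n with rfl | hn
      · rw [lam_zero, A_zero]; ring
      · have hnC : (n : ℂ) ≠ 0 := by exact_mod_cast hn.ne'
        have e2 : (n : ℂ) ^ (-(G s)) = (n : ℂ) ^ (-s) * (n : ℂ) ^ (-(((k : ℂ) - 1) / 2)) := by
          rw [← Complex.cpow_add _ _ hnC]
          congr 1
          rw [hG]; ring
        rw [e2]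
        unfold lam A
        ring
    rw [e1] at h1
    simp only [hL]
    rw [h1]
    set S : ℂ := ∑' n : ℕ, lam N k f n * ψ n * (n : ℂ) ^ (-s)
    calc ((Q / (2 * Real.pi) : ℝ) : ℂ) ^ (G s) * Complex.Gamma (G s) * (tau ψ * S) *
        ((Q / (2 * Real.pi) : ℝ) : ℂ) ^ (-(G s)) * (Complex.Gamma (G s))⁻¹ * (tau ψ)⁻¹
        = (((Q / (2 * Real.pi) : ℝ) : ℂ) ^ (-(G s)) * ((Q / (2 * Real.pi) : ℝ) : ℂ) ^ (G s)) *
          (Complex.Gamma (G s) * (Complex.Gamma (G s))⁻¹) * (tau ψ * (tau ψ)⁻¹) * S := by ring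
      _ = S := by rw [hpow, mul_inv_cancel₀ hGam, mul_inv_cancel₀ htau]; ring
  refine ⟨L, ⟨?_, ?_⟩, ?_⟩
  · have hGd : Differentiable ℂ G := by rw [hG]; fun_prop
    have h1 : Differentiable ℂ (fun s => H (G s)) := hH1.comp hGd
    have h2 : Differentiable ℂ (fun s => ((Q / (2 * Real.pi) : ℝ) : ℂ) ^ (-(G s))) := by
      intro s
      exact ((hGd s).neg).const_cpow (Or.inl hQ1)
    have h3 : Differentiable ℂ (fun s => (Complex.Gamma (G s))⁻¹) :=
      Complex.differentiable_one_div_Gamma.comp hGd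
    exact ((h1.mul h2).mul h3).mul (differentiable_const _)
  · intro s hs
    obtain ⟨C', hC'⟩ := lam_bound f
    obtain ⟨a, ha⟩ := lam_rec f hf
    have h1 := euler_product a (fun p => if (p : ℕ) ∣ N then 0 else 1) (lam N k f) (lam_zero f)
      (lam_one f hf) ha C' hC' ψ s hs
    have h2 : ∀ p : Nat.Primes, a p = lam N k f p := fun p =>
      (l_prime a (fun p => if (p : ℕ) ∣ N then 0 else 1) (lam N k f) (lam_one f hf) ha p).symm
    rw [hval s hs]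
    have h3 := h1.2
    simp_rw [h2] at h3
    exact h3
  · intro hε1
    have e1 : G (1 / 2) = (k : ℂ) / 2 := by rw [hG]; ring
    have h1 := hH2 ((k : ℂ) / 2)
    have e2 : (((k : ℝ) : ℂ)) - (k : ℂ) / 2 = (k : ℂ) / 2 := by push_cast; ring
    rw [e2] at h1
    have h2 : H ((k : ℂ) / 2) = 0 := by
      have : (1 - ε) * H ((k : ℂ) / 2) = 0 := by linear_combination h1
      rcases mul_eq_zero.1 this with h | h
      · exact absurd (sub_eq_zero.1 h).symm hε1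
      · exact h
    simp only [hL]
    rw [e1, h2]
    ring

end Pool.Agent.Q18.Pairs
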