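import Pool.Agent.Q18.Pairs

/-!
Signs of the functional equations of the twists, and the product of two quadratic twists.
-/

set_option autoImplicit false

open UpperHalfPlane MatrixGroups CongruenceSubgroup Filter Topology

namespace Pool.Agent.Q18.Pairs

open Pool.Agent.W97.TW

variable {N : ℕ} {k : ℤ} (f : CuspForm (Gamma0 N : Subgroup (GL (Fin 2) ℝ)) k)

theorem unique {m : ℕ} {ψ : DirichletCharacter ℂ m} {L L' : ℂ → ℂ}
    (h : IsTwistedLFunction N k f ψ L) (h' : IsTwistedLFunction N k f ψ L') : L = L' := by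
  obtain ⟨hd, hσ⟩ := h
  obtain ⟨hd', hσ'⟩ := h'
  have hnhds : ∀ᶠ s in 𝓝 (2 : ℂ), L s = L' s := by
    have h1 : {s : ℂ | 3 / 2 < s.re} ∈ 𝓝 (2 : ℂ) := by
      refine (isOpen_lt continuous_const Complex.continuous_re).mem_nhds ?_
      show (3 / 2 : ℝ) < (2 : ℂ).re
      norm_num
    filter_upwards [h1] with s hs
    exact (hσ s hs).unique (hσ' s hs)
  exact (hd.differentiableOn.analyticOnNhd isOpen_univ).eq_of_eventuallyEq
    (hd'.differentiableOn.analyticOnNhd isOpen_univ) hnhds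

lemma W_ne_zero [NeZero N] (hf : IsNewform N k f) {W : ℂ}
    (hW : ∀ z : ℍ, f (ofComplex (-1 / ((N : ℂ) * z))) = W * (z : ℂ) ^ k * f z) : W ≠ 0 := by
  rintro rfl
  have hN : (0 : ℝ) < N := by exact_mod_cast (NeZero.pos N)
  have hNC : (N : ℂ) ≠ 0 := by exact_mod_cast (NeZero.ne N)
  have h0 : ∀ z : ℍ, f z = 0 := by
    intro z
    have hzC : (z : ℂ) ≠ 0 := z.ne_zero
    have him : 0 < (-1 / ((N : ℂ) * z)).im := by
      rw [neg_div, Complex.neg_im, one_div, Complex.inv_im, neg_div, neg_neg]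
      have h1 : 0 < ((N : ℂ) * z).im := by
        rw [Complex.mul_im]
        simp only [Complex.natCast_re, Complex.natCast_im, zero_mul, add_zero]
        exact mul_pos hN z.im_pos
      exact div_pos h1 (Complex.normSq_pos.2 (ne_zero_of_im h1))
    have h1 := hW ⟨-1 / ((N : ℂ) * z), him⟩
    have h2 : -1 / ((N : ℂ) * ((⟨-1 / ((N : ℂ) * z), him⟩ : ℍ) : ℂ)) = z := by
      change -1 / ((N : ℂ) * (-1 / ((N : ℂ) * z))) = z
      field_simp
    rw [h2, ofComplex_apply] at h1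
    rw [h1]
    ring
  have h1 : (f : ℍ → ℂ) = 0 := funext h0
  have h2 := hf.coeff_one
  rw [h1, qExpansion_zero] at h2
  simp at h2

/-- twists of conductor prime to the level -/
lemma L_coprime [NeZero N] (hk : 0 < k) (hf : IsNewform N k f) {m : ℕ} [NeZero m]
    (hNm : Nat.Coprime N m) (ψ : DirichletCharacter ℂ m) (hprim : ψ.IsPrimitive) (hsq : ψ ^ 2 = 1)
    {W : ℂ} (hW : ∀ z : ℍ, f (ofComplex (-1 / ((N : ℂ) * z))) = W * (z : ℂ) ^ k * f z) :
    ∃ L : ℂ → ℂ, IsTwistedLFunction N k f ψ L ∧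
      (ψ (-((N : ZMod m))) * (W * (Complex.I / ((Real.sqrt N : ℝ) : ℂ)) ^ k) ≠ 1 → L (1 / 2) = 0) := by
  have hN : (0 : ℝ) < N := by exact_mod_cast (NeZero.pos N)
  have hm : (0 : ℝ) < m := by exact_mod_cast (NeZero.pos m)
  have hsN : 0 < Real.sqrt N := Real.sqrt_pos.2 hN
  have hsNC : ((Real.sqrt N : ℝ) : ℂ) ≠ 0 := by exact_mod_cast hsN.ne'
  have hmC : (m : ℂ) ≠ 0 := by exact_mod_cast (NeZero.ne m)
  have hW0 := W_ne_zero f hf hW
  have hunit : IsUnit (-((N : ZMod m))) := (((ZMod.isUnit_iff_coprime _ _).2 hNm)).neg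
  have hψ : ψ (-((N : ZMod m))) ≠ 0 := (hunit.map ψ).ne_zero
  have hsq2 : ((Real.sqrt N : ℝ) : ℂ) ^ 2 = (N : ℂ) := by
    rw [← Complex.ofReal_pow, Real.sq_sqrt hN.le, Complex.ofReal_natCast]
  refine main_L f hk hf ψ hprim hsq (m * Real.sqrt N) (by positivity)
    (ψ (-((N : ZMod m))) * (W * (Complex.I / ((Real.sqrt N : ℝ) : ℂ)) ^ k))
    (mul_ne_zero hψ (mul_ne_zero hW0 (zpow_ne_zero _ (div_ne_zero Complex.I_ne_zero hsNC)))) ?_
  intro t ht
  have htC : (t : ℂ) ≠ 0 := by exact_mod_cast ht.ne'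
  have him : 0 < (Complex.I * ((t / (m * Real.sqrt N) : ℝ) : ℂ)).im := by
    simp only [Complex.I_mul_im, Complex.ofReal_re]
    positivity
  have h1 := TS_one f hW (NeZero.pos N) hNm ψ hsq him
  have e1 : -1 / ((N : ℂ) * (m : ℂ) ^ 2 * (Complex.I * ((t / (m * Real.sqrt N) : ℝ) : ℂ))) =
      Complex.I * ((1 / t / (m * Real.sqrt N) : ℝ) : ℂ) := by
    rw [← hsq2]
    push_cast
    have hI : Complex.I ^ 2 = -1 := Complex.I_sq
    field_simp
    rw [hI]
  rw [e1] at h1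
  rw [h1]
  have e2 : (m : ℂ) * (Complex.I * ((t / (m * Real.sqrt N) : ℝ) : ℂ)) =
      (Complex.I / ((Real.sqrt N : ℝ) : ℂ)) * (t : ℂ) := by
    push_cast
    field_simp
  rw [e2, mul_zpow]
  have e3 : (((t ^ (k : ℝ) : ℝ)) : ℂ) = (t : ℂ) ^ k := by
    rw [Real.rpow_intCast]
    push_cast
    rfl
  rw [e3]
  ring

/-- twists of conductor divisible by the level -/
lemma L_dvd [NeZero N] (hk : 0 < k) (hf : IsNewform N k f) {m : ℕ} [NeZero m]
    (hNm : N ∣ m) (ψ : DirichletCharacter ℂ m) (hprim : ψ.IsPrimitive) (hsq : ψ ^ 2 = 1) :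
    ∃ L : ℂ → ℂ, IsTwistedLFunction N k f ψ L ∧
      (ψ (-1) * Complex.I ^ k ≠ 1 → L (1 / 2) = 0) := by
  have hm : (0 : ℝ) < m := by exact_mod_cast (NeZero.pos m)
  have hmC : (m : ℂ) ≠ 0 := by exact_mod_cast (NeZero.ne m)
  have hψ : ψ (-1) ≠ 0 := ((isUnit_one.neg : IsUnit (-1 : ZMod m)).map ψ).ne_zero
  refine main_L f hk hf ψ hprim hsq m hm (ψ (-1) * Complex.I ^ k)
    (mul_ne_zero hψ (zpow_ne_zero _ Complex.I_ne_zero)) ?_
  intro t ht
  have htC : (t : ℂ) ≠ 0 := by exact_mod_cast ht.ne'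
  have him : 0 < (Complex.I * ((t / m : ℝ) : ℂ)).im := by
    simp only [Complex.I_mul_im, Complex.ofReal_re]
    positivity
  have h1 := TS_two f hNm ψ hsq him
  have e1 : -1 / ((m : ℂ) ^ 2 * (Complex.I * ((t / m : ℝ) : ℂ))) =
      Complex.I * ((1 / t / m : ℝ) : ℂ) := by
    push_cast
    have hI : Complex.I ^ 2 = -1 := Complex.I_sq
    field_simp
    rw [hI]
  rw [e1] at h1
  rw [h1]
  have e2 : (m : ℂ) * (Complex.I * ((t / m : ℝ) : ℂ)) = Complex.I * (t : ℂ) := by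
    push_cast
    field_simp
  rw [e2, mul_zpow]
  have e3 : (((t ^ (k : ℝ) : ℝ)) : ℂ) = (t : ℂ) ^ k := by
    rw [Real.rpow_intCast]
    push_cast
    rfl
  rw [e3]
  ring

/-- existence of the `L`-functions -/
theorem exists_L [NeZero N] (hN : N = 1 ∨ N.Prime) (hk : 0 < k) (hf : IsNewform N k f) {m : ℕ}
    [NeZero m] (ψ : DirichletCharacter ℂ m) (hprim : ψ.IsPrimitive) (hsq : ψ ^ 2 = 1) :
    ∃ L : ℂ → ℂ, IsTwistedLFunction N k f ψ L := by
  obtain ⟨W, hW⟩ := hf.fricke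
  by_cases hNm : Nat.Coprime N m
  · obtain ⟨L, h1, -⟩ := L_coprime f hk hf hNm ψ hprim hsq hW
    exact ⟨L, h1⟩
  · have : N ∣ m := by
      rcases hN with rfl | hN
      · exact one_dvd _
      · by_contra h
        exact hNm ((Nat.Prime.coprime_iff_not_dvd hN).2 h)
    obtain ⟨L, h1, -⟩ := L_dvd f hk hf this ψ hprim hsq
    exact ⟨L, h1⟩

section chars

open DirichletCharacter

variable {a b : ℕ} [NeZero a] [NeZero b] (χ : DirichletCharacter ℂ a) (ψ : DirichletCharacter ℂ b)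

lemma prod_apply {n : ℤ} (hn : IsCoprime n (Nat.lcm a b : ℤ)) :
    primitive_mul χ ψ (n : ZMod _) = χ n * ψ n := by
  have h1 := primitiveCharacter_apply_of_isCoprime (χ := mul χ ψ) hn
  change primitiveCharacter (mul χ ψ) (n : ZMod _) = _
  rw [h1]
  unfold mul
  rw [MulChar.mul_apply, changeLevel_eq_cast_of_dvd' χ _ hn, changeLevel_eq_cast_of_dvd' ψ _ hn]

lemma mul_sq (h1 : χ ^ 2 = 1) (h2 : ψ ^ 2 = 1) : (mul χ ψ) ^ 2 = 1 := by
  unfold mul
  rw [mul_pow, ← map_pow, ← map_pow, h1, h2, map_one, map_one, one_mul]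

lemma prod_sq (h1 : χ ^ 2 = 1) (h2 : ψ ^ 2 = 1) : (primitive_mul χ ψ) ^ 2 = 1 := by
  have : NeZero (Nat.lcm a b) := ⟨Nat.lcm_ne_zero (NeZero.ne a) (NeZero.ne b)⟩
  apply changeLevel_injective (conductor_dvd_level (mul χ ψ))
  rw [map_pow, map_one]
  have h3 : changeLevel (conductor_dvd_level (mul χ ψ)) (primitive_mul χ ψ) = mul χ ψ :=
    changeLevel_primitiveCharacter (mul χ ψ)
  rw [h3]
  exact mul_sq χ ψ h1 h2

lemma conductor_dvd_right (hψ : ψ.IsPrimitive) (h1 : χ ^ 2 = 1) :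
    b ∣ a.lcm (mul χ ψ).conductor := by
  have : NeZero (Nat.lcm a b) := ⟨Nat.lcm_ne_zero (NeZero.ne a) (NeZero.ne b)⟩
  have h2 : changeLevel (Nat.dvd_lcm_right a b) ψ =
      changeLevel (Nat.dvd_lcm_left a b) χ * mul χ ψ := by
    unfold mul
    rw [← mul_assoc, ← sq, ← map_pow, h1, map_one, one_mul]
  have h3 := conductor_mul_dvd_lcm_conductor (changeLevel (Nat.dvd_lcm_left a b) χ) (mul χ ψ)
  rw [← h2, conductor_changeLevel, conductor_changeLevel, hψ] at h3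
  exact h3.trans (Nat.lcm_dvd ((conductor_dvd_level χ).trans (Nat.dvd_lcm_left _ _)) (Nat.dvd_lcm_right _ _))

end chars

/-- the sign obstruction for two characters with opposite signs -/
theorem pair_aux [NeZero N] (hN : N = 1 ∨ N.Prime) (hk : 0 < k) (hf : IsNewform N k f)
    {b c : ℕ} [NeZero b] [NeZero c] (ψ : DirichletCharacter ℂ b) (θ : DirichletCharacter ℂ c)
    (hψ : ψ.IsPrimitive) (hψ2 : ψ ^ 2 = 1) (hθp : θ.IsPrimitive) (hθ2 : θ ^ 2 = 1)
    (hθ1 : θ (-1) = -ψ (-1))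
    (hco : Nat.Coprime N b → Nat.Coprime N c ∧ θ (-(N : ZMod c)) = -ψ (-(N : ZMod b)))
    (hdv : N.Prime → N ∣ b → N ∣ c) {L₁ L₂ : ℂ → ℂ}
    (h1 : IsTwistedLFunction N k f ψ L₁) (h2 : IsTwistedLFunction N k f θ L₂) :
    L₁ (1 / 2) = 0 ∨ L₂ (1 / 2) = 0 := by
  obtain ⟨W, hW⟩ := hf.fricke
  by_cases hNb : Nat.Coprime N b
  · -- both conductors are prime to the level
    obtain ⟨hNc, hθN⟩ := hco hNb
    obtain ⟨L₁', e1, e2⟩ := L_coprime f hk hf hNb ψ hψ hψ2 hW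
    obtain ⟨L₂', e3, e4⟩ := L_coprime f hk hf hNc θ hθp hθ2 hW
    rw [unique f h1 e1, unique f h2 e3]
    by_cases hs : ψ (-(N : ZMod b)) * (W * (Complex.I / ((Real.sqrt N : ℝ) : ℂ)) ^ k) = 1
    · right
      apply e4
      rw [hθN, neg_mul, hs]
      norm_num
    · exact Or.inl (e2 hs)
  · -- both conductors are divisible by the level
    have hNp : N.Prime := by
      rcases hN with rfl | hN
      · exact absurd (Nat.coprime_one_left b) hNb
      · exact hN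
    have hdb : N ∣ b := by
      by_contra h
      exact hNb ((Nat.Prime.coprime_iff_not_dvd hNp).2 h)
    have hdc : N ∣ c := hdv hNp hdb
    obtain ⟨L₁', e1, e2⟩ := L_dvd f hk hf hdb ψ hψ hψ2
    obtain ⟨L₂', e3, e4⟩ := L_dvd f hk hf hdc θ hθp hθ2
    rw [unique f h1 e1, unique f h2 e3]
    by_cases hs : ψ (-1) * Complex.I ^ k = 1
    · right
      apply e4
      rw [hθ1, neg_mul, hs]
      norm_num
    · exact Or.inl (e2 hs)

/-- **The sign obstruction.** -/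
theorem pair [NeZero N] (hN : N = 1 ∨ N.Prime) (hk : 0 < k) (hf : IsNewform N k f)
    {a b : ℕ} [NeZero a] [NeZero b] (χ : DirichletCharacter ℂ a) (ψ : DirichletCharacter ℂ b)
    (hχ2 : χ ^ 2 = 1) (hχ1 : χ (-1) = -1) (hχN : χ N = 1)
    (hψ : ψ.IsPrimitive) (hψ2 : ψ ^ 2 = 1) {L₁ L₂ : ℂ → ℂ}
    (h1 : IsTwistedLFunction N k f ψ L₁)
    (h2 : IsTwistedLFunction N k f (DirichletCharacter.primitive_mul χ ψ) L₂) :
    L₁ (1 / 2) = 0 ∨ L₂ (1 / 2) = 0 := by
  have hlcm : NeZero (Nat.lcm a b) := ⟨Nat.lcm_ne_zero (NeZero.ne a) (NeZero.ne b)⟩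
  have hcne : NeZero (DirichletCharacter.mul χ ψ).conductor :=
    ⟨DirichletCharacter.conductor_ne_zero (DirichletCharacter.mul χ ψ)⟩
  have hca : (DirichletCharacter.mul χ ψ).conductor ∣ Nat.lcm a b :=
    DirichletCharacter.conductor_dvd_level _
  have hNa : Nat.Coprime N a := by
    have h3 : IsUnit ((N : ZMod a)) := by
      by_contra h
      rw [MulChar.map_nonunit χ h] at hχN
      exact zero_ne_one hχN
    exact (ZMod.isUnit_iff_coprime N a).1 h3
  refine pair_aux f hN hk hf ψ (DirichletCharacter.primitive_mul χ ψ) hψ hψ2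
    (DirichletCharacter.primitive_mul_isPrimitive (χ := χ) ψ) (prod_sq χ ψ hχ2 hψ2) ?_ ?_ ?_ h1 h2
  · have h3 := prod_apply χ ψ (n := -1) (isCoprime_one_left.neg_left)
    push_cast at h3
    rw [hχ1] at h3
    rw [h3]
    ring
  · intro hNb
    have hNl : Nat.Coprime N (Nat.lcm a b) :=
      Nat.Coprime.coprime_dvd_right (Nat.lcm_dvd_mul a b) (Nat.Coprime.mul_right hNa hNb)
    refine ⟨Nat.Coprime.coprime_dvd_right hca hNl, ?_⟩
    have h3 := prod_apply χ ψ (n := -(N : ℤ)) (by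
      refine IsCoprime.neg_left ?_
      exact_mod_cast Nat.isCoprime_iff_coprime.2 hNl)
    push_cast at h3
    have h4 : χ (-(N : ZMod a)) = -1 := by
      rw [neg_eq_neg_one_mul, map_mul, hχ1, hχN]; ring
    rw [h4] at h3
    rw [h3]
    ring
  · intro hNp hdb
    have h3 : N ∣ a.lcm (DirichletCharacter.mul χ ψ).conductor :=
      hdb.trans (conductor_dvd_right χ ψ hψ hχ2)
    have h4 : N ∣ a * (DirichletCharacter.mul χ ψ).conductor := h3.trans (Nat.lcm_dvd_mul a _)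
    rcases (Nat.Prime.dvd_mul hNp).1 h4 with h | h
    · exact absurd h ((Nat.Prime.coprime_iff_not_dvd hNp).1 hNa)
    · exact h

end Pool.Agent.Q18.Pairs
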