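import Pool.Agent.Q18.Maass
import Pool.Agent.Q18.BesselMellin

/-!
# Fourier expansion of an odd Hecke–Maass form
-/

set_option autoImplicit false

open MeasureTheory Filter Topology UpperHalfPlane Laplacian
open scoped ENNReal MatrixGroups ContDiff

noncomputable section

namespace Pool.Agent.Q18

open Pool.Agent.Q18.Hyp Pool.Agent.Q18.Four Pool.Agent.Q18.Bessel Pool.Agent.Q18.Coeff

namespace HeckeMaassForm

variable (π : HeckeMaassForm)

/-- extension to the complex plane -/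
def F (z : ℂ) : ℂ := π.toFun (ofComplex z)

theorem F_smooth : ContDiffOn ℝ ∞ π.F U := π.smooth

theorem F_cont : ContinuousOn π.F U := π.F_smooth.continuousOn

theorem F_inv (a b c d : ℤ) (h : a * d - b * c = 1) {z z' : ℂ} (hz : z ∈ U) (hz' : z' ∈ U)
    (e : z' * (c * z + d) = a * z + b) : π.F z' = π.F z := by
  refine inv_of_eq π.invariant a b c d h ?_
  rw [oc hz, oc hz']
  exact e

theorem F_per (z : ℂ) (hz : z ∈ U) : π.F (z + 1) = π.F z := by
  have hz1 : z + 1 ∈ U := by
    show 0 < (z + 1).im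
    have : 0 < z.im := hz
    simpa using this
  refine π.F_inv 1 1 0 1 (by ring) hz hz1 ?_
  push_cast; ring

theorem F_odd (hodd : π.IsOdd) (x y : ℝ) (hy : 0 < y) : π.F (pt (-x) y) = - π.F (pt x y) := by
  have h1 : 0 < (pt x y).im := by rw [pt_im]; exact hy
  have h2 := hodd (ofComplex (pt x y))
  unfold F
  rw [← h2, oc h1]
  congr 2
  unfold pt
  simp
  ring

theorem F_hecke (p : ℕ) (hp : p.Prime) : ∀ z ∈ U, π.F (p * z) +
    ∑ b ∈ Finset.range p, π.F ((z + b) / p) = (√p : ℂ) * π.hecke p * π.F z := by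
  intro z hz
  have := π.hecke_eq p hp (ofComplex z)
  rw [oc hz] at this
  exact this

theorem hasLap : ∃ G Fx Fy Fxx Fyy : ℂ → ℂ, HasLap π.F G Fx Fy Fxx Fyy ∧
    ∀ z ∈ U, G z = -π.eigen * π.F z := by
  refine ⟨_, _, _, _, _, hasLap_of_contDiff π.F_smooth, fun z hz => ?_⟩
  have := π.laplace (ofComplex z)
  rw [oc hz] at this
  have h2 : (((ofComplex z : ℍ).im : ℝ) : ℂ) = (z.im : ℂ) := by
    have := congrArg Complex.im (oc hz)
    rw [← this]; rfl
  rw [h2] at this
  show (z.im : ℂ) ^ 2 * (Δ π.F) z = -π.eigen * π.F z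
  have h3 : -((z.im : ℂ) ^ 2) * (Δ π.F) z = π.eigen * π.F z := this
  linear_combination -h3

/-- shifted coefficient functions -/
def cf (n : ℕ) (y : ℝ) : ℂ := co π.F n (y / n)

theorem cf_rel (p : ℕ) (hp : p.Prime) (n : ℕ) (hn : 0 < n) {y : ℝ} (hy : 0 < y) :
    (√p : ℂ) * π.hecke p * π.cf n y = (if p ∣ n then π.cf (n / p) y else 0) + p * π.cf (p * n) y := by
  have hnR : (0 : ℝ) < n := by exact_mod_cast hn
  have hpR : (0 : ℝ) < p := by exact_mod_cast hp.pos
  have h := co_hecke π.F_cont π.F_per hp.pos (π.F_hecke p hp) n (y := y / n) (by positivity)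
  unfold cf
  rw [h]
  congr 1
  · have hiff : ((p : ℤ) ∣ (n : ℤ)) ↔ p ∣ n := Int.natCast_dvd_natCast
    by_cases hd : p ∣ n
    · rw [if_pos hd, if_pos (hiff.2 hd)]
      obtain ⟨k, rfl⟩ := hd
      have hk : 0 < k := by
        rcases Nat.eq_zero_or_pos k with rfl | h'
        · simp at hn
        · exact h'
      have hkR : (0 : ℝ) < k := by exact_mod_cast hk
      rw [Nat.mul_div_cancel_left _ hp.pos]
      have e : ((p * k : ℕ) : ℤ) / (p : ℤ) = (k : ℤ) := by
        push_cast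
        exact Int.mul_ediv_cancel_left _ (by exact_mod_cast hp.ne_zero)
      rw [e]
      congr 1
      push_cast
      field_simp
    · rw [if_neg hd, if_neg (fun h => hd (hiff.1 h))]
  · congr 1
    push_cast
    congr 1
    field_simp

theorem cf_prop : ∀ n : ℕ, 0 < n → ∃ α : ℂ, ∀ y : ℝ, 0 < y → π.cf n y = α * π.cf 1 y := by
  intro n
  induction n using Nat.strong_induction_on with
  | _ n ih =>
    intro hn
    rcases eq_or_ne n 1 with rfl | hn1
    · exact ⟨1, fun y _ => by rw [one_mul]⟩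
    obtain ⟨p, hp, k, rfl⟩ := Nat.exists_prime_and_dvd hn1
    have hk : 0 < k := by
      rcases Nat.eq_zero_or_pos k with rfl | h'
      · simp at hn
      · exact h'
    have hlt : k < p * k := by
      have := hp.two_le
      nlinarith
    obtain ⟨α, hα⟩ := ih k hlt hk
    have hpC : (p : ℂ) ≠ 0 := by exact_mod_cast hp.ne_zero
    by_cases hd : p ∣ k
    · obtain ⟨l, rfl⟩ := hd
      have hl : 0 < l := by
        rcases Nat.eq_zero_or_pos l with rfl | h'
        · simp at hk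
        · exact h'
      have hlt2 : l < p * (p * l) := by
        have := hp.two_le
        nlinarith [Nat.mul_pos hp.pos hl]
      obtain ⟨β, hβ⟩ := ih l hlt2 hl
      refine ⟨((√p : ℂ) * π.hecke p * α - β) / p, fun y hy => ?_⟩
      have h := π.cf_rel p hp (p * l) hk hy
      rw [if_pos (dvd_mul_right p l), Nat.mul_div_cancel_left _ hp.pos, hα y hy, hβ y hy] at h
      field_simp
      linear_combination -h
    · refine ⟨((√p : ℂ) * π.hecke p * α) / p, fun y hy => ?_⟩
      have h := π.cf_rel p hp k hk hy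
      rw [if_neg hd, hα y hy] at h
      field_simp
      linear_combination -h

theorem co_one (y : ℝ) : π.cf 1 y = co π.F 1 y := by
  unfold cf; simp

theorem co_eq (n : ℕ) (hn : 0 < n) (y : ℝ) : co π.F n y = π.cf n (n * y) := by
  unfold cf
  congr 1
  have : (n : ℝ) ≠ 0 := by exact_mod_cast hn.ne'
  field_simp

theorem exists_ne (hodd : π.IsOdd) : ∃ y0 : ℝ, 0 < y0 ∧ π.cf 1 y0 ≠ 0 := by
  by_contra hcon
  push Not at hcon
  obtain ⟨z, hz⟩ := π.nonzero
  apply hz
  have h1 : ∀ n : ℤ, co π.F n z.im = 0 := by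
    have hnat : ∀ n : ℕ, 0 < n → co π.F n z.im = 0 := by
      intro n hn
      obtain ⟨α, hα⟩ := π.cf_prop n hn
      have hpos : 0 < (n : ℝ) * z.im := by
        have := z.im_pos
        have : (0 : ℝ) < n := by exact_mod_cast hn
        positivity
      rw [π.co_eq n hn, hα _ hpos, hcon _ hpos, mul_zero]
    intro n
    obtain ⟨m, rfl | rfl⟩ := n.eq_nat_or_neg
    · rcases Nat.eq_zero_or_pos m with rfl | hm
      · exact co_zero_of_odd π.F_per (π.F_odd hodd) z.im_pos
      · exact hnat m hm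
    · rcases Nat.eq_zero_or_pos m with rfl | hm
      · simpa using co_zero_of_odd π.F_per (π.F_odd hodd) z.im_pos
      · rw [co_neg π.F_per (π.F_odd hodd) _ z.im_pos, hnat m hm, neg_zero]
  have h2 := fourier_hasSum π.F_cont π.F_per z.im_pos (by simp_rw [h1]; exact summable_zero) z.re
  simp_rw [h1, zero_mul] at h2
  have h3 := h2.unique hasSum_zero
  have h4 : pt z.re z.im = (z : ℂ) := by
    apply Complex.ext <;> simp [pt]
  rw [h4, F, ofComplex_apply] at h3
  exact h3

theorem exists_coeff (hodd : π.IsOdd) : ∃ (ν c : ℂ) (a : ℕ → ℂ) (C M : ℝ), c ≠ 0 ∧ HeckeSeq a ∧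
    (∀ p, p.Prime → a p = π.hecke p) ∧ 0 ≤ C ∧ (∀ n, ‖a n‖ ≤ C * √n) ∧
    (∀ n : ℕ, 0 < n → ∀ y : ℝ, 0 < y → co π.F n y = c * (a n / √n) * B ν (n * y)) ∧
    (∀ y, 0 < y → ‖B ν y‖ ≤ M) := by
  obtain ⟨y0, hy0, hne⟩ := π.exists_ne hodd
  obtain ⟨M, hM⟩ := π.bounded
  have hMF : ∀ z ∈ U, ‖π.F z‖ ≤ M := fun z _ => hM _
  obtain ⟨G, Fx, Fy, Fxx, Fyy, hl, hG⟩ := π.hasLap
  obtain ⟨ν, hν⟩ := IsAlgClosed.exists_pow_nat_eq (1 / 4 - π.eigen) (n := 2) (by norm_num)
  -- the Bessel function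
  obtain ⟨c, hc⟩ := bounded_solution (ν := ν) (B_ne_zero ν) (W := co π.F 1) (W1 := co Fy 1)
    (fun y hy => (co_ode hl π.F_cont hG π.F_per 1 hy).1)
    (fun y hy => by
      refine (co_ode hl π.F_cont hG π.F_per 1 hy).2.congr_deriv ?_
      rw [hν]
      push_cast
      ring) (M := M) (fun y hy => co_bound hMF 1 hy)
  have hc0 : c ≠ 0 := by
    intro h
    apply hne
    rw [co_one, hc y0 hy0, h, zero_mul]
  set α : ℕ → ℂ := fun n => if n = 0 then 0 else π.cf n y0 / π.cf 1 y0 with hα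
  have hα0 : α 0 = 0 := by simp [hα]
  have hα1 : α 1 = 1 := by simp [hα, hne]
  have hαn : ∀ n, 0 < n → α n = π.cf n y0 / π.cf 1 y0 := fun n hn => by simp [hα, hn.ne']
  have hcf : ∀ n, 0 < n → ∀ y : ℝ, 0 < y → π.cf n y = α n * π.cf 1 y := by
    intro n hn y hy
    obtain ⟨β, hβ⟩ := π.cf_prop n hn
    have : α n = β := by
      rw [hαn n hn, hβ y0 hy0]; field_simp
    rw [this, hβ y hy]
  have hrel : ∀ p : ℕ, p.Prime → ∀ n, 0 < n → (√p : ℂ) * π.hecke p * α n =
      (if p ∣ n then α (n / p) else 0) + p * α (p * n) := by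
    intro p hp n hn
    have h := π.cf_rel p hp n hn hy0
    have h1 : 0 < p * n := Nat.mul_pos hp.pos hn
    rw [hcf n hn y0 hy0, hcf _ h1 y0 hy0] at h
    by_cases hd : p ∣ n
    · rw [if_pos hd] at h ⊢
      have h2 : 0 < n / p := Nat.div_pos (Nat.le_of_dvd hn hd) hp.pos
      rw [hcf _ h2 y0 hy0] at h
      have : ((√p : ℂ) * π.hecke p * α n - (α (n / p) + p * α (p * n))) * π.cf 1 y0 = 0 := by
        linear_combination h
      have := (mul_eq_zero.1 this).resolve_right hne
      linear_combination this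
    · rw [if_neg hd] at h ⊢
      have : ((√p : ℂ) * π.hecke p * α n - (0 + p * α (p * n))) * π.cf 1 y0 = 0 := by
        linear_combination h
      have := (mul_eq_zero.1 this).resolve_right hne
      linear_combination this
  have hsq : ∀ n : ℕ, (√(n : ℝ) : ℂ) ^ 2 = n := by
    intro n
    have := Real.sq_sqrt (Nat.cast_nonneg (α := ℝ) n)
    exact_mod_cast this
  have hsq0 : ∀ n : ℕ, 0 < n → (√(n : ℝ) : ℂ) ≠ 0 := by
    intro n hn
    have : 0 < √(n : ℝ) := Real.sqrt_pos.2 (by exact_mod_cast hn)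
    exact_mod_cast this.ne'
  have hsqm : ∀ m n : ℕ, (√((m * n : ℕ) : ℝ) : ℂ) = (√(m : ℝ) : ℂ) * (√(n : ℝ) : ℂ) := by
    intro m n
    rw [Nat.cast_mul, Real.sqrt_mul (Nat.cast_nonneg m)]
    push_cast; ring
  have hap : ∀ p : ℕ, p.Prime → (√p : ℂ) * α p = π.hecke p := by
    intro p hp
    have h := hrel p hp 1 one_pos
    rw [if_neg (by simpa using hp.ne_one), hα1, mul_one, mul_one, zero_add] at h
    have h2 := hsq p
    have h3 := hsq0 p hp.pos
    have : (√p : ℂ) * ((√p : ℂ) * α p - π.hecke p) = 0 := by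
      linear_combination α p * h2 - h
    have := (mul_eq_zero.1 this).resolve_left h3
    linear_combination this
  refine ⟨ν, c, fun n => (√n : ℂ) * α n, M / ‖π.cf 1 y0‖, M / ‖c‖, hc0, ⟨?_, ?_, ?_⟩, hap, ?_, ?_, ?_, ?_⟩
  · simp
  · simp [hα1]
  · intro p hp n hn
    have h := hrel p hp n hn
    have h2 := hsq p
    have h3 := hsq0 p hp.pos
    have hp' := hap p hp
    rw [← hp'] at h
    rw [hsqm]
    by_cases hd : p ∣ n
    · rw [if_pos hd] at h ⊢
      obtain ⟨k, rfl⟩ := hd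
      rw [Nat.mul_div_cancel_left _ hp.pos] at h ⊢
      rw [hsqm p k]
      -- √p α_p √p √k α(pk) = √p √p √k α(p p k) + √k α k
      linear_combination (√(k : ℝ) : ℂ) * h + ((√(k : ℝ) : ℂ) * α (p * (p * k))) * (-h2)
    · rw [if_neg hd] at h ⊢
      have e : (√p : ℂ) * (((√p : ℂ) * α p) * ((√n : ℂ) * α n) - ((√p : ℂ) * (√n : ℂ) * α (p * n) + 0)) = 0 := by
        linear_combination (√(n : ℝ) : ℂ) * h + ((√(n : ℝ) : ℂ) * α (p * n)) * (-h2)
      have := (mul_eq_zero.1 e).resolve_left h3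
      linear_combination this
  · exact div_nonneg ((norm_nonneg _).trans (hM I)) (norm_nonneg _)
  · intro n
    rcases Nat.eq_zero_or_pos n with rfl | hn
    · simp
    rw [norm_mul, Complex.norm_real, Real.norm_eq_abs, abs_of_nonneg (Real.sqrt_nonneg _), mul_comm]
    refine mul_le_mul_of_nonneg_right ?_ (Real.sqrt_nonneg _)
    rw [hαn n hn, norm_div]
    refine div_le_div_of_nonneg_right ?_ (norm_nonneg _)
    exact co_bound hMF n (by
      have : (0 : ℝ) < n := by exact_mod_cast hn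
      positivity)
  · intro n hn y hy
    have hpos : 0 < (n : ℝ) * y := by
      have : (0 : ℝ) < n := by exact_mod_cast hn
      positivity
    rw [π.co_eq n hn, hcf n hn _ hpos, co_one, hc _ hpos]
    have := hsq0 n hn
    field_simp
  · intro y hy
    have h1 := co_bound hMF 1 hy
    rw [hc y hy, norm_mul] at h1
    rw [le_div_iff₀ (norm_pos_iff.2 hc0)]
    linarith

end HeckeMaassForm

end Pool.Agent.Q18
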