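import Pool.Agent.Q18.System

/-!
# Quadratic twists of an odd Hecke–Maass form
-/

set_option autoImplicit false

open MeasureTheory Filter Topology UpperHalfPlane
open scoped ENNReal MatrixGroups ContDiff

noncomputable section

namespace Pool.Agent.Q18

open Pool.Agent.Q18.Hyp Pool.Agent.Q18.Four Pool.Agent.Q18.Bessel Pool.Agent.Q18.Coeff

section gauss

variable {q : ℕ} [NeZero q] {χ : DirichletCharacter ℂ q}

theorem gauss_ne_zero (hχ : χ.IsPrimitive) : gaussSum χ (ZMod.stdAddChar (N := q)) ≠ 0 := by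
  intro h
  have h1 : ZMod.dft (fun a => χ a) = 0 := by
    funext k
    have := hχ.fourierTransform_eq_inv_mul_gaussSum k
    rw [h, mul_zero] at this
    exact this
  have h2 : (fun a => χ a) = 0 := by
    have := (ZMod.dft (N := q) (E := ℂ)).injective (h1.trans (map_zero _).symm)
    exact this
  have h3 := congrFun h2 1
  simp at h3

theorem sum_units (χ : DirichletCharacter ℂ q) (g : ZMod q → ℂ) :
    ∑ a : ZMod q, χ a * g a = ∑ u : (ZMod q)ˣ, χ (u : ZMod q) * g u := by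
  classical
  have h1 : ∑ a : ZMod q, χ a * g a = ∑ a ∈ Finset.univ.filter (fun a : ZMod q => IsUnit a), χ a * g a := by
    rw [Finset.sum_filter]
    refine Finset.sum_congr rfl fun a _ => ?_
    by_cases ha : IsUnit a
    · rw [if_pos ha]
    · rw [if_neg ha, χ.map_nonunit ha, zero_mul]
  rw [h1]
  symm
  refine Finset.sum_bij (fun u _ => (u : ZMod q)) (fun u _ => ?_) (fun u _ v _ h => Units.ext h)
    (fun a ha => ?_) (fun u _ => rfl)
  · simp
  · rw [Finset.mem_filter] at ha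
    exact ⟨ha.2.unit, Finset.mem_univ _, rfl⟩

omit [NeZero q] in
theorem inv_eq_self (hq : χ ^ 2 = 1) : χ⁻¹ = χ := by
  rw [inv_eq_iff_mul_eq_one, ← sq]; exact hq

theorem sum_ex (hχ : χ.IsPrimitive) (hq : χ ^ 2 = 1) (n : ℤ) :
    ∑ u : (ZMod q)ˣ, χ (u : ZMod q) * ex n (((u : ZMod q).val : ℝ) / q) =
      χ n * gaussSum χ (ZMod.stdAddChar (N := q)) := by
  have h := gaussSum_mulShift_of_isPrimitive (ZMod.stdAddChar (N := q)) hχ (n : ZMod q)
  rw [inv_eq_self hq] at h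
  rw [← h, gaussSum, sum_units]
  refine Finset.sum_congr rfl fun u _ => ?_
  congr 1
  rw [AddChar.mulShift_apply]
  have e : (n : ZMod q) * (u : ZMod q) = ((n * ((u : ZMod q).val : ℤ) : ℤ) : ZMod q) := by
    push_cast
    rw [ZMod.natCast_zmod_val]
  rw [e, ZMod.stdAddChar_coe]
  unfold ex
  congr 1
  push_cast
  ring

end gauss

/-! ### the twisted function on the imaginary axis -/

/-- `∑_u χ(u) H(u/q + i y)` -/
def tf {q : ℕ} [NeZero q] (H : ℂ → ℂ) (χ : DirichletCharacter ℂ q) (y : ℝ) : ℂ :=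
  ∑ u : (ZMod q)ˣ, χ (u : ZMod q) * H (pt (((u : ZMod q).val : ℝ) / q) y)

section tf

variable {q : ℕ} [NeZero q]

theorem tf_cont {H : ℂ → ℂ} (hH : ContinuousOn H U) (χ : DirichletCharacter ℂ q) :
    ContinuousOn (tf H χ) (Set.Ioi 0) := by
  unfold tf
  refine continuousOn_finsetSum _ fun u _ => ContinuousOn.mul continuousOn_const ?_
  refine hH.comp ?_ fun y hy => pt_mem hy
  exact (by unfold pt; fun_prop : Continuous fun y : ℝ => pt (((u : ZMod q).val : ℝ) / q) y).continuousOn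

theorem tf_expand {H : ℂ → ℂ} (hH : ContinuousOn H U) (hper : ∀ z ∈ U, H (z + 1) = H z)
    {χ : DirichletCharacter ℂ q} (hχ : χ.IsPrimitive) (hq : χ ^ 2 = 1) {y : ℝ} (hy : 0 < y)
    (hsum : Summable fun n : ℤ => co H n y)
    (hsym : ∀ n : ℤ, co H (-n) y * χ ((-n : ℤ) : ZMod q) = co H n y * χ n)
    (h0 : co H 0 y * χ (0 : ZMod q) = 0) :
    HasSum (fun n : ℕ => 2 * gaussSum χ (ZMod.stdAddChar (N := q)) * (co H n y * χ n)) (tf H χ y) := by
  have h1 : HasSum (fun n : ℤ => ∑ u : (ZMod q)ˣ, χ (u : ZMod q) *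
      (co H n y * ex n (((u : ZMod q).val : ℝ) / q))) (tf H χ y) := by
    unfold tf
    refine hasSum_sum fun u _ => ?_
    exact (fourier_hasSum hH hper hy hsum _).mul_left _
  have h2 : HasSum (fun n : ℤ => gaussSum χ (ZMod.stdAddChar (N := q)) * (co H n y * χ n))
      (tf H χ y) := by
    refine h1.congr_fun fun n => ?_
    have h3 := sum_ex hχ hq n
    have h4 : ∑ u : (ZMod q)ˣ, χ (u : ZMod q) * (co H n y * ex n (((u : ZMod q).val : ℝ) / q)) =
        co H n y * ∑ u : (ZMod q)ˣ, χ (u : ZMod q) * ex n (((u : ZMod q).val : ℝ) / q) := by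
      rw [Finset.mul_sum]
      refine Finset.sum_congr rfl fun u _ => ?_
      ring
    rw [h4, h3]; ring
  have h5 := h2.nat_add_neg
  have h6 : gaussSum χ (ZMod.stdAddChar (N := q)) * (co H ((0 : ℤ)) y * χ (((0 : ℤ)) : ZMod q)) = 0 := by
    rw [Int.cast_zero, h0, mul_zero]
  rw [h6, add_zero] at h5
  refine h5.congr_fun fun n => ?_
  rw [hsym]
  simp only [Int.cast_natCast]
  ring

/-- the involution `u ↦ -u⁻¹` -/
def sig (q : ℕ) : (ZMod q)ˣ ≃ (ZMod q)ˣ where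
  toFun u := -u⁻¹
  invFun u := -u⁻¹
  left_inv u := by simp [inv_neg]
  right_inv u := by simp [inv_neg]

omit [NeZero q] in
theorem chi_sig {χ : DirichletCharacter ℂ q} (hq : χ ^ 2 = 1) (u : (ZMod q)ˣ) :
    χ ((sig q u : (ZMod q)ˣ) : ZMod q) = χ (-1) * χ (u : ZMod q) := by
  have h1 : ((sig q u : (ZMod q)ˣ) : ZMod q) = (-1) * ((u⁻¹ : (ZMod q)ˣ) : ZMod q) := by
    simp [sig]
  rw [h1, map_mul]
  congr 1
  have h2 : χ (u : ZMod q) ^ 2 = 1 := by
    have := congrArg (fun ψ : DirichletCharacter ℂ q => ψ (u : ZMod q)) hq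
    simpa [MulChar.pow_apply' _ (two_ne_zero)] using this
  have h3 : χ ((u⁻¹ : (ZMod q)ˣ) : ZMod q) * χ (u : ZMod q) = 1 := by
    rw [← map_mul, ← Units.val_mul]; simp
  have h4 : χ (u : ZMod q) ≠ 0 := by
    intro h; rw [h, mul_zero] at h3; exact zero_ne_one h3
  have : (χ ((u⁻¹ : (ZMod q)ˣ) : ZMod q) - χ (u : ZMod q)) * χ (u : ZMod q) = 0 := by
    linear_combination h3 - h2
  have := (mul_eq_zero.1 this).resolve_right h4
  linear_combination this

theorem sig_dvd (u : (ZMod q)ˣ) : ∃ k : ℤ, ((u : ZMod q).val : ℤ) * (((sig q u : (ZMod q)ˣ) : ZMod q).val : ℤ) + 1 =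
    q * k := by
  have : (q : ℤ) ∣ ((u : ZMod q).val : ℤ) * (((sig q u : (ZMod q)ˣ) : ZMod q).val : ℤ) + 1 := by
    rw [← ZMod.intCast_zmod_eq_zero_iff_dvd]
    push_cast
    rw [ZMod.natCast_zmod_val, ZMod.natCast_zmod_val]
    have : (u : ZMod q) * ((sig q u : (ZMod q)ˣ) : ZMod q) = -1 := by
      rw [← Units.val_mul]
      simp [sig]
    rw [this]; ring
  exact this

omit [NeZero q] in
theorem pt_rel {u v k : ℤ} (hq0 : 0 < q) (h : u * v + 1 = q * k) {y : ℝ} (hy : 0 < y) :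
    pt ((u : ℝ) / q) (1 / (q ^ 2 * y)) * ((q : ℤ) * pt ((v : ℝ) / q) y + ((-v : ℤ) : ℂ)) =
      (u : ℂ) * pt ((v : ℝ) / q) y + ((-k : ℤ) : ℂ) := by
  have hqC : (q : ℂ) ≠ 0 := by exact_mod_cast hq0.ne'
  have hyC : (y : ℂ) ≠ 0 := by exact_mod_cast hy.ne'
  have hC : (u : ℂ) * v + 1 = q * k := by exact_mod_cast h
  have hI := Complex.I_sq
  unfold pt
  push_cast
  field_simp
  ring_nf
  rw [hI]
  linear_combination (q : ℂ) * y * (-hC)

theorem pt_rel_im {q : ℕ} {v : ℤ} {y : ℝ} (hq0 : 0 < q) :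
    ((q : ℤ) * pt ((v : ℝ) / q) y + ((-v : ℤ) : ℂ)) = q * y * Complex.I := by
  have hqC : (q : ℂ) ≠ 0 := by exact_mod_cast hq0.ne'
  unfold pt
  push_cast
  field_simp
  ring

/-- functional equation of the twist -/
theorem tf_feq (π : HeckeMaassForm) {χ : DirichletCharacter ℂ q} (hq : χ ^ 2 = 1) {y : ℝ} (hy : 0 < y) :
    tf π.F χ (1 / (q ^ 2 * y)) = χ (-1) * tf π.F χ y := by
  have hq0 : 0 < q := Nat.pos_of_ne_zero (NeZero.ne q)
  have hqR : (0 : ℝ) < q := by exact_mod_cast hq0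
  unfold tf
  rw [Finset.mul_sum]
  refine (Fintype.sum_equiv (sig q) _ _ fun u => ?_)
  obtain ⟨k, hk⟩ := sig_dvd u
  rw [chi_sig hq]
  set v := ((sig q u : (ZMod q)ˣ) : ZMod q).val
  have h1 : π.F (pt (((u : ZMod q).val : ℝ) / q) (1 / (q ^ 2 * y))) = π.F (pt ((v : ℝ) / q) y) := by
    refine π.F_inv ((u : ZMod q).val : ℤ) (-k) q (-(v : ℤ)) (by linarith) (pt_mem hy)
      (pt_mem (by positivity)) ?_
    have := pt_rel hq0 hk hy
    simpa using this
  rw [h1]
  have h2 : χ (-1) * χ (-1) = 1 := by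
    rw [← map_mul]; simp
  linear_combination (χ (u : ZMod q) * π.F (pt ((v : ℝ) / q) y)) * (- h2)

/-- horizontal derivative -/
def _root_.Pool.Agent.Q18.HeckeMaassForm.Fx (π : HeckeMaassForm) (z : ℂ) : ℂ := fderiv ℝ π.F z 1

theorem Fx_inv (π : HeckeMaassForm) {a b c d : ℤ} (h : a * d - b * c = 1) {z z' : ℂ} (hz : z ∈ U)
    (hz' : z' ∈ U) (e : z' * (c * z + d) = a * z + b) {r : ℝ} (hr : r ≠ 0)
    (hd : (c * z + d : ℂ) = r * Complex.I) : π.Fx z' = -r ^ 2 * π.Fx z := by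
  have hrC : (r : ℂ) ≠ 0 := by exact_mod_cast hr
  have hden : (c * z + d : ℂ) ≠ 0 := by rw [hd]; exact mul_ne_zero hrC Complex.I_ne_zero
  have hI := Complex.I_sq
  have hC : (a : ℂ) * d - b * c = 1 := by exact_mod_cast h
  -- the Moebius curve
  set m : ℝ → ℂ := fun t => (a * (z + t * 1) + b) / (c * (z + t * 1) + d) with hm
  have hm0 : m 0 = z' := by
    rw [hm]
    simp only [Complex.ofReal_zero, zero_mul, add_zero]
    rw [div_eq_iff hden]; exact e.symm
  have hmd : HasDerivAt m (-(1 / (r : ℂ) ^ 2)) 0 := by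
    have h1 : HasDerivAt (fun t : ℝ => (t : ℂ)) 1 0 := Complex.ofRealCLM.hasDerivAt
    have h2 : HasDerivAt (fun t : ℝ => (a * (z + t * 1) + b : ℂ)) a 0 := by
      have := (((h1.mul_const 1).const_add z).const_mul (a : ℂ)).add_const (b : ℂ)
      simpa using this
    have h3 : HasDerivAt (fun t : ℝ => (c * (z + t * 1) + d : ℂ)) c 0 := by
      have := (((h1.mul_const 1).const_add z).const_mul (c : ℂ)).add_const (d : ℂ)
      simpa using this
    have h4 := h2.div h3 (by simpa using hden)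
    refine h4.congr_deriv ?_
    simp only [Complex.ofReal_zero, zero_mul, add_zero]
    rw [hd]
    have e5 : (a * (c * z + d) - (a * z + b) * c : ℂ) = 1 := by linear_combination hC
    have e6 : (a * (r * Complex.I) - (a * z + b) * c : ℂ) = 1 := by rw [← hd]; exact e5
    rw [e6, mul_pow, hI]
    field_simp
  have hL : HasFDerivAt π.F (fderiv ℝ π.F z') (m 0) := by
    rw [hm0]; exact (diffAt π.F_smooth hz').hasFDerivAt
  have h5 := hL.comp_hasDerivAt (0 : ℝ) hmd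
  have h6 : fderiv ℝ π.F z' (-(1 / (r : ℂ) ^ 2)) = -(1 / (r : ℂ) ^ 2) * π.Fx z' := by
    have e1 : (-(1 / (r : ℂ) ^ 2) : ℂ) = (-(1 / r ^ 2) : ℝ) • (1 : ℂ) := by
      rw [Complex.real_smul]; push_cast; ring
    have e2 : fderiv ℝ π.F z' (-(1 / (r : ℂ) ^ 2)) = (-(1 / r ^ 2) : ℝ) • fderiv ℝ π.F z' 1 := by
      rw [e1, map_smul]
    rw [e2, Complex.real_smul]
    push_cast
    rfl
  have h7 : HasDerivAt (fun t : ℝ => π.F (z + t * 1)) (π.Fx z) 0 :=
    HasFDerivAt.dir (diffAt π.F_smooth hz).hasFDerivAt 1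
  have h8 : (fun t : ℝ => π.F (z + t * 1)) =ᶠ[𝓝 0] π.F ∘ m := by
    have h9 : ∀ᶠ t : ℝ in 𝓝 0, m t ∈ U :=
      hmd.continuousAt.eventually_mem (isOpen_U.mem_nhds (by rw [hm0]; exact hz'))
    have h10 : ∀ᶠ t : ℝ in 𝓝 0, (c * (z + t * 1) + d : ℂ) ≠ 0 := by
      have hc : Continuous fun t : ℝ => (c * (z + t * 1) + d : ℂ) := by fun_prop
      exact hc.continuousAt.eventually_ne (by simpa using hden)
    filter_upwards [h9, h10] with t ht ht'
    simp only [Function.comp]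
    symm
    refine π.F_inv a b c d h ?_ ht ?_
    · show 0 < (z + t * 1).im
      have : 0 < z.im := hz
      simpa using this
    · rw [hm]
      simp only
      rw [div_mul_cancel₀ _ ht']
  have h11 := h7.unique (h5.congr_of_eventuallyEq h8)
  rw [h6] at h11
  rw [h11]
  field_simp

theorem tf_feq' (π : HeckeMaassForm) {χ : DirichletCharacter ℂ q} (hq : χ ^ 2 = 1) {y : ℝ} (hy : 0 < y) :
    tf π.Fx χ (1 / (q ^ 2 * y)) = -((q : ℂ) ^ 2 * y ^ 2) * (χ (-1) * tf π.Fx χ y) := by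
  have hq0 : 0 < q := Nat.pos_of_ne_zero (NeZero.ne q)
  have hqR : (0 : ℝ) < q := by exact_mod_cast hq0
  unfold tf
  rw [Finset.mul_sum, Finset.mul_sum]
  refine (Fintype.sum_equiv (sig q) _ _ fun u => ?_)
  obtain ⟨k, hk⟩ := sig_dvd u
  rw [chi_sig hq]
  set v := ((sig q u : (ZMod q)ˣ) : ZMod q).val
  have h1 : π.Fx (pt (((u : ZMod q).val : ℝ) / q) (1 / (q ^ 2 * y))) =
      -((q * y : ℝ) : ℂ) ^ 2 * π.Fx (pt ((v : ℝ) / q) y) := by
    refine Fx_inv π (a := ((u : ZMod q).val : ℤ)) (b := -k) (c := q) (d := -(v : ℤ)) (by linarith)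
      (pt_mem hy) (pt_mem (by positivity)) ?_ (by positivity) ?_
    · have := pt_rel hq0 hk hy
      simpa using this
    · have := pt_rel_im (v := (v : ℤ)) (y := y) hq0
      push_cast at this ⊢
      exact this
  rw [h1]
  have h2 : χ (-1) * χ (-1) = 1 := by
    rw [← map_mul]; simp
  push_cast
  linear_combination (-(q * y) ^ 2 * χ (u : ZMod q) * π.Fx (pt ((v : ℝ) / q) y)) * (- h2)

end tf

end Pool.Agent.Q18
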