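import Pool.Agent.Q18.Twist
import Pool.Agent.Q18.Lfun

/-!
# The twisted `L`-functions of an odd Hecke–Maass form vanish at the centre
-/

set_option autoImplicit false

open MeasureTheory Filter Topology UpperHalfPlane
open scoped ENNReal MatrixGroups ContDiff

noncomputable section

namespace Pool.Agent.Q18

open Pool.Agent.Q18.Hyp Pool.Agent.Q18.Four Pool.Agent.Q18.Bessel Pool.Agent.Q18.Coeff

theorem IsTwistedL.unique {π : HeckeMaassForm} {q : ℕ} {χ : DirichletCharacter ℂ q} {L L' : ℂ → ℂ}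
    (h : IsTwistedL π χ L) (h' : IsTwistedL π χ L') : L = L' := by
  obtain ⟨hd, σ, hσ⟩ := h
  obtain ⟨hd', σ', hσ'⟩ := h'
  set s0 : ℂ := ((max σ σ' + 1 : ℝ) : ℂ) with hs0
  have hnhds : ∀ᶠ s in 𝓝 s0, L s = L' s := by
    have h1 : {s : ℂ | max σ σ' < s.re} ∈ 𝓝 s0 := by
      refine (isOpen_lt continuous_const Complex.continuous_re).mem_nhds ?_
      show max σ σ' < s0.re
      rw [hs0, Complex.ofReal_re]; linarith
    filter_upwards [h1] with s hs
    have hs : max σ σ' < s.re := hs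
    exact (hσ s (lt_of_le_of_lt (le_max_left _ _) hs)).unique
      (hσ' s (lt_of_le_of_lt (le_max_right _ _) hs))
  exact (hd.differentiableOn.analyticOnNhd isOpen_univ).eq_of_eventuallyEq
    (hd'.differentiableOn.analyticOnNhd isOpen_univ) hnhds

theorem twist_aux {q : ℕ} [NeZero q] {χ : DirichletCharacter ℂ q} (hχ : χ.IsPrimitive)
    (hq2 : χ ^ 2 = 1) {π : HeckeMaassForm} {ν c : ℂ} {a : ℕ → ℂ} {C M : ℝ} (hc : c ≠ 0)
    (ha : HeckeSeq a) (hap : ∀ p, p.Prime → a p = π.hecke p) (hC0 : 0 ≤ C) (hC : ∀ n, ‖a n‖ ≤ C * √n)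
    (hM : ∀ y, 0 < y → ‖B ν y‖ ≤ M) {H : ℂ → ℂ} (hH : ContinuousOn H U)
    (hper : ∀ z ∈ U, H (z + 1) = H z) {δ : ℕ} (hδ : δ ≤ 1)
    (hco : ∀ n : ℕ, 0 < n → ∀ y : ℝ, 0 < y →
      co H n y = (2 * Real.pi * Complex.I * n) ^ δ * (c * (a n / √n) * B ν (n * y)))
    (hco0 : ∀ y : ℝ, 0 < y → co H 0 y = 0)
    {ε : ℂ} (hε : ε * χ (-1) = 1) (hsym : ∀ n : ℤ, ∀ y : ℝ, 0 < y → co H (-n) y = ε * co H n y)
    (hfe : ∀ y : ℝ, 0 < y → tf H χ (1 / (q ^ 2 * y)) = -((q : ℂ) ^ 2 * y ^ 2) ^ δ * tf H χ y) :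
    ∃ L : ℂ → ℂ, IsTwistedL π χ L ∧ L (1 / 2) = 0 := by
  have hq0 : 0 < q := Nat.pos_of_ne_zero (NeZero.ne q)
  set τ := gaussSum χ (ZMod.stdAddChar (N := q)) with hτ
  have hτ0 : τ ≠ 0 := gauss_ne_zero hχ
  have hpi0 : (2 * Real.pi * Complex.I : ℂ) ≠ 0 := Complex.two_pi_I_ne_zero
  set κ : ℂ := 2 * τ * c * (2 * Real.pi * Complex.I) ^ δ with hκ
  have hκ0 : κ ≠ 0 := mul_ne_zero (mul_ne_zero (mul_ne_zero two_ne_zero hτ0) hc) (pow_ne_zero _ hpi0)
  set d : ℕ → ℂ := fun n => κ * (χ n * a n * ((n : ℂ) ^ δ / √n)) with hd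
  have hd0 : d 0 = 0 := by simp [hd, ha.zero]
  have hsq0 : ∀ n : ℕ, 0 < n → (0 : ℝ) < √(n : ℝ) := fun n hn => Real.sqrt_pos.2 (by exact_mod_cast hn)
  -- bound
  have hdn : ∀ n : ℕ, ‖d n‖ ≤ (‖κ‖ * C) * n := by
    intro n
    rcases Nat.eq_zero_or_pos n with rfl | hn
    · rw [hd0, norm_zero]; positivity
    have hs := hsq0 n hn
    have hn1 : (1 : ℝ) ≤ n := by exact_mod_cast hn
    simp only [hd, norm_mul, norm_div, norm_pow, Complex.norm_real, Complex.norm_natCast,
      Real.norm_of_nonneg hs.le]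
    rw [mul_assoc ‖κ‖ C]
    refine mul_le_mul_of_nonneg_left ?_ (norm_nonneg κ)
    have h1 : ‖χ (n : ZMod q)‖ ≤ 1 := χ.norm_le_one _
    have h2 : (n : ℝ) ^ δ ≤ n := by
      interval_cases δ
      · simpa using hn1
      · simp
    calc ‖χ (n : ZMod q)‖ * ‖a n‖ * ((n : ℝ) ^ δ / √n) ≤ 1 * (C * √n) * (n / √n) := by
          gcongr
          exact hC n
      _ = C * n := by field_simp
  -- expansion
  have hB := Lf.B_exp hM
  obtain ⟨C3, hC30, hC3⟩ := hB
  have hexp : ∀ y : ℝ, 0 < y → HasSum (fun n : ℕ => d n * B ν (n * y)) (tf H χ y) := by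
    intro y hy
    have hsumN : Summable fun n : ℕ => co H n y := by
      have h1 : Summable fun n : ℕ => ((2 * Real.pi) ^ δ * ‖c‖ * C * C3) *
          ((n : ℝ) ^ 1 * Real.exp (-(Real.pi / 2 * y) * n)) :=
        (Real.summable_pow_mul_exp_neg_nat_mul 1 (by have := Real.pi_pos; positivity)).mul_left _
      refine Summable.of_norm_bounded h1 fun n => ?_
      rcases Nat.eq_zero_or_pos n with rfl | hn
      · have := hco0 y hy
        simp only [Nat.cast_zero]
        rw [this, norm_zero]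
        simp
      have hs := hsq0 n hn
      have hn1 : (1 : ℝ) ≤ n := by exact_mod_cast hn
      rw [hco n hn y hy]
      have hpos : 0 < (n : ℝ) * y := by positivity
      have h2 : ‖(2 * Real.pi * Complex.I * n : ℂ) ^ δ‖ ≤ (2 * Real.pi) ^ δ * n := by
        rw [norm_pow, norm_mul, norm_mul, norm_mul, Complex.norm_I, Complex.norm_real,
          Real.norm_of_nonneg Real.pi_pos.le, Complex.norm_natCast]
        interval_cases δ
        · simpa using hn1
        · simp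
      have h3 : ‖c * (a n / √n) * B ν (n * y)‖ ≤ ‖c‖ * C * (C3 * Real.exp (-(Real.pi / 2 * (n * y)))) := by
        rw [norm_mul, norm_mul, norm_div, Complex.norm_real, Real.norm_of_nonneg hs.le]
        have h4 : ‖a n‖ / √n ≤ C := by
          rw [div_le_iff₀ hs]; exact hC n
        gcongr
        exact hC3 _ hpos
      rw [norm_mul]
      calc _ ≤ ((2 * Real.pi) ^ δ * n) * (‖c‖ * C * (C3 * Real.exp (-(Real.pi / 2 * (n * y))))) :=
            mul_le_mul h2 h3 (norm_nonneg _) (by positivity)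
        _ = _ := by
          rw [pow_one]
          have : Real.exp (-(Real.pi / 2 * (n * y))) = Real.exp (-(Real.pi / 2 * y) * n) := by
            congr 1; ring
          rw [this]; ring
    have hsumZ : Summable fun n : ℤ => co H n y := by
      refine Summable.of_nat_of_neg hsumN ?_
      simp_rw [hsym _ y hy]
      exact hsumN.mul_left ε
    have h5 := tf_expand hH hper hχ hq2 hy hsumZ (fun n => by
      rw [hsym n y hy]
      have : χ ((-n : ℤ) : ZMod q) = χ (-1) * χ (n : ZMod q) := by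
        rw [← map_mul]; push_cast; ring_nf
      rw [this]
      linear_combination (co H n y * χ (n : ZMod q)) * hε) (by rw [hco0 y hy, zero_mul])
    refine h5.congr_fun fun n => ?_
    rcases Nat.eq_zero_or_pos n with rfl | hn
    · rw [hd0]
      have := hco0 y hy
      simp only [Nat.cast_zero]
      rw [this]; ring
    rw [hco n hn y hy]
    simp only [hd, hκ]
    rw [mul_pow]
    ring
  have hfc := tf_cont hH χ
  have hmd := Lf.mellin_diff hM (by positivity : 0 ≤ ‖κ‖ * C) hd0 hdn hexp hq0 hfe hfc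
  have hm0 := Lf.mellin_zero hq0 hfe
  -- the L-function
  refine ⟨fun s => 2 / κ * (Real.pi : ℂ) ^ (s + δ) * ((Complex.Gamma ((s + δ + ν) / 2))⁻¹ *
    (Complex.Gamma ((s + δ - ν) / 2))⁻¹) * mellin (tf H χ) (s + δ - 1 / 2), ⟨?_, ?_⟩, ?_⟩
  · have hpiC : (Real.pi : ℂ) ≠ 0 := by exact_mod_cast Real.pi_pos.ne'
    have g1 : Differentiable ℂ fun s : ℂ => (Complex.Gamma ((s + δ + ν) / 2))⁻¹ :=
      Complex.differentiable_one_div_Gamma.comp (by fun_prop)
    have g2 : Differentiable ℂ fun s : ℂ => (Complex.Gamma ((s + δ - ν) / 2))⁻¹ :=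
      Complex.differentiable_one_div_Gamma.comp (by fun_prop)
    have g3 : Differentiable ℂ fun s : ℂ => mellin (tf H χ) (s + δ - 1 / 2) := by
      have g5 : Differentiable ℂ (mellin (tf H χ)) := fun s => hmd s
      have g6 : Differentiable ℂ fun s : ℂ => s + δ - 1 / 2 := by fun_prop
      exact g5.comp g6
    have g4 : Differentiable ℂ fun s : ℂ => (Real.pi : ℂ) ^ (s + δ) := by
      intro s
      exact (DifferentiableAt.const_cpow (by fun_prop) (Or.inl hpiC))
    exact ((g4.const_mul _).mul (g1.mul g2)).mul g3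
  · refine ⟨max 3 |ν.re|, fun s hs => ?_⟩
    have hs3 : 3 < s.re := lt_of_le_of_lt (le_max_left _ _) hs
    have hsν : |ν.re| < s.re := lt_of_le_of_lt (le_max_right _ _) hs
    obtain ⟨hs1, hs2⟩ := abs_lt.1 hsν
    have hδR : (0 : ℝ) ≤ δ := Nat.cast_nonneg δ
    have hprod := euler ha hC0 hC χ (s := s) (by linarith)
    have e1 : (fun p : Nat.Primes => (1 - π.hecke p * χ p * (p : ℂ) ^ (-s) +
        χ p ^ 2 * (p : ℂ) ^ (-(2 * s)))⁻¹) = fun p : Nat.Primes => (1 - a p * χ p * (p : ℂ) ^ (-s) +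
        χ p ^ 2 * (p : ℂ) ^ (-(2 * s)))⁻¹ := by
      ext p
      rw [hap p p.2]
    rw [e1]
    have hre : (s + δ - 1 / 2 : ℂ).re = s.re + δ - 1 / 2 := by simp
    have e2 := Lf.mellin_series hM (by positivity : 0 ≤ ‖κ‖ * C) hd0 hdn hexp (w := s + δ - 1 / 2)
      (by rw [hre]; linarith)
    have hre2 : (s + δ : ℂ).re = s.re + δ := by simp
    have e3 := mellin_B ν (s + δ) (by rw [hre2]; linarith) (by rw [hre2]; linarith)
    have e4 : ∑' n : ℕ, d n * (n : ℂ) ^ (-(s + δ - 1 / 2)) = κ * ∑' n : ℕ, tw a χ s n := by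
      rw [← tsum_mul_left]
      congr 1
      ext n
      rcases Nat.eq_zero_or_pos n with rfl | hn
      · rw [hd0]; simp [tw, ha.zero]
      have hnC : (n : ℂ) ≠ 0 := by exact_mod_cast hn.ne'
      have hsq : (√(n : ℝ) : ℂ) = (n : ℂ) ^ (1 / 2 : ℂ) := by
        rw [Real.sqrt_eq_rpow, Complex.ofReal_cpow (Nat.cast_nonneg n)]
        push_cast; rfl
      simp only [hd, tw]
      rw [hsq]
      have e5 : ((n : ℂ) ^ δ / (n : ℂ) ^ (1 / 2 : ℂ)) * (n : ℂ) ^ (-(s + δ - 1 / 2)) = (n : ℂ) ^ (-s) := by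
        rw [← Complex.cpow_natCast, ← Complex.cpow_sub _ _ hnC, ← Complex.cpow_add _ _ hnC]
        congr 1; ring
      linear_combination (κ * (χ (n : ZMod q) * a n)) * e5
    rw [e3, e4] at e2
    have hG1 : Complex.Gamma ((s + δ + ν) / 2) ≠ 0 := by
      refine Complex.Gamma_ne_zero_of_re_pos ?_
      rw [show (s + δ + ν) / 2 = (((1 / 2 : ℝ) : ℂ)) * (s + δ + ν) by push_cast; ring,
        Complex.re_ofReal_mul, Complex.add_re, hre2]
      linarith
    have hG2 : Complex.Gamma ((s + δ - ν) / 2) ≠ 0 := by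
      refine Complex.Gamma_ne_zero_of_re_pos ?_
      rw [show (s + δ - ν) / 2 = (((1 / 2 : ℝ) : ℂ)) * (s + δ - ν) by push_cast; ring,
        Complex.re_ofReal_mul, Complex.sub_re, hre2]
      linarith
    have hpiC : (Real.pi : ℂ) ≠ 0 := by exact_mod_cast Real.pi_pos.ne'
    have e6 : (Real.pi : ℂ) ^ (s + δ) * (Real.pi : ℂ) ^ (-(s + δ)) = 1 := by
      rw [← Complex.cpow_add _ _ hpiC]; simp
    convert hprod using 1
    beta_reduce
    rw [e2]
    field_simp
    linear_combination (∑' n : ℕ, tw a χ s n) * e6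
  · have : (1 / 2 + δ - 1 / 2 : ℂ) = δ := by ring
    simp only
    rw [this, hm0, mul_zero]

/-- **All quadratic twists of an odd Hecke–Maass form of level one vanish at the centre.** -/
theorem twist_L (π : HeckeMaassForm) (hodd : π.IsOdd) {q : ℕ} [NeZero q] (χ : DirichletCharacter ℂ q)
    (hχ : χ.IsPrimitive) (hq2 : χ ^ 2 = 1) : ∃ L : ℂ → ℂ, IsTwistedL π χ L ∧ L (1 / 2) = 0 := by
  obtain ⟨ν, c, a, C, M, hc, ha, hap, hC0, hC, hco, hM⟩ := π.exists_coeff hodd
  rcases χ.even_or_odd with he | ho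
  · -- even
    have he : χ (-1) = 1 := he
    have hcx : ∀ n : ℤ, ∀ y : ℝ, 0 < y → co π.Fx n y = 2 * Real.pi * Complex.I * n * co π.F n y :=
      fun n y hy => co_deriv_x π.F_cont (fderiv_dir_contDiffOn π.F_smooth 1).continuousOn
        (fun z hz => HasFDerivAt.dir (diffAt π.F_smooth hz).hasFDerivAt 1) π.F_per n hy
    refine twist_aux hχ hq2 hc ha hap hC0 hC hM (H := π.Fx) (δ := 1)
      (fderiv_dir_contDiffOn π.F_smooth 1).continuousOn
      (per_deriv (fun z hz => HasFDerivAt.dir (diffAt π.F_smooth hz).hasFDerivAt 1) π.F_per) le_rfl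
      (fun n hn y hy => ?_) (fun y hy => ?_) (ε := 1) (by rw [he, one_mul]) (fun n y hy => ?_)
      (fun y hy => ?_)
    · rw [hcx n y hy, hco n hn y hy, pow_one]
      push_cast; ring
    · rw [hcx 0 y hy]; simp
    · rw [hcx _ y hy, hcx _ y hy, co_neg π.F_per (π.F_odd hodd) n hy]
      push_cast; ring
    · rw [tf_feq' π hq2 hy, he]; ring
  · -- odd
    have ho : χ (-1) = -1 := ho
    refine twist_aux hχ hq2 hc ha hap hC0 hC hM (H := π.F) (δ := 0) π.F_cont π.F_per zero_le_one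
      (fun n hn y hy => ?_) (fun y hy => ?_) (ε := -1) (by rw [ho]; ring) (fun n y hy => ?_)
      (fun y hy => ?_)
    · rw [hco n hn y hy, pow_zero, one_mul]
    · exact co_zero_of_odd π.F_per (π.F_odd hodd) hy
    · rw [co_neg π.F_per (π.F_odd hodd) n hy]; ring
    · rw [tf_feq π hq2 hy, ho, pow_zero]

end Pool.Agent.Q18
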