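import Pool.Agent.Q18.Kernel2

/-!
# The invariant measure on the modular curve and unfolding
-/

set_option autoImplicit false

open MeasureTheory Filter Topology UpperHalfPlane
open scoped ENNReal MatrixGroups Pointwise

noncomputable section

namespace Pool.Agent.Q18.Hyp

variable {δ : ℝ} {κ : ℝ → ℝ}

/-! ### Finite volume -/

theorem volume_Reg : volume Reg < ∞ := by
  rw [volume_eq_lintegral]
  set Q : Set ℂ := {z | |z.re| ≤ 1 / 2 ∧ 4 / 5 ≤ z.im} with hQ
  have h1 : ((↑) '' Reg : Set ℂ) ⊆ Q := by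
    rintro _ ⟨z, hz, rfl⟩
    exact ⟨hz.1, Reg_im hz⟩
  refine (lintegral_mono_set h1).trans_lt ?_
  have e : Complex.measurableEquivRealProd ⁻¹' (Set.Icc (-(1 / 2)) (1 / 2) ×ˢ Set.Ici (4 / 5)) = Q := by
    ext z
    simp [hQ, abs_le, Complex.measurableEquivRealProd]
  rw [← e]
  have h2 : ∀ z : ℂ, ((1 / ‖z.im‖₊) ^ 2 : NNReal) =
      (fun p : ℝ × ℝ => (1 / ‖p.2‖₊) ^ 2) (Complex.measurableEquivRealProd z) := fun z => rfl
  simp_rw [h2]
  rw [Complex.volume_preserving_equiv_real_prod.setLIntegral_comp_preimage_emb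
    Complex.measurableEquivRealProd.measurableEmbedding (fun p : ℝ × ℝ =>
      (((1 / ‖p.2‖₊) ^ 2 : NNReal) : ℝ≥0∞))]
  have hm : Measurable (fun y : ℝ => (((1 / ‖y‖₊) ^ 2 : NNReal) : ℝ≥0∞)) := by
    fun_prop
  rw [Measure.volume_eq_prod, ← Measure.prod_restrict,
    lintegral_prod _ (by fun_prop)]
  simp only
  rw [lintegral_const]
  refine ENNReal.mul_lt_top ?_ (by simp)
  have h3 : IntegrableOn (fun y : ℝ => y ^ (-2 : ℝ)) (Set.Ioi (1 / 2)) :=
    integrableOn_Ioi_rpow_of_lt (by norm_num) (by norm_num)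
  have h4 := h3.2
  unfold HasFiniteIntegral at h4
  refine lt_of_le_of_lt ?_ h4
  refine (lintegral_mono_set (fun y hy => ?_ : Set.Ici (4 / 5 : ℝ) ⊆ Set.Ioi (1 / 2))).trans ?_
  · have : (4 / 5 : ℝ) ≤ y := hy
    show (1 / 2 : ℝ) < y
    linarith
  refine setLIntegral_mono' measurableSet_Ioi fun y hy => ?_
  have hy0 : (0 : ℝ) < y := lt_trans (by norm_num) hy
  rw [← ofReal_norm, Real.norm_of_nonneg (by positivity), ← ENNReal.ofReal_coe_nnreal]
  refine ENNReal.ofReal_le_ofReal (le_of_eq ?_)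
  show _ = y ^ (-2 : ℝ)
  rw [Real.rpow_neg hy0.le]
  push_cast
  rw [Real.norm_of_nonneg hy0.le, one_div, inv_pow]
  norm_num

theorem volume_fd : volume (ModularGroup.fd : Set ℍ) < ∞ :=
  (measure_mono fd_subset_Reg).trans_lt volume_Reg

/-! ### The measure -/

instance : Countable SL(2, ℤ) := by
  have : Countable (Matrix (Fin 2) (Fin 2) ℤ) := inferInstanceAs (Countable (Fin 2 → Fin 2 → ℤ))
  unfold Matrix.SpecialLinearGroup
  infer_instance

theorem measurable_smul_SL (γ : SL(2, ℤ)) : Measurable fun w : ℍ => γ • w :=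
  (continuous_const_smul (Matrix.SpecialLinearGroup.mapGL ℝ γ : GL (Fin 2) ℝ)).measurable

theorem measurableSet_fd : MeasurableSet (ModularGroup.fd : Set ℍ) :=
  ModularGroup.isClosed_fd.measurableSet

theorem isCompact_box (M : ℝ) : IsCompact {z : ℍ | z ∈ Reg ∧ z.im ≤ M} := by
  rw [isOpenEmbedding_coe.isInducing.isCompact_iff]
  have h : ((↑) '' {z : ℍ | z ∈ Reg ∧ z.im ≤ M} : Set ℂ) =
      ((fun p : ℝ × ℝ => ((p.1 : ℂ) + p.2 * Complex.I)) ''
        ((Set.Icc (-(1 / 2)) (1 / 2)) ×ˢ ({y : ℝ | 0 ≤ y ∧ 3 ≤ 4 * y ^ 2 ∧ y ≤ M}))) := by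
    ext z
    constructor
    · rintro ⟨w, ⟨⟨h1, h2⟩, h3⟩, rfl⟩
      refine ⟨(w.re, w.im), ⟨abs_le.1 h1, w.im_pos.le, h2, h3⟩, ?_⟩
      apply Complex.ext <;> simp
    · rintro ⟨⟨x, y⟩, ⟨h1, h2, h3, h4⟩, rfl⟩
      have h2 : 0 ≤ y := h2
      have h3 : 3 ≤ 4 * y ^ 2 := h3
      have hy : 0 < y := by
        rcases h2.eq_or_lt with h | h
        · rw [← h] at h3; norm_num at h3
        · exact h
      have hre : ((x : ℂ) + y * Complex.I).re = x := by simp
      have him : ((x : ℂ) + y * Complex.I).im = y := by simp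
      refine ⟨⟨(x : ℂ) + y * Complex.I, by rw [him]; exact hy⟩, ⟨⟨?_, ?_⟩, ?_⟩, rfl⟩
      · show |((x : ℂ) + y * Complex.I).re| ≤ _
        rw [hre, abs_le]
        exact h1
      · show 3 ≤ 4 * (((x : ℂ) + y * Complex.I).im) ^ 2
        rw [him]; exact h3
      · show ((x : ℂ) + y * Complex.I).im ≤ _
        rw [him]; exact h4
  rw [h]
  refine IsCompact.image (isCompact_Icc.prod ?_) (by fun_prop)
  refine (isCompact_Icc (a := (0 : ℝ)) (b := M)).of_isClosed_subset ?_ (fun y hy => ⟨hy.1, hy.2.2⟩)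
  have c1 : Continuous fun y : ℝ => 4 * y ^ 2 := by fun_prop
  exact IsClosed.inter (isClosed_le continuous_const continuous_id) (IsClosed.inter
    (isClosed_le continuous_const c1) (isClosed_le continuous_id continuous_const))

theorem finite_fd (w : ℍ) : {γ : SL(2, ℤ) | γ • w ∈ ModularGroup.fd}.Finite := by
  refine (finite_SL (isCompact_box (max w.im (1 / w.im))) (isCompact_singleton (x := w))).subset ?_
  intro γ hγ
  refine ⟨w, rfl, fd_subset_Reg hγ, ?_⟩
  obtain ⟨-, -, e3⟩ := smul_eqs γ w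
  have hv := w.im_pos
  have hV := (γ • w).im_pos
  by_cases hc : γ 1 0 = 0
  · rw [(smul_of_c_zero hc w).2.2]; exact le_max_left _ _
  · refine le_trans ?_ (le_max_right _ _)
    have hc2 : (1 : ℝ) ≤ ((γ 1 0 : ℤ) : ℝ) ^ 2 := by
      have : (1 : ℤ) ≤ (γ 1 0) ^ 2 := by
        have := Int.one_le_abs hc
        nlinarith [sq_abs (γ 1 0), abs_nonneg (γ 1 0)]
      exact_mod_cast this
    rw [le_div_iff₀ hv]
    have h1 : (γ • w).im * (((γ 1 0 : ℤ) : ℝ) * w.im) ^ 2 ≤ w.im := by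
      nlinarith [mul_nonneg hV.le (sq_nonneg (((γ 1 0 : ℤ) : ℝ) * w.re + (γ 1 1 : ℤ)))]
    have h2 : ((γ • w).im * w.im * ((γ 1 0 : ℤ) : ℝ) ^ 2) * w.im ≤ 1 * w.im := by
      calc _ = (γ • w).im * (((γ 1 0 : ℤ) : ℝ) * w.im) ^ 2 := by ring
        _ ≤ _ := by linarith
    have h3 := le_of_mul_le_mul_right h2 hv
    nlinarith [mul_pos hV hv]

/-- number of translates in the fundamental domain -/
def Nf (w : ℍ) : ℝ≥0∞ := ∑' γ : SL(2, ℤ), (ModularGroup.fd : Set ℍ).indicator 1 (γ • w)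

theorem measurable_Nf : Measurable Nf := by
  unfold Nf
  refine Measurable.tsum fun γ => ?_
  exact (measurable_one.indicator measurableSet_fd).comp (measurable_smul_SL γ)

theorem Nf_smul (g : SL(2, ℤ)) (w : ℍ) : Nf (g • w) = Nf w := by
  unfold Nf
  rw [← (Equiv.mulRight g).tsum_eq (fun γ => (ModularGroup.fd : Set ℍ).indicator 1 (γ • w))]
  congr 1
  ext γ
  rw [Equiv.coe_mulRight, mul_smul]

theorem Nf_ne_zero (w : ℍ) : Nf w ≠ 0 := by
  obtain ⟨g, hg⟩ := ModularGroup.exists_smul_mem_fd w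
  have h : (1 : ℝ≥0∞) ≤ Nf w := by
    unfold Nf
    refine le_trans (le_of_eq ?_) (ENNReal.le_tsum g)
    rw [Set.indicator_of_mem hg]; rfl
  intro h0
  rw [h0] at h
  exact absurd h (by norm_num)

theorem Nf_ne_top (w : ℍ) : Nf w ≠ ∞ := by
  unfold Nf
  rw [tsum_eq_sum (s := (finite_fd w).toFinset)]
  · refine ENNReal.sum_ne_top.2 fun γ _ => ?_
    by_cases h : γ • w ∈ ModularGroup.fd
    · rw [Set.indicator_of_mem h]; simp
    · rw [Set.indicator_of_notMem h]; simp
  · intro γ hγ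
    refine Set.indicator_of_notMem ?_ _
    intro h
    exact hγ ((finite_fd w).mem_toFinset.2 h)

/-- the density -/
def rho (w : ℍ) : ℝ≥0∞ := (ModularGroup.fd : Set ℍ).indicator (fun w => (Nf w)⁻¹) w

theorem measurable_rho : Measurable rho := measurable_Nf.inv.indicator measurableSet_fd

theorem tsum_rho (w : ℍ) : ∑' γ : SL(2, ℤ), rho (γ • w) = 1 := by
  have h : ∀ γ : SL(2, ℤ), rho (γ • w) = (Nf w)⁻¹ * (ModularGroup.fd : Set ℍ).indicator 1 (γ • w) := by
    intro γ
    unfold rho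
    by_cases h : γ • w ∈ ModularGroup.fd
    · rw [Set.indicator_of_mem h, Set.indicator_of_mem h, Nf_smul]; simp
    · rw [Set.indicator_of_notMem h, Set.indicator_of_notMem h]; simp
  simp_rw [h]
  rw [ENNReal.tsum_mul_left]
  exact ENNReal.inv_mul_cancel (Nf_ne_zero w) (Nf_ne_top w)

theorem rho_le (w : ℍ) : rho w ≤ (ModularGroup.fd : Set ℍ).indicator 1 w := by
  unfold rho
  by_cases h : w ∈ ModularGroup.fd
  · rw [Set.indicator_of_mem h, Set.indicator_of_mem h]
    have h2 : (1 : ℝ≥0∞) ≤ Nf w := by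
      unfold Nf
      refine le_trans (le_of_eq ?_) (ENNReal.le_tsum (1 : SL(2, ℤ)))
      rw [one_smul, Set.indicator_of_mem h]; rfl
    simpa using h2
  · rw [Set.indicator_of_notMem h]; simp

/-- the measure -/
def nu : Measure ℍ := volume.withDensity rho

instance : IsFiniteMeasure nu := by
  constructor
  unfold nu
  rw [withDensity_apply _ MeasurableSet.univ, Measure.restrict_univ]
  refine (lintegral_mono rho_le).trans_lt ?_
  rw [lintegral_indicator_one measurableSet_fd]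
  exact volume_fd

theorem lintegral_smul_SL (f : ℍ → ℝ≥0∞) (γ : SL(2, ℤ)) : ∫⁻ w, f (γ • w) = ∫⁻ w, f w :=
  (measurePreserving_smul (Matrix.SpecialLinearGroup.mapGL ℝ γ : GL (Fin 2) ℝ)
    (volume : Measure ℍ)).lintegral_comp_emb
      (measurableEmbedding_const_smul (Matrix.SpecialLinearGroup.mapGL ℝ γ : GL (Fin 2) ℝ)) f

theorem volume_eq_sum : (volume : Measure ℍ) = Measure.sum fun γ : SL(2, ℤ) => nu.map (γ • ·) := by
  ext s hs
  rw [Measure.sum_apply _ hs]
  have h : ∀ γ : SL(2, ℤ), nu.map (γ • ·) s = ∫⁻ w, s.indicator (fun w => rho (γ⁻¹ • w)) w := by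
    intro γ
    rw [Measure.map_apply (measurable_smul_SL γ) hs, nu,
      withDensity_apply _ ((measurable_smul_SL γ) hs), ← lintegral_indicator ((measurable_smul_SL γ) hs),
      ← lintegral_smul_SL (fun w => s.indicator (fun w => rho (γ⁻¹ • w)) w) γ]
    congr 1
    ext w
    by_cases h : γ • w ∈ s
    · rw [Set.indicator_of_mem h, Set.indicator_of_mem (show w ∈ (fun w => γ • w) ⁻¹' s from h),
        inv_smul_smul]
    · rw [Set.indicator_of_notMem h, Set.indicator_of_notMem (show w ∉ (fun w => γ • w) ⁻¹' s from h)]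
  simp_rw [h]
  rw [← lintegral_tsum]
  · rw [← lintegral_indicator_one hs]
    congr 1
    ext w
    by_cases h : w ∈ s
    · simp only [Set.indicator_of_mem h]
      rw [show (1 : ℍ → ℝ≥0∞) w = 1 from rfl, ← tsum_rho w, ← (Equiv.inv SL(2, ℤ)).tsum_eq]
      rfl
    · simp [Set.indicator_of_notMem h]
  · intro γ
    exact ((measurable_rho.comp (measurable_smul_SL γ⁻¹)).indicator hs).aemeasurable

/-- unfolding -/
theorem unfold_K0 (hκ : IsKer δ κ) {φ : ℍ → ℂ} (hφ : Measurable φ) {M : ℝ} (hM : ∀ w, ‖φ w‖ ≤ M)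
    (hinv : ∀ (γ : SL(2, ℤ)) w, φ (γ • w) = φ w) (z : ℍ) :
    ∫ w, (K0 κ z w : ℂ) * φ w ∂nu = op κ φ z := by
  have hint : Integrable (fun w => (κ (D z w) : ℂ) * φ w)
      (Measure.sum fun γ : SL(2, ℤ) => nu.map (γ • ·)) := by
    rw [← volume_eq_sum]; exact hκ.integrable hφ hM z
  have hint' := hint
  rw [integrable_sum_measure_iff] at hint'
  obtain ⟨hi1, hi2⟩ := hint'
  have hms : ∀ γ : SL(2, ℤ), Measurable fun w : ℍ => (κ (D z (γ • w)) : ℂ) * φ w := fun γ =>
    (Complex.measurable_ofReal.comp ((hκ.continuous_kernel z).measurable.comp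
      (measurable_smul_SL γ))).mul hφ
  have emb : ∀ γ : SL(2, ℤ), MeasurableEmbedding fun w : ℍ => γ • w := fun γ =>
    measurableEmbedding_const_smul (Matrix.SpecialLinearGroup.mapGL ℝ γ : GL (Fin 2) ℝ)
  have e1 : op κ φ z = ∑' γ : SL(2, ℤ), ∫ w, (κ (D z (γ • w)) : ℂ) * φ w ∂nu := by
    unfold op
    rw [volume_eq_sum, integral_sum_measure hint]
    congr 1
    ext γ
    rw [(emb γ).integral_map]
    simp only [hinv]
  have e2 : ∀ γ : SL(2, ℤ), Integrable (fun w => (κ (D z (γ • w)) : ℂ) * φ w) nu := by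
    intro γ
    have := (emb γ).integrable_map_iff.1 (hi1 γ)
    refine this.congr (Eventually.of_forall fun w => ?_)
    simp only [Function.comp, hinv]
  have e3 : Summable fun γ : SL(2, ℤ) => ∫ w, ‖(κ (D z (γ • w)) : ℂ) * φ w‖ ∂nu := by
    refine hi2.congr fun γ => ?_
    rw [(emb γ).integral_map]
    simp only [hinv]
  rw [e1, integral_tsum_of_summable_integral_norm e2 e3]
  congr 1
  ext w
  rw [tsum_mul_right]
  congr 1
  unfold K0
  rw [Complex.ofReal_tsum]

theorem unfold_K (hκ : IsKer δ κ) {φ : ℍ → ℂ} (hφ : Measurable φ) {M : ℝ} (hM : ∀ w, ‖φ w‖ ≤ M)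
    (hinv : ∀ (γ : SL(2, ℤ)) w, φ (γ • w) = φ w) (hodd : ∀ w, φ (J • w) = - φ w)
    (hKb : ∃ C, ∀ z w, |K κ z w| ≤ C) (z : ℍ) :
    ∫ w, (K κ z w : ℂ) * φ w ∂nu = 2 * op κ φ z := by
  have h1 : ∀ z, ∫ w, (K0 κ z w : ℂ) * φ w ∂nu = op κ φ z := unfold_K0 hκ hφ hM hinv
  have hint : ∀ z, Integrable (fun w => (K0 κ z w : ℂ) * φ w) nu := by
    intro z
    have emb : ∀ γ : SL(2, ℤ), MeasurableEmbedding fun w : ℍ => γ • w := fun γ =>
      measurableEmbedding_const_smul (Matrix.SpecialLinearGroup.mapGL ℝ γ : GL (Fin 2) ℝ)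
    have hms : ∀ γ : SL(2, ℤ), Measurable fun w : ℍ => (κ (D z (γ • w)) : ℂ) * φ w := fun γ =>
      (Complex.measurable_ofReal.comp ((hκ.continuous_kernel z).measurable.comp
        (measurable_smul_SL γ))).mul hφ
    refine ⟨?_, ?_⟩
    · refine (Measurable.mul ?_ hφ).aestronglyMeasurable
      refine Complex.measurable_ofReal.comp ?_
      exact ((continuous_K0 hκ).comp (by fun_prop : Continuous fun w : ℍ => (z, w))).measurable
    · have h3 := (hκ.integrable hφ hM z).2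
      unfold HasFiniteIntegral at h3 ⊢
      rw [volume_eq_sum, lintegral_sum_measure] at h3
      have h4 : ∀ γ : SL(2, ℤ), ∫⁻ w, ‖(κ (D z w) : ℂ) * φ w‖ₑ ∂(nu.map (γ • ·)) =
          ∫⁻ w, ‖(κ (D z (γ • w)) : ℂ) * φ w‖ₑ ∂nu := by
        intro γ
        rw [(emb γ).lintegral_map]
        simp only [hinv]
      simp_rw [h4] at h3
      rw [← lintegral_tsum fun γ => (hms γ).enorm.aemeasurable] at h3
      refine (lintegral_mono fun w => ?_).trans_lt h3
      have h5 : (K0 κ z w : ℂ) * φ w = ∑ γ ∈ (finite_support hκ z w).toFinset,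
          (κ (D z (γ • w)) : ℂ) * φ w := by
        rw [← Finset.sum_mul]
        congr 1
        unfold K0
        rw [tsum_eq_sum (s := (finite_support hκ z w).toFinset)]
        · push_cast; rfl
        · intro γ hγ
          by_contra hcon
          exact hγ ((finite_support hκ z w).mem_toFinset.2 hcon)
      show ‖(K0 κ z w : ℂ) * φ w‖ₑ ≤ _
      rw [h5]
      exact (enorm_sum_le _ _).trans (ENNReal.sum_le_tsum _)
  have h2 : ∀ z w, K0 κ z (J • w) = K0 κ (J • z) w := fun z w => (K0_J' z w).symm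
  unfold K
  simp_rw [h2]
  push_cast
  simp_rw [sub_mul]
  rw [integral_sub (hint z) (hint (J • z)), h1, h1, ← op_smul_comp]
  simp_rw [hodd]
  have := op_const_mul κ (-1) φ z
  simp only [neg_mul, one_mul] at this
  rw [this]; ring

end Pool.Agent.Q18.Hyp
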